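import Pool.Agent.TO.Stmt

/-!
# The definitions of the statement: the heat extension
-/

set_option autoImplicit false

namespace Pool.Agent.TB

open MeasureTheory Set Pool.Agent.TO
open scoped Real

/-- the heat kernel on `ℝ³` -/
noncomputable def gauss (σ : ℝ) (y : E3) : ℝ :=
  (4 * π * σ) ^ (-(3 / 2) : ℝ) * Real.exp (-‖y‖ ^ 2 / (4 * σ))

/-- the heat extension `e^{σ Δ} f` -/
noncomputable def heatF (σ : ℝ) (f : V3) (x : E3) : E3 := ∫ y, gauss σ y • fld f (x - y)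

/-- `√σ |e^{σ Δ} f(x)| ≤ N` for all `x` and all `0 < σ ≤ t` -/
def HBdd (t N : ℝ) (f : V3) : Prop := ∀ σ ∈ Ioc 0 t, ∀ x, ‖heatF σ f x‖ ≤ N / √σ

/-- `√σ |e^{σ Δ} v(t)(x)| ≤ N` for almost every `t`, all `x` and all `0 < σ ≤ t` -/
def LHeat (T : ℝ) (v : ℝ → V3) (N : ℝ) : Prop :=
  ∀ᵐ t ∂(volume.restrict (Ioo 0 T)), HBdd t N (v t)

end Pool.Agent.TB
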