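import Pool.Agent.TB.NNB

/-!
# Differences of divergence-free fields
-/

set_option autoImplicit false

namespace Pool.Agent.TB

open MeasureTheory Set Filter Topology Pool.Agent.TO
open scoped ENNReal NNReal Real InnerProductSpace SchwartzMap

theorem integrable_fderiv (φ : 𝓢(E3, ℝ)) (f : V3) :
    Integrable (fun x => fderiv ℝ φ x (f x)) (volume : Measure E3) := by
  have h1 : MemLp (fun x => fderiv ℝ φ x) 2 (volume : Measure E3) :=
    (SchwartzMap.fderivCLM ℝ E3 ℝ φ).memLp 2 volume
  have h2 := h1.norm.integrable_mul (Lp.memLp f).norm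
  refine Integrable.mono' h2 ?_ ?_
  · have hc : Continuous (fderiv ℝ φ) := φ.smooth'.continuous_fderiv (by norm_num)
    exact (isBoundedBilinearMap_apply (𝕜 := ℝ) (E := E3) (F := ℝ)).continuous
      |>.comp_aestronglyMeasurable (hc.aestronglyMeasurable.prodMk (Lp.aestronglyMeasurable f))
  · exact Eventually.of_forall fun x => (fderiv ℝ φ x).le_opNorm (f x)

theorem isDivFree_sub {f g : V3} (hf : IsDivFree f) (hg : IsDivFree g) : IsDivFree (f - g) := by
  intro φ
  have h1 : ∫ x, fderiv ℝ φ x ((f - g : V3) x) =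
      ∫ x, (fderiv ℝ φ x (f x) - fderiv ℝ φ x (g x)) := by
    apply integral_congr_ae
    filter_upwards [Lp.coeFn_sub f g] with x hx
    rw [hx, Pi.sub_apply, map_sub]
  rw [h1, integral_sub (integrable_fderiv φ f) (integrable_fderiv φ g), hf φ, hg φ, sub_zero]

end Pool.Agent.TB
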