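import Pool.Agent.TB.Chain

/-!
# The cancellation `∫ (w · ∇ w) · w = 0` for `w ⊗ w` square integrable
-/

set_option autoImplicit false

namespace Pool.Agent.TB

open MeasureTheory Set Filter Topology Pool.Agent.TO
open scoped SchwartzMap InnerProductSpace LineDeriv Laplacian ENNReal NNReal
open scoped Real

/-- a truncation of `|z|² / 2` -/
noncomputable def FR (R : ℝ) (z : E3) : ℝ := R * (√(R ^ 2 + ‖z‖ ^ 2) - R)

/-- its gradient -/
noncomputable def PhR (R : ℝ) (z : E3) : E3 := (R / √(R ^ 2 + ‖z‖ ^ 2)) • z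

theorem sqrt_pos' {R : ℝ} (hR : 0 < R) (z : E3) : 0 < √(R ^ 2 + ‖z‖ ^ 2) :=
  Real.sqrt_pos.2 (by positivity)

theorem hasFDerivAt_FR {R : ℝ} (hR : 0 < R) (z : E3) :
    HasFDerivAt (FR R) (innerSL ℝ (PhR R z)) z := by
  have h1 : HasFDerivAt (fun z : E3 => R ^ 2 + ‖z‖ ^ 2) (2 • (innerSL ℝ z)) z := by
    have := (hasStrictFDerivAt_norm_sq z).hasFDerivAt.const_add (R ^ 2)
    exact this
  have h2 := h1.sqrt (by positivity : R ^ 2 + ‖z‖ ^ 2 ≠ 0)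
  have h3 := (h2.sub_const R).const_mul R
  have e : R • (1 / (2 * √(R ^ 2 + ‖z‖ ^ 2))) • (2 • innerSL ℝ z : E3 →L[ℝ] ℝ) =
      innerSL ℝ (PhR R z) := by
    apply ContinuousLinearMap.ext
    intro v
    have hs := (sqrt_pos' hR z).ne'
    change R * ((1 / (2 * √(R ^ 2 + ‖z‖ ^ 2))) * ((2:ℕ) • ⟪z, v⟫_ℝ)) = ⟪PhR R z, v⟫_ℝ
    rw [PhR, inner_smul_left, conj_trivial, nsmul_eq_mul]
    push_cast
    field_simp
  rw [e] at h3
  exact h3

theorem sqrt_lip {R : ℝ} (hR : 0 < R) (z z' : E3) :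
    |√(R ^ 2 + ‖z‖ ^ 2) - √(R ^ 2 + ‖z'‖ ^ 2)| ≤ ‖z - z'‖ := by
  have h0 := abs_norm_sub_norm_le z z'
  refine le_trans ?_ h0
  have h1 := sqrt_pos' hR z
  have h2 := sqrt_pos' hR z'
  have h3 : ‖z‖ ≤ √(R ^ 2 + ‖z‖ ^ 2) := Real.le_sqrt_of_sq_le (by nlinarith)
  have h4 : ‖z'‖ ≤ √(R ^ 2 + ‖z'‖ ^ 2) := Real.le_sqrt_of_sq_le (by nlinarith)
  have e1 := Real.sq_sqrt (by positivity : 0 ≤ R ^ 2 + ‖z‖ ^ 2)
  have e2 := Real.sq_sqrt (by positivity : 0 ≤ R ^ 2 + ‖z'‖ ^ 2)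
  have h5 : |√(R ^ 2 + ‖z‖ ^ 2) - √(R ^ 2 + ‖z'‖ ^ 2)| *
      (√(R ^ 2 + ‖z‖ ^ 2) + √(R ^ 2 + ‖z'‖ ^ 2)) = |‖z‖ - ‖z'‖| * (‖z‖ + ‖z'‖) := by
    rw [← abs_of_pos (by positivity : 0 < √(R ^ 2 + ‖z‖ ^ 2) + √(R ^ 2 + ‖z'‖ ^ 2)),
      ← abs_of_nonneg (by positivity : 0 ≤ ‖z‖ + ‖z'‖), ← abs_mul, ← abs_mul]
    congr 1
    nlinarith
  have h6 : |‖z‖ - ‖z'‖| * (‖z‖ + ‖z'‖) ≤ |‖z‖ - ‖z'‖| *
      (√(R ^ 2 + ‖z‖ ^ 2) + √(R ^ 2 + ‖z'‖ ^ 2)) :=
    mul_le_mul_of_nonneg_left (by linarith) (abs_nonneg _)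
  rw [← h5] at h6
  exact le_of_mul_le_mul_right h6 (by positivity)

theorem lip_FR {R : ℝ} (hR : 0 < R) : LipschitzWith R.toNNReal (FR R) := by
  apply LipschitzWith.of_dist_le_mul
  intro z z'
  rw [Real.dist_eq, Real.coe_toNNReal R hR.le, dist_eq_norm]
  have : FR R z - FR R z' = R * (√(R ^ 2 + ‖z‖ ^ 2) - √(R ^ 2 + ‖z'‖ ^ 2)) := by
    simp only [FR]
    ring
  rw [this, abs_mul, abs_of_pos hR]
  exact mul_le_mul_of_nonneg_left (sqrt_lip hR z z') hR.le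

theorem norm_PhR_le {R : ℝ} (hR : 0 < R) (z : E3) : ‖PhR R z‖ ≤ ‖z‖ ∧ ‖PhR R z‖ ≤ R := by
  have h1 := sqrt_pos' hR z
  have h2 : R ≤ √(R ^ 2 + ‖z‖ ^ 2) := Real.le_sqrt_of_sq_le (by nlinarith [norm_nonneg z])
  have h3 : ‖z‖ ≤ √(R ^ 2 + ‖z‖ ^ 2) := Real.le_sqrt_of_sq_le (by nlinarith)
  rw [PhR, norm_smul, Real.norm_of_nonneg (by positivity)]
  constructor
  · have : R / √(R ^ 2 + ‖z‖ ^ 2) ≤ 1 := (div_le_one h1).2 h2
    calc R / √(R ^ 2 + ‖z‖ ^ 2) * ‖z‖ ≤ 1 * ‖z‖ := by gcongr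
      _ = ‖z‖ := one_mul _
  · rw [div_mul_eq_mul_div, div_le_iff₀ h1]
    gcongr

theorem lip_PhR {R : ℝ} (hR : 0 < R) : LipschitzWith 2 (PhR R) := by
  apply LipschitzWith.of_dist_le_mul
  intro z z'
  rw [dist_eq_norm, dist_eq_norm]
  set s : ℝ := √(R ^ 2 + ‖z‖ ^ 2) with hs
  set s' : ℝ := √(R ^ 2 + ‖z'‖ ^ 2) with hs'
  have h1 : 0 < s := sqrt_pos' hR z
  have h1' : 0 < s' := sqrt_pos' hR z'
  have h2 : R ≤ s := Real.le_sqrt_of_sq_le (by nlinarith [norm_nonneg z])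
  have h3 : ‖z'‖ ≤ s' := Real.le_sqrt_of_sq_le (by nlinarith)
  have h4 : |s - s'| ≤ ‖z - z'‖ := sqrt_lip hR z z'
  have e1 : PhR R z - PhR R z' = (R / s) • (z - z') + ((R / s) * ((s' - s) / s')) • z' := by
    have : (R / s) * ((s' - s) / s') = R / s - R / s' := by field_simp
    rw [this, PhR, PhR, ← hs, ← hs', smul_sub, sub_smul]
    abel
  rw [e1]
  refine (norm_add_le _ _).trans ?_
  rw [norm_smul, norm_smul, norm_mul, norm_div, norm_div, Real.norm_of_nonneg hR.le,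
    Real.norm_of_nonneg h1.le, Real.norm_of_nonneg h1'.le, Real.norm_eq_abs, abs_sub_comm]
  have h5 : R / s ≤ 1 := (div_le_one h1).2 h2
  have h6 : 0 ≤ R / s := by positivity
  have h7 : |s - s'| / s' * ‖z'‖ ≤ ‖z - z'‖ := by
    rw [div_mul_eq_mul_div, div_le_iff₀ h1']
    exact mul_le_mul h4 h3 (norm_nonneg _) (norm_nonneg _)
  have h8 : R / s * ‖z - z'‖ ≤ ‖z - z'‖ := by
    nlinarith [norm_nonneg (z - z')]
  have h9 : R / s * (|s - s'| / s') * ‖z'‖ ≤ ‖z - z'‖ := by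
    rw [mul_assoc]
    calc R / s * (|s - s'| / s' * ‖z'‖) ≤ 1 * ‖z - z'‖ := by
          apply mul_le_mul h5 h7 (by positivity) (by norm_num)
      _ = ‖z - z'‖ := one_mul _
  push_cast
  linarith

theorem tendsto_PhR (z : E3) :
    Tendsto (fun n : ℕ => PhR ((n:ℝ) + 1) z) atTop (𝓝 z) := by
  have h1 : Tendsto (fun n : ℕ => ‖z‖ ^ 2 * ((1:ℝ) / ((n:ℝ) + 1))) atTop (𝓝 0) := by
    have := (tendsto_one_div_add_atTop_nhds_zero_nat (𝕜 := ℝ)).const_mul (‖z‖ ^ 2)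
    simpa using this
  rw [tendsto_iff_norm_sub_tendsto_zero]
  have h2 : Tendsto (fun n : ℕ => ‖z‖ ^ 2 * ((1:ℝ) / ((n:ℝ) + 1)) * ‖z‖) atTop (𝓝 0) := by
    have := h1.mul_const ‖z‖
    simpa using this
  refine squeeze_zero (fun n => norm_nonneg _) (fun n => ?_) h2
  set R : ℝ := (n:ℝ) + 1 with hR
  have hR1 : 1 ≤ R := by
    rw [hR]
    have : (0:ℝ) ≤ n := Nat.cast_nonneg n
    linarith
  have hR0 : 0 < R := by linarith
  set s : ℝ := √(R ^ 2 + ‖z‖ ^ 2) with hs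
  have hs0 : 0 < s := sqrt_pos' hR0 z
  have hRs : R ≤ s := Real.le_sqrt_of_sq_le (by nlinarith [norm_nonneg z])
  have e1 : PhR R z - z = (R / s - 1) • z := by
    rw [PhR, ← hs, sub_smul, one_smul]
  rw [e1, norm_smul]
  apply mul_le_mul_of_nonneg_right _ (norm_nonneg _)
  have e2 : R / s - 1 = -((s - R) / s) := by field_simp; ring
  rw [e2, norm_neg, Real.norm_of_nonneg (div_nonneg (by linarith) hs0.le), mul_one_div,
    div_le_div_iff₀ hs0 hR0]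
  have e3 : s ^ 2 = R ^ 2 + ‖z‖ ^ 2 := Real.sq_sqrt (by positivity)
  have e4 : (s - R) * (s + R) = ‖z‖ ^ 2 := by nlinarith
  calc (s - R) * R ≤ (s - R) * (s + R) :=
        mul_le_mul_of_nonneg_left (by linarith) (by linarith)
    _ = ‖z‖ ^ 2 * 1 := by rw [e4, mul_one]
    _ ≤ ‖z‖ ^ 2 * s := by
        apply mul_le_mul_of_nonneg_left _ (by positivity)
        linarith

/-- the cancellation of the transport term -/
theorem cancel4 {w : V3} (hd : IsDivFree w) (hS : ∀ k, SqI k w w) {d : Fin 3 → V3}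
    (h : ∀ k, IsWeakDeriv k w (d k)) : ∑ k, ⟪d k, tens k w w⟫_ℝ = 0 := by
  have key : ∀ R : ℝ, 0 < R → ∑ k, ∫ x, (w x k) * ⟪PhR R (w x), d k x⟫_ℝ = 0 := by
    intro R hR
    have h1 := divfree_ext hd (Q := (lip_e0 (lip_FR hR)).compLp (by simp [FR, Real.sqrt_sq hR.le]) w)
      (DQ := fun k => (memLp_DQ (lip_PhR hR).continuous (fun z => (norm_PhR_le hR z).2) w
        (d k)).toLp)
      (fun k => chain (hasFDerivAt_FR hR) (lip_FR hR) (by simp [FR, Real.sqrt_sq hR.le])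
        (lip_PhR hR) (by simp [PhR]) (fun z => (norm_PhR_le hR z).2) d h rfl) 0
    rw [← h1]
    refine Finset.sum_congr rfl fun k _ => ?_
    rw [L2.inner_def]
    apply integral_congr_ae
    filter_upwards [(memLp_DQ (lip_PhR hR).continuous (fun z => (norm_PhR_le hR z).2) w
        (d k)).coeFn_toLp, (MM k 0).coeFn_compLp w] with x h2 h3
    rw [h2, h3, inner_MM]
    simp [ee]
    ring
  have lim : ∀ k, Tendsto (fun n : ℕ => ∫ x, (w x k) * ⟪PhR ((n:ℝ) + 1) (w x), d k x⟫_ℝ) atTop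
      (𝓝 (∫ x, (w x k) * ⟪w x, d k x⟫_ℝ)) := by
    intro k
    have hint : Integrable (fun x => ‖(tens k w w : E3 → E3) x‖ * ‖d k x‖)
        (volume : Measure E3) :=
      (Lp.memLp (tens k w w)).norm.integrable_mul (Lp.memLp (d k)).norm
    refine tendsto_integral_of_dominated_convergence
      (fun x => ‖(tens k w w : E3 → E3) x‖ * ‖d k x‖) (fun n => ?_) hint (fun n => ?_) ?_
    · have m1 : AEStronglyMeasurable (fun x => PhR ((n:ℝ) + 1) (w x)) (volume : Measure E3) :=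
        (lip_PhR (by positivity)).continuous.comp_aestronglyMeasurable (Lp.aestronglyMeasurable w)
      have m2 : AEStronglyMeasurable (fun x => (w x) k) (volume : Measure E3) :=
        (EuclideanSpace.proj (𝕜 := ℝ) k).continuous.comp_aestronglyMeasurable
          (Lp.aestronglyMeasurable w)
      exact m2.mul (m1.inner (Lp.aestronglyMeasurable (d k)))
    · filter_upwards [coe_tens (hS k)] with x hx
      rw [hx, norm_mul, norm_smul, mul_assoc]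
      apply mul_le_mul_of_nonneg_left _ (norm_nonneg _)
      exact (norm_inner_le_norm _ _).trans
        (mul_le_mul_of_nonneg_right (norm_PhR_le (by positivity) (w x)).1 (norm_nonneg _))
    · refine Eventually.of_forall fun x => ?_
      exact ((tendsto_PhR (w x)).inner tendsto_const_nhds).const_mul _
  have lim2 := tendsto_finsetSum (Finset.univ : Finset (Fin 3)) fun k _ => lim k
  have h0 : ∀ n : ℕ, ∑ k, ∫ x, (w x k) * ⟪PhR ((n:ℝ) + 1) (w x), d k x⟫_ℝ = 0 :=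
    fun n => key _ (by positivity)
  simp only [h0] at lim2
  have h1 := tendsto_nhds_unique lim2 tendsto_const_nhds
  rw [← h1]
  refine Finset.sum_congr rfl fun k _ => ?_
  rw [L2.inner_def]
  apply integral_congr_ae
  filter_upwards [coe_tens (hS k)] with x hx
  rw [hx, inner_smul_right, real_inner_comm]

end Pool.Agent.TB
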