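import Pool.Agent.TB.Tens

/-!
# Functions of a field with square integrable gradient
-/

set_option autoImplicit false

namespace Pool.Agent.TB

open MeasureTheory Set Filter Topology Pool.Agent.TO
open scoped SchwartzMap InnerProductSpace LineDeriv Laplacian ENNReal NNReal
open scoped Real

/-- the map `x ↦ x_k e_j` -/
noncomputable def MM (k j : Fin 3) : E3 →L[ℝ] E3 :=
  (EuclideanSpace.proj (𝕜 := ℝ) k).smulRight (ee j)

theorem MM_apply (k j : Fin 3) (x : E3) : MM k j x = x k • ee j := rfl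

theorem inner_MM (k j : Fin 3) (x y : E3) : ⟪x, MM k j y⟫_ℝ = x j * y k := by
  rw [MM_apply, inner_smul_right, inner_ee]
  ring

/-- divergence-free fields, tested with fields of finite energy and dissipation -/
theorem divfree_ext {f Q : V3} (hf : IsDivFree f) {DQ : Fin 3 → V3}
    (hQ : ∀ k, IsWeakDeriv k Q (DQ k)) (j : Fin 3) :
    ∑ k, ⟪DQ k, (MM k j).compLp f⟫_ℝ = 0 := by
  choose ψ h1 h2 using fun n : ℕ => exists_approx_real Q DQ hQ (ε := 1 / ((n:ℝ) + 1))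
    (by positivity)
  have hlim : Tendsto (fun n : ℕ => 1 / ((n:ℝ) + 1)) atTop (𝓝 0) :=
    tendsto_one_div_add_atTop_nhds_zero_nat
  have h4 : ∀ k, Tendsto (fun n => (∂_{ee k} (ψ n)).toLp 2 (volume : Measure E3)) atTop
      (𝓝 (DQ k)) := by
    intro k
    rw [tendsto_iff_norm_sub_tendsto_zero]
    exact squeeze_zero (fun n => norm_nonneg _) (fun n => (h2 n k).le) hlim
  have h6 : Tendsto (fun n => ∑ k, ⟪(∂_{ee k} (ψ n)).toLp 2 (volume : Measure E3),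
      (MM k j).compLp f⟫_ℝ) atTop (𝓝 (∑ k, ⟪DQ k, (MM k j).compLp f⟫_ℝ)) :=
    tendsto_finsetSum _ fun k _ => (h4 k).inner tendsto_const_nhds
  have h7 : ∀ n, ∑ k, ⟪(∂_{ee k} (ψ n)).toLp 2 (volume : Measure E3),
      (MM k j).compLp f⟫_ℝ = 0 := by
    intro n
    have g1 := hf ((ψ n).postcompCLM (EuclideanSpace.proj j : E3 →L[ℝ] ℝ))
    simp only [L2.inner_def (𝕜 := ℝ)]
    rw [← integral_finsetSum _ (fun k _ => L2.integrable_inner (𝕜 := ℝ) _ _), ← g1]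
    apply integral_congr_ae
    filter_upwards [(∂_{ee 0} (ψ n)).coeFn_toLp 2 (volume : Measure E3),
      (∂_{ee 1} (ψ n)).coeFn_toLp 2 (volume : Measure E3),
      (∂_{ee 2} (ψ n)).coeFn_toLp 2 (volume : Measure E3),
      (MM 0 j).coeFn_compLp f, (MM 1 j).coeFn_compLp f, (MM 2 j).coeFn_compLp f]
      with x g3 g4 g5 g6 g7 g8
    have e1 : fderiv ℝ ((ψ n).postcompCLM (EuclideanSpace.proj j : E3 →L[ℝ] ℝ)) x (f x) =
        (fderiv ℝ (ψ n) x (f x)) j := by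
      change fderiv ℝ (fun y => (EuclideanSpace.proj j : E3 →L[ℝ] ℝ) (ψ n y)) x (f x) = _
      have h := ((EuclideanSpace.proj j : E3 →L[ℝ] ℝ).hasFDerivAt (x := ψ n x)).comp x
        ((ψ n).differentiableAt (x := x)).hasFDerivAt
      have h2 : fderiv ℝ (fun y => (EuclideanSpace.proj j : E3 →L[ℝ] ℝ) (ψ n y)) x =
        (EuclideanSpace.proj j : E3 →L[ℝ] ℝ) ∘L (fderiv ℝ (ψ n) x) := h.fderiv
      rw [h2]
      rfl
    rw [e1, fderiv_field_eq_sum, Fin.sum_univ_three, Fin.sum_univ_three, g3, g4, g5, g6, g7, g8,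
      inner_MM, inner_MM, inner_MM]
    simp only [PiLp.add_apply, PiLp.smul_apply, smul_eq_mul]
    ring
  simp only [h7] at h6
  exact (tendsto_nhds_unique h6 tendsto_const_nhds)

section chain

variable {F : E3 → ℝ} {Φ : E3 → E3} {c c' : ℝ≥0} {C : ℝ}

theorem lip_e0 (hF : LipschitzWith c F) : LipschitzWith c (fun z => F z • ee 0) := by
  apply LipschitzWith.of_dist_le_mul
  intro x y
  rw [dist_eq_norm, ← sub_smul, norm_smul]
  have : ‖ee 0‖ = 1 := by simp [ee]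
  rw [this, mul_one, ← dist_eq_norm]
  exact hF.dist_le_mul x y

/-- the field `φ_0 Φ(w)` -/
theorem memLp_Z (φ : 𝓢(E3, E3)) (hΦ : LipschitzWith c' Φ) (Φ0 : Φ 0 = 0) (w : V3) :
    MemLp (fun x => (φ x 0) • Φ (w x)) 2 (volume : Measure E3) := by
  have h1 : MemLp (Φ ∘ (w : E3 → E3)) 2 (volume : Measure E3) := hΦ.comp_memLp Φ0 (Lp.memLp w)
  obtain ⟨B, hB⟩ := φ.decay 0 0
  have hB' : ∀ x, ‖φ x‖ ≤ B := fun x => by simpa using hB.2 x
  refine h1.of_le_mul (c := B) ?_ ?_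
  · have h2 : Continuous (fun x => φ x 0) := by
      have := φ.continuous
      fun_prop
    exact h2.aestronglyMeasurable.smul h1.1
  · refine Eventually.of_forall fun x => ?_
    rw [norm_smul]
    exact mul_le_mul_of_nonneg_right ((PiLp.norm_apply_le (φ x) 0).trans (hB' x)) (norm_nonneg _)

theorem Z_sub_le (φ : 𝓢(E3, E3)) (hΦ : LipschitzWith c' Φ) (Φ0 : Φ 0 = 0) :
    ∃ B : ℝ, ∀ w w' : V3, ‖(memLp_Z φ hΦ Φ0 w).toLp - (memLp_Z φ hΦ Φ0 w').toLp‖ ≤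
      B * ‖w - w'‖ := by
  obtain ⟨B, hB⟩ := φ.decay 0 0
  have hB' : ∀ x, ‖φ x‖ ≤ B := fun x => by simpa using hB.2 x
  refine ⟨B * c', fun w w' => ?_⟩
  apply Lp.norm_le_mul_norm_of_ae_le_mul
  filter_upwards [(memLp_Z φ hΦ Φ0 w).coeFn_toLp, (memLp_Z φ hΦ Φ0 w').coeFn_toLp,
    Lp.coeFn_sub (memLp_Z φ hΦ Φ0 w).toLp (memLp_Z φ hΦ Φ0 w').toLp, Lp.coeFn_sub w w']
    with x h1 h2 h3 h4
  rw [h3, Pi.sub_apply, h1, h2, h4, Pi.sub_apply, ← smul_sub, norm_smul, mul_assoc]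
  apply mul_le_mul ((PiLp.norm_apply_le (φ x) 0).trans (hB' x)) _ (norm_nonneg _) hB.1.le
  rw [← dist_eq_norm, ← dist_eq_norm]
  exact hΦ.dist_le_mul _ _

/-- the derivative of `F(w)` -/
theorem memLp_DQ (hΦc : Continuous Φ) (hΦb : ∀ z, ‖Φ z‖ ≤ C) (w d : V3) :
    MemLp (fun x => ⟪Φ (w x), d x⟫_ℝ • ee 0) 2 (volume : Measure E3) := by
  refine (Lp.memLp d).of_le_mul (c := C) ?_ ?_
  · have h1 : AEStronglyMeasurable (fun x => Φ (w x)) (volume : Measure E3) :=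
      hΦc.comp_aestronglyMeasurable (Lp.aestronglyMeasurable w)
    exact (h1.inner (Lp.aestronglyMeasurable d)).smul_const _
  · refine Eventually.of_forall fun x => ?_
    rw [norm_smul]
    have : ‖ee 0‖ = 1 := by simp [ee]
    rw [this, mul_one]
    exact (norm_inner_le_norm _ _).trans (mul_le_mul_of_nonneg_right (hΦb _) (norm_nonneg _))

theorem line_F (hF : ∀ z, HasFDerivAt F (innerSL ℝ (Φ z)) z) (ψ : 𝓢(E3, E3)) (k : Fin 3) (x : E3) :
    HasLineDerivAt ℝ (fun x => F (ψ x)) ⟪Φ (ψ x), (∂_{ee k} ψ) x⟫_ℝ x (ee k) := by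
  have h1 := (hF (ψ x)).comp x ((ψ.differentiableAt (x := x)).hasFDerivAt)
  have h2 := h1.hasLineDerivAt (ee k)
  have e : ((innerSL ℝ (Φ (ψ x))).comp (fderiv ℝ ψ x)) (ee k) = ⟪Φ (ψ x), (∂_{ee k} ψ) x⟫_ℝ := by
    rw [SchwartzMap.lineDerivOp_apply_eq_fderiv]
    rfl
  rw [e] at h2
  exact h2

theorem line_phi (φ : 𝓢(E3, E3)) (k : Fin 3) (x : E3) :
    HasLineDerivAt ℝ (fun x => φ x 0) ((∂_{ee k} φ) x 0) x (ee k) := by
  have h := ((EuclideanSpace.proj (𝕜 := ℝ) (0 : Fin 3) : E3 →L[ℝ] ℝ).hasFDerivAt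
    (x := φ x)).comp x ((φ.differentiableAt (x := x)).hasFDerivAt)
  have h2 := h.hasLineDerivAt (ee k)
  have e : ((EuclideanSpace.proj (𝕜 := ℝ) (0 : Fin 3) : E3 →L[ℝ] ℝ).comp (fderiv ℝ φ x)) (ee k) =
      (∂_{ee k} φ) x 0 := by
    rw [SchwartzMap.lineDerivOp_apply_eq_fderiv]
    rfl
  rw [e] at h2
  exact h2

theorem memLp_comp0 (φ : 𝓢(E3, E3)) : MemLp (fun x => φ x 0) 2 (volume : Measure E3) := by
  have h1 : Continuous (fun x => φ x 0) := by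
    have := φ.continuous
    fun_prop
  refine (φ.memLp 2 volume).of_le h1.aestronglyMeasurable ?_
  exact Eventually.of_forall fun x => PiLp.norm_apply_le (φ x) 0

theorem memLp_DF (hΦ : LipschitzWith c' Φ) (Φ0 : Φ 0 = 0) (ψ : 𝓢(E3, E3)) (k : Fin 3) :
    MemLp (fun x => ⟪Φ (ψ x), (∂_{ee k} ψ) x⟫_ℝ) 2 (volume : Measure E3) := by
  have hΦψ : MemLp (fun x => Φ (ψ x)) 2 (volume : Measure E3) :=
    hΦ.comp_memLp Φ0 (ψ.memLp 2 volume)
  obtain ⟨B, hB⟩ := (∂_{ee k} ψ).decay 0 0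
  have hB' : ∀ x, ‖(∂_{ee k} ψ) x‖ ≤ B := fun x => by simpa using hB.2 x
  refine hΦψ.of_le_mul (c := B) (hΦψ.1.inner ((∂_{ee k} ψ).continuous.aestronglyMeasurable)) ?_
  refine Eventually.of_forall fun x => ?_
  rw [mul_comm]
  exact (norm_inner_le_norm _ _).trans (mul_le_mul_of_nonneg_left (hB' x) (norm_nonneg _))

theorem parts {f f' g g' : E3 → ℝ} {v : E3}
    (hf : MemLp f 2 volume) (hf' : MemLp f' 2 volume) (hg : MemLp g 2 volume)
    (hg' : MemLp g' 2 volume) (h1 : ∀ x, HasLineDerivAt ℝ f (f' x) x v)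
    (h2 : ∀ x, HasLineDerivAt ℝ g (g' x) x v) : ∫ x, f x * g' x = -∫ x, f' x * g x := by
  have i1 : Integrable (fun x => f' x * g x) volume := hf'.integrable_mul hg
  have i2 : Integrable (fun x => f x * g' x) volume := hf.integrable_mul hg'
  have i3 : Integrable (fun x => f x * g x) volume := hf.integrable_mul hg
  exact integral_bilinear_hasLineDerivAt_right_eq_neg_left_of_integrable
    (μ := (volume : Measure E3)) (B := ContinuousLinearMap.mul ℝ ℝ) i1 i2 i3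
    (fun x _ => h1 x) (fun x _ => h2 x)

/-- integration by parts for Schwartz fields -/
theorem parts_schwartz (hF : ∀ z, HasFDerivAt F (innerSL ℝ (Φ z)) z) (hFL : LipschitzWith c F)
    (F0 : F 0 = 0) (hΦ : LipschitzWith c' Φ) (Φ0 : Φ 0 = 0)
    (φ ψ : 𝓢(E3, E3)) (k : Fin 3) :
    ∫ x, ((∂_{ee k} φ) x 0) * F (ψ x) = -∫ x, (φ x 0) * ⟪Φ (ψ x), (∂_{ee k} ψ) x⟫_ℝ := by
  have hφ0 := memLp_comp0 φ
  have hφ1 := memLp_comp0 (∂_{ee k} φ)
  have hFψ : MemLp (fun x => F (ψ x)) 2 (volume : Measure E3) :=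
    hFL.comp_memLp F0 (ψ.memLp 2 volume)
  have hDF := memLp_DF hΦ Φ0 ψ k
  have key := parts hFψ hDF hφ0 hφ1 (fun x => line_F hF ψ k x) (fun x => line_phi φ k x)
  have e1 : ∫ x, ((∂_{ee k} φ) x 0) * F (ψ x) = ∫ x, F (ψ x) * ((∂_{ee k} φ) x 0) :=
    integral_congr_ae (Eventually.of_forall fun x => mul_comm _ _)
  have e2 : ∫ x, (φ x 0) * ⟪Φ (ψ x), (∂_{ee k} ψ) x⟫_ℝ =
      ∫ x, ⟪Φ (ψ x), (∂_{ee k} ψ) x⟫_ℝ * φ x 0 :=
    integral_congr_ae (Eventually.of_forall fun x => mul_comm _ _)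
  rw [e1, e2]
  exact key

/-- the chain rule -/
theorem chain (hF : ∀ z, HasFDerivAt F (innerSL ℝ (Φ z)) z) (hFL : LipschitzWith c F)
    (F0 : F 0 = 0) (hΦ : LipschitzWith c' Φ) (Φ0 : Φ 0 = 0) (hΦb : ∀ z, ‖Φ z‖ ≤ C)
    {k : Fin 3} {w d : V3} (D : Fin 3 → V3) (h : ∀ k, IsWeakDeriv k w (D k)) (hd : D k = d) :
    IsWeakDeriv k ((lip_e0 hFL).compLp (by simp [F0]) w)
      ((memLp_DQ hΦ.continuous hΦb w d).toLp) := by
  intro φ
  subst hd
  have e1 : ∀ f : V3, ∫ x, ⟪(∂_{ee k} φ) x, (((lip_e0 hFL).compLp (by simp [F0]) f : V3) :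
      E3 → E3) x⟫_ℝ = ∫ x, ((∂_{ee k} φ) x 0) * F (f x) := by
    intro f
    apply integral_congr_ae
    filter_upwards [(lip_e0 hFL).coeFn_compLp (by simp [F0]) f] with x hx
    rw [hx, Function.comp_apply, inner_smul_right, inner_ee]
    ring
  have e2 : ∫ x, ⟪φ x, (((memLp_DQ hΦ.continuous hΦb w (D k)).toLp : V3) : E3 → E3) x⟫_ℝ =
      ⟪(memLp_Z φ hΦ Φ0 w).toLp, D k⟫_ℝ := by
    rw [L2.inner_def]
    apply integral_congr_ae
    filter_upwards [(memLp_DQ hΦ.continuous hΦb w (D k)).coeFn_toLp,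
      (memLp_Z φ hΦ Φ0 w).coeFn_toLp] with x hx hx'
    rw [hx, hx', inner_smul_right, inner_ee, inner_smul_left]
    simp only [conj_trivial]
    ring
  choose ψ h1 h2 using fun n : ℕ => exists_approx_real w D h (ε := 1 / ((n:ℝ) + 1))
    (by positivity)
  have hlim : Tendsto (fun n : ℕ => 1 / ((n:ℝ) + 1)) atTop (𝓝 0) :=
    tendsto_one_div_add_atTop_nhds_zero_nat
  have h3 : Tendsto (fun n => (ψ n).toLp 2 (volume : Measure E3)) atTop (𝓝 w) := by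
    rw [tendsto_iff_norm_sub_tendsto_zero]
    exact squeeze_zero (fun n => norm_nonneg _) (fun n => (h1 n).le) hlim
  have h4 : Tendsto (fun n => (∂_{ee k} (ψ n)).toLp 2 (volume : Measure E3)) atTop
      (𝓝 (D k)) := by
    rw [tendsto_iff_norm_sub_tendsto_zero]
    exact squeeze_zero (fun n => norm_nonneg _) (fun n => (h2 n k).le) hlim
  have h5 : Tendsto (fun n => (memLp_Z φ hΦ Φ0 ((ψ n).toLp 2 (volume : Measure E3))).toLp) atTop
      (𝓝 (memLp_Z φ hΦ Φ0 w).toLp) := by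
    obtain ⟨B, hB⟩ := Z_sub_le φ hΦ Φ0
    rw [tendsto_iff_norm_sub_tendsto_zero]
    have h6 := (tendsto_iff_norm_sub_tendsto_zero.1 h3).const_mul B
    rw [mul_zero] at h6
    exact squeeze_zero (fun n => norm_nonneg _) (fun n => hB _ _) h6
  have l1 : Tendsto (fun n => ⟪(memLp_Z φ hΦ Φ0 ((ψ n).toLp 2 (volume : Measure E3))).toLp,
      (∂_{ee k} (ψ n)).toLp 2 (volume : Measure E3)⟫_ℝ) atTop
      (𝓝 ⟪(memLp_Z φ hΦ Φ0 w).toLp, D k⟫_ℝ) := h5.inner h4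
  have l2 : Tendsto (fun n => ⟪(∂_{ee k} φ).toLp 2 (volume : Measure E3),
      (lip_e0 hFL).compLp (by simp [F0]) ((ψ n).toLp 2 (volume : Measure E3))⟫_ℝ) atTop
      (𝓝 ⟪(∂_{ee k} φ).toLp 2 (volume : Measure E3), (lip_e0 hFL).compLp (by simp [F0]) w⟫_ℝ) :=
    tendsto_const_nhds.inner
      ((((lip_e0 hFL).continuous_compLp (by simp [F0])).tendsto w).comp h3)
  have l3 : ∀ n, ⟪(∂_{ee k} φ).toLp 2 (volume : Measure E3),
      (lip_e0 hFL).compLp (by simp [F0]) ((ψ n).toLp 2 (volume : Measure E3))⟫_ℝ =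
      -⟪(memLp_Z φ hΦ Φ0 ((ψ n).toLp 2 (volume : Measure E3))).toLp,
      (∂_{ee k} (ψ n)).toLp 2 (volume : Measure E3)⟫_ℝ := by
    intro n
    have g1 := parts_schwartz hF hFL F0 hΦ Φ0 φ (ψ n) k
    have g2 : ⟪(∂_{ee k} φ).toLp 2 (volume : Measure E3),
        (lip_e0 hFL).compLp (by simp [F0]) ((ψ n).toLp 2 (volume : Measure E3))⟫_ℝ =
        ∫ x, ((∂_{ee k} φ) x 0) * F (ψ n x) := by
      rw [L2.inner_def]
      apply integral_congr_ae
      filter_upwards [(lip_e0 hFL).coeFn_compLp (by simp [F0])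
        ((ψ n).toLp 2 (volume : Measure E3)), (ψ n).coeFn_toLp 2 (volume : Measure E3),
        (∂_{ee k} φ).coeFn_toLp 2 (volume : Measure E3)] with x hx hx' hx''
      rw [hx, hx'', Function.comp_apply, hx', inner_smul_right, inner_ee]
      ring
    have g3 : ⟪(memLp_Z φ hΦ Φ0 ((ψ n).toLp 2 (volume : Measure E3))).toLp,
        (∂_{ee k} (ψ n)).toLp 2 (volume : Measure E3)⟫_ℝ =
        ∫ x, (φ x 0) * ⟪Φ (ψ n x), (∂_{ee k} (ψ n)) x⟫_ℝ := by
      rw [L2.inner_def]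
      apply integral_congr_ae
      filter_upwards [(memLp_Z φ hΦ Φ0 ((ψ n).toLp 2 (volume : Measure E3))).coeFn_toLp,
        (ψ n).coeFn_toLp 2 (volume : Measure E3),
        (∂_{ee k} (ψ n)).coeFn_toLp 2 (volume : Measure E3)] with x hx hx' hx''
      rw [hx, hx'', hx', inner_smul_left]
      simp only [conj_trivial]
    rw [g2, g3, g1]
  have l4 : ⟪(∂_{ee k} φ).toLp 2 (volume : Measure E3), (lip_e0 hFL).compLp (by simp [F0]) w⟫_ℝ =
      -⟪(memLp_Z φ hΦ Φ0 w).toLp, D k⟫_ℝ := by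
    refine tendsto_nhds_unique l2 ?_
    simp only [l3]
    exact l1.neg
  rw [e2, integral_inner_eq]
  exact l4

end chain

end Pool.Agent.TB
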