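import Pool.Agent.TB.Main

/-!
# The form of Q1
-/

set_option autoImplicit false

namespace Pool.Agent.TB

open MeasureTheory Set Filter Topology Pool.Agent.TO
open scoped ENNReal NNReal Real InnerProductSpace

variable {T : ℝ} {u₀ : V3} {u v : ℝ → V3}

theorem HeatBdd.mono {N : ℝ} (h : HeatBdd T v N) {T' : ℝ} (hT : T' ≤ T) : HeatBdd T' v N :=
  ae_restrict_of_ae_restrict_of_subset (Ioo_subset_Ioo_right hT) h

theorem HeatBdd.mono_fun {N N' : ℝ} (h : HeatBdd T v N) (hN : N ≤ N') : HeatBdd T v N' := by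
  unfold HeatBdd at h ⊢
  filter_upwards [h] with t h1 σ hσ x
  refine (h1 σ hσ x).trans ?_
  gcongr

/-- The form of Q1: a Leray solution with `√t ‖u(t)‖_∞ → 0` (such as the mild solution) coincides
near the initial time with every Leray solution `v` such that `√σ |e^{σ Δ} v(t)|` is bounded for
`σ ≤ t`. -/
theorem besov_local (hT : 0 < T) (hu : IsLeray T u₀ u) (hv : IsLeray T u₀ v)
    (hua : ∀ ε > 0, ∃ δ > 0, BddBy δ u (fun t => ε / √t))
    (hvb : ∃ N, ∃ δ > 0, HeatBdd δ v N) :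
    ∃ T' > 0, ∀ t ∈ Ico 0 T', u t = v t := by
  obtain ⟨N, δ, hδ, hN⟩ := hvb
  have hb0 : 0 ≤ |N| := abs_nonneg N
  set ε : ℝ := 1e-6 / (|N| + 1) with hε
  have hε0 : 0 < ε := by positivity
  obtain ⟨δ', hδ', hα⟩ := hua ε hε0
  refine ⟨min T (min δ δ'), lt_min hT (lt_min hδ hδ'), ?_⟩
  apply besov (ε := ε) (N := |N|) (hu.mono (min_le_left _ _)) (hv.mono (min_le_left _ _)) hε0.le
    hb0 _ (hα.mono ((min_le_right _ _).trans (min_le_right _ _)))
    ((hN.mono ((min_le_right _ _).trans (min_le_left _ _))).mono_fun (le_abs_self N))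
  rw [hε, div_mul_cancel₀ _ (by positivity)]

end Pool.Agent.TB
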