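import Pool.Agent.TO.Cancel

/-!
# The nonlinear term, square integrable products
-/

set_option autoImplicit false

namespace Pool.Agent.TB

open MeasureTheory Set Filter Topology Pool.Agent.TO
open scoped SchwartzMap InnerProductSpace LineDeriv Laplacian ENNReal FourierTransform ComplexConjugate
open scoped Real

/-- the product `f_k g` is square integrable -/
def SqI (k : Fin 3) (f g : V3) : Prop := MemLp (fun x => (f x) k • g x) 2 (volume : Measure E3)

/-- the products which form the nonlinear term are square integrable -/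
def TM (u v : V3) : Prop := ∀ k, SqI k v (v - u) ∧ SqI k (v - u) u

theorem coe_tens {k : Fin 3} {f g : V3} (h : SqI k f g) :
    (tens k f g : E3 → E3) =ᵐ[volume] fun x => (f x) k • g x := by
  have h' : MemLp (fun x => (f x) k • g x) 2 (volume : Measure E3) := h
  rw [tens, dif_pos h']
  exact h'.coeFn_toLp

theorem coe_NN' (k : Fin 3) {u v : V3} (h : TM u v) :
    (NN k u v : E3 → E3) =ᵐ[volume]
      fun x => (v x) k • (v x - u x) + (v x - u x) k • u x := by
  filter_upwards [Lp.coeFn_add (tens k v (v - u)) (tens k (v - u) u),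
    coe_tens (h k).1, coe_tens (h k).2, Lp.coeFn_sub v u] with x h1 h2 h3 h4
  rw [NN, h1, Pi.add_apply, h2, h3, h4, Pi.sub_apply]

/-- the difference of the nonlinear terms -/
theorem quad_sub' (φ : 𝓢(E3, E3)) {u v : V3} (h : TM u v) :
    ⟪AA φ v, v⟫_ℝ - ⟪AA φ u, u⟫_ℝ =
      ∑ k, ⟪(∂_{ee k} φ).toLp 2 (volume : Measure E3), NN k u v⟫_ℝ := by
  rw [L2.inner_def, L2.inner_def,
    ← integral_sub (L2.integrable_inner (𝕜 := ℝ) _ _) (L2.integrable_inner (𝕜 := ℝ) _ _)]
  simp only [L2.inner_def (𝕜 := ℝ) ((∂_{ee _} φ).toLp 2 (volume : Measure E3))]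
  rw [← integral_finsetSum _ (fun k _ => L2.integrable_inner (𝕜 := ℝ) _ _)]
  apply integral_congr_ae
  filter_upwards [coe_AA φ v, coe_AA φ u, coe_NN' 0 h, coe_NN' 1 h, coe_NN' 2 h,
    (∂_{ee 0} φ).coeFn_toLp 2 (volume : Measure E3), (∂_{ee 1} φ).coeFn_toLp 2 (volume : Measure E3),
    (∂_{ee 2} φ).coeFn_toLp 2 (volume : Measure E3)] with x h1 h2 h3 h4 h5 h6 h7 h8
  rw [h1, h2, Fin.sum_univ_three, h3, h4, h5, h6, h7, h8, fderiv_field_eq_sum,
    fderiv_field_eq_sum, Fin.sum_univ_three, Fin.sum_univ_three]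
  simp only [inner_add_left, inner_add_right, inner_sub_right, inner_smul_left, inner_smul_right,
    PiLp.sub_apply, conj_trivial]
  ring

theorem norm_NN_le' {f g : V3} {C : ℝ} (hC : 0 ≤ C) (h : ∑ k, ‖NN k f g‖ ^ 2 ≤ C ^ 2)
    (k : Fin 3) : ‖NN k f g‖ ≤ C := by
  have h2 : ‖NN k f g‖ ^ 2 ≤ ∑ j, ‖NN j f g‖ ^ 2 :=
    Finset.single_le_sum (f := fun j => ‖NN j f g‖ ^ 2) (fun j _ => by positivity)
      (Finset.mem_univ k)
  exact le_of_sq_le_sq (h2.trans h) hC

end Pool.Agent.TB
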