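import Pool.Agent.TO.WLim
import Pool.Agent.TB.Tens

/-!
# The equation for the difference of two Leray solutions, square integrable nonlinear term
-/

set_option autoImplicit false

namespace Pool.Agent.TB

open MeasureTheory Set Filter Topology Pool.Agent.TO
open scoped SchwartzMap InnerProductSpace LineDeriv Laplacian ENNReal FourierTransform ComplexConjugate
open scoped Real

/-- two Leray solutions with the same initial value; the nonlinear term of the equation of the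
difference is square integrable in space, with norm at most `ν` -/
structure PairN (T : ℝ) (u₀ : V3) (u v : ℝ → V3) (ν : ℝ → ℝ) : Prop where
  hu : IsLeray T u₀ u
  hv : IsLeray T u₀ v
  hN : ∀ᵐ τ ∂(volume.restrict (Ioo 0 T)), TM (u τ) (v τ) ∧
    ∑ k, ‖NN k (u τ) (v τ)‖ ^ 2 ≤ ν τ ^ 2
  hν0 : ∀ t, 0 ≤ ν t
  hν1 : ∀ t ∈ Ioo 0 T, IntervalIntegrable ν volume 0 t
  hν2 : ∀ s t, 0 < s → s ≤ t → t < T → IntervalIntegrable (fun τ => ν τ ^ 2) volume s t

variable {T : ℝ} {u₀ : V3} {u v : ℝ → V3} {ν : ℝ → ℝ}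

theorem rhsD_eq' (φ : 𝓢(E3, E3)) {f g : V3} (h : TM f g) :
    rhsD φ f g = rhs φ g - rhs φ f := by
  rw [rhsD, rhs, rhs, ← quad_sub' φ h, inner_sub_right]
  ring

theorem PairN.ae_bd (P : PairN T u₀ u v ν) {s t : ℝ} (hs : 0 ≤ s) (ht : t ≤ T) :
    ∀ᵐ τ ∂(volume.restrict (Ioo s t)), TM (u τ) (v τ) ∧
      ∑ k, ‖NN k (u τ) (v τ)‖ ^ 2 ≤ ν τ ^ 2 :=
  ae_restrict_of_ae_restrict_of_subset (Ioo_subset_Ioo hs ht) P.hN

theorem PairN.integrable_rhsD (P : PairN T u₀ u v ν) (φ : 𝓢(E3, E3)) {s t : ℝ} (hs : 0 ≤ s)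
    (hst : s ≤ t) (ht : t < T) :
    IntervalIntegrable (fun τ => rhsD φ (u τ) (v τ)) volume s t := by
  have h1 := (P.hv.integrable_rhs φ hs hst ht).sub (P.hu.integrable_rhs φ hs hst ht)
  rw [intervalIntegrable_iff_integrableOn_Ioo_of_le hst] at h1 ⊢
  refine h1.congr ?_
  filter_upwards [P.ae_bd hs ht.le] with τ hτ
  rw [rhsD_eq' φ hτ.1]

/-- the weak equation for the difference, real test fields -/
theorem PairN.weq (P : PairN T u₀ u v ν) {φ : 𝓢(E3, E3)} (hφ : TestDivFree φ) {s t : ℝ}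
    (hs : 0 ≤ s) (hst : s ≤ t) (ht : t < T) :
    ⟪φ.toLp 2 (volume : Measure E3), v t - u t⟫_ℝ -
      ⟪φ.toLp 2 (volume : Measure E3), v s - u s⟫_ℝ = ∫ τ in s..t, rhsD φ (u τ) (v τ) := by
  have h1 : ∫ τ in s..t, rhsD φ (u τ) (v τ) = ∫ τ in s..t, (rhs φ (v τ) - rhs φ (u τ)) := by
    apply integral_congr_Ioo hst
    filter_upwards [P.ae_bd hs ht.le] with τ hτ
    rw [rhsD_eq' φ hτ.1]
  rw [h1, intervalIntegral.integral_sub (P.hv.integrable_rhs φ hs hst ht)
    (P.hu.integrable_rhs φ hs hst ht), ← P.hv.eqn'' hs hst ht hφ, ← P.hu.eqn'' hs hst ht hφ,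
    inner_sub_right, inner_sub_right]
  ring

theorem PairN.integrable_rhsC (P : PairN T u₀ u v ν) (φ : 𝓢(E3, F3)) {s t : ℝ} (hs : 0 ≤ s)
    (hst : s ≤ t) (ht : t < T) :
    IntervalIntegrable (fun τ => rhsC φ (u τ) (v τ)) volume s t := by
  simp only [rhsC_eq]
  have h1 := P.integrable_rhsD (reS φ) hs hst ht
  have h2 := P.integrable_rhsD (imS φ) hs hst ht
  rw [intervalIntegrable_iff_integrableOn_Ioo_of_le hst] at h1 h2 ⊢
  exact h1.ofReal.sub (h2.ofReal.const_mul Complex.I)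

/-- the weak equation for the difference, complex test fields -/
theorem PairN.weqC (P : PairN T u₀ u v ν) {φ : 𝓢(E3, F3)}
    (hφ : ∀ x, ∑ k, (∂_{ee k} φ) x k = 0) {s t : ℝ}
    (hs : 0 ≤ s) (hst : s ≤ t) (ht : t < T) :
    ⟪φ.toLp 2 (volume : Measure E3), cplx (v t - u t)⟫_ℂ -
      ⟪φ.toLp 2 (volume : Measure E3), cplx (v s - u s)⟫_ℂ = ∫ τ in s..t, rhsC φ (u τ) (v τ) := by
  have h1 := P.weq (test_reS hφ) hs hst ht
  have h2 := P.weq (test_imS hφ) hs hst ht
  have i1 := P.integrable_rhsD (reS φ) hs hst ht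
  have i2 := P.integrable_rhsD (imS φ) hs hst ht
  simp only [rhsC_eq]
  rw [inner_toLp_cplx, inner_toLp_cplx, intervalIntegral.integral_sub,
    intervalIntegral.integral_const_mul, intervalIntegral.integral_ofReal,
    intervalIntegral.integral_ofReal, ← h1, ← h2]
  · push_cast
    ring
  · rw [intervalIntegrable_iff_integrableOn_Ioo_of_le hst] at i1 ⊢
    exact i1.ofReal
  · rw [intervalIntegrable_iff_integrableOn_Ioo_of_le hst] at i2 ⊢
    exact i2.ofReal.const_mul Complex.I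

theorem PairN.norm_sub_le (P : PairN T u₀ u v ν) {t : ℝ} (ht : t ∈ Ico 0 T) :
    ‖v t - u t‖ ≤ 2 * ‖u₀‖ := by
  have h1 := P.hu.norm_le ht
  have h2 := P.hv.norm_le ht
  have h3 := _root_.norm_sub_le (v t) (u t)
  linarith

theorem PairN.integrable_nu (P : PairN T u₀ u v ν) {s t : ℝ} (hs : 0 ≤ s)
    (hst : s ≤ t) (ht : t < T) : IntegrableOn ν (Ioo s t) volume := by
  rcases hst.eq_or_lt with rfl | h
  · simp
  have h1 := P.hν1 t ⟨hs.trans_lt h, ht⟩
  rw [intervalIntegrable_iff_integrableOn_Ioo_of_le (hs.trans hst)] at h1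
  exact h1.mono_set (Ioo_subset_Ioo_left hs)

theorem PairN.weqR (P : PairN T u₀ u v ν) {h : H3} (hd : DivF h) (R : ℝ) {s t : ℝ} (hs : 0 ≤ s)
    (hst : s ≤ t) (ht : t < T) :
    IntervalIntegrable (fun τ => gam R h (u τ) (v τ)) volume s t ∧
    ⟪PP R h, cplx (v t - u t)⟫_ℂ - ⟪PP R h, cplx (v s - u s)⟫_ℂ =
      ∫ τ in s..t, gam R h (u τ) (v τ) := by
  choose φ hφ h1 h2 h3 using fun n : ℕ => exists_approx_div hd R (ε := 1 / ((n:ℝ) + 1))
    (by positivity)
  have hlim : Tendsto (fun n : ℕ => 1 / ((n:ℝ) + 1)) atTop (𝓝 0) :=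
    tendsto_one_div_add_atTop_nhds_zero_nat
  have hle1 : ∀ n : ℕ, 1 / ((n:ℝ) + 1) ≤ 1 := fun n => by
    rw [div_le_one (by positivity)]
    have : (0:ℝ) ≤ n := Nat.cast_nonneg n
    linarith
  have t1 : Tendsto (fun n => (φ n).toLp 2 (volume : Measure E3)) atTop (𝓝 (PP R h)) := by
    rw [tendsto_iff_norm_sub_tendsto_zero]
    exact squeeze_zero (fun n => norm_nonneg _) (fun n => (h1 n).le) hlim
  have t2 : ∀ k, Tendsto (fun n => (∂_{ee k} (φ n)).toLp 2 (volume : Measure E3)) atTop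
      (𝓝 (DD k R h)) := by
    intro k
    rw [tendsto_iff_norm_sub_tendsto_zero]
    exact squeeze_zero (fun n => norm_nonneg _) (fun n => (h2 n k).le) hlim
  have t3 : Tendsto (fun n => (Δ (φ n)).toLp 2 (volume : Measure E3)) atTop
      (𝓝 (∑ k, DD k R (DD k R h))) := by
    rw [tendsto_iff_norm_sub_tendsto_zero]
    exact squeeze_zero (fun n => norm_nonneg _) (fun n => (h3 n).le) hlim
  set L : ℝ := ‖∑ k, DD k R (DD k R h)‖ + 1 with hL
  set C : Fin 3 → ℝ := fun k => ‖DD k R h‖ + 1 with hC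
  set M : ℝ → ℝ := fun τ => L * (2 * ‖u₀‖) + ∑ k, C k * ν τ with hM
  have b2 : ∀ n k, ‖(∂_{ee k} (φ n)).toLp 2 (volume : Measure E3)‖ ≤ C k := by
    intro n k
    have g1 := h2 n k
    have g2 := norm_le_norm_add_norm_sub' ((∂_{ee k} (φ n)).toLp 2 (volume : Measure E3))
      (DD k R h)
    have g3 := hle1 n
    simp only [hC]
    linarith
  have b3 : ∀ n, ‖(Δ (φ n)).toLp 2 (volume : Measure E3)‖ ≤ L := by
    intro n
    have g1 := h3 n
    have g2 := norm_le_norm_add_norm_sub' ((Δ (φ n)).toLp 2 (volume : Measure E3))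
      (∑ k, DD k R (DD k R h))
    have g3 := hle1 n
    simp only [hL]
    linarith
  have hMi : IntegrableOn M (Ioo s t) volume := by
    refine Integrable.add (integrable_const _) ?_
    refine integrable_finsetSum _ fun k _ => ?_
    exact (P.integrable_nu hs hst ht).const_mul _
  have hNN : ∀ᵐ τ ∂(volume.restrict (Ioo s t)), ∀ k, ‖cplx (NN k (u τ) (v τ))‖ ≤ ν τ := by
    filter_upwards [P.ae_bd hs ht.le] with τ g1 k
    rw [norm_cplx]
    exact norm_NN_le' (P.hν0 τ) g1.2 k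
  have hw : ∀ᵐ τ ∂(volume.restrict (Ioo s t)), ‖cplx (v τ - u τ)‖ ≤ 2 * ‖u₀‖ := by
    filter_upwards [ae_restrict_mem measurableSet_Ioo] with τ g2
    rw [norm_cplx]
    exact P.norm_sub_le (t := τ) ⟨hs.trans g2.1.le, g2.2.trans ht⟩
  have hFM : ∀ n, ∀ᵐ τ ∂(volume.restrict (Ioo s t)), ‖rhsC (φ n) (u τ) (v τ)‖ ≤ M τ := by
    intro n
    filter_upwards [hNN, hw] with τ g1 g2
    unfold rhsC
    refine (norm_add_le _ _).trans ?_
    simp only [hM]
    gcongr
    · exact (norm_inner_le_norm _ _).trans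
        (mul_le_mul (b3 n) g2 (norm_nonneg _) ((norm_nonneg _).trans (b3 n)))
    · refine (norm_sum_le _ _).trans ?_
      refine Finset.sum_le_sum fun k _ => ?_
      exact (norm_inner_le_norm _ _).trans
        (mul_le_mul (b2 n k) (g1 k) (norm_nonneg _) ((norm_nonneg _).trans (b2 n k)))
  have hFlim : ∀ τ, Tendsto (fun n => rhsC (φ n) (u τ) (v τ)) atTop
      (𝓝 (gam R h (u τ) (v τ))) := by
    intro τ
    unfold rhsC gam
    refine (t3.inner tendsto_const_nhds).add ?_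
    exact tendsto_finsetSum _ fun k _ => (t2 k).inner tendsto_const_nhds
  have hFi : ∀ n, IntegrableOn (fun τ => rhsC (φ n) (u τ) (v τ)) (Ioo s t) volume := by
    intro n
    have g := P.integrable_rhsC (φ n) hs hst ht
    rwa [intervalIntegrable_iff_integrableOn_Ioo_of_le hst] at g
  have hgi : IntegrableOn (fun τ => gam R h (u τ) (v τ)) (Ioo s t) volume := by
    refine Integrable.mono' hMi ?_ ?_
    · exact aestronglyMeasurable_of_tendsto_ae atTop (fun n => (hFi n).1)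
        (Eventually.of_forall hFlim)
    · have g1 : ∀ᵐ τ ∂(volume.restrict (Ioo s t)), ∀ n, ‖rhsC (φ n) (u τ) (v τ)‖ ≤ M τ :=
        ae_all_iff.2 hFM
      filter_upwards [g1] with τ g2
      exact le_of_tendsto (hFlim τ).norm (Eventually.of_forall g2)
  refine ⟨by rwa [intervalIntegrable_iff_integrableOn_Ioo_of_le hst], ?_⟩
  have lim1 : Tendsto (fun n => ∫ τ in Ioo s t, rhsC (φ n) (u τ) (v τ)) atTop
      (𝓝 (∫ τ in Ioo s t, gam R h (u τ) (v τ))) :=
    tendsto_integral_of_dominated_convergence M (fun n => (hFi n).1) hMi hFM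
      (Eventually.of_forall hFlim)
  have lim2 : Tendsto (fun n => ⟪(φ n).toLp 2 (volume : Measure E3), cplx (v t - u t)⟫_ℂ -
      ⟪(φ n).toLp 2 (volume : Measure E3), cplx (v s - u s)⟫_ℂ) atTop
      (𝓝 (⟪PP R h, cplx (v t - u t)⟫_ℂ - ⟪PP R h, cplx (v s - u s)⟫_ℂ)) :=
    (t1.inner tendsto_const_nhds).sub (t1.inner tendsto_const_nhds)
  have heq : ∀ n, ⟪(φ n).toLp 2 (volume : Measure E3), cplx (v t - u t)⟫_ℂ -
      ⟪(φ n).toLp 2 (volume : Measure E3), cplx (v s - u s)⟫_ℂ =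
      ∫ τ in Ioo s t, rhsC (φ n) (u τ) (v τ) := by
    intro n
    rw [P.weqC (hφ n) hs hst ht, intervalIntegral.integral_of_le hst, integral_Ioc_eq_integral_Ioo]
  rw [intervalIntegral.integral_of_le hst, integral_Ioc_eq_integral_Ioo]
  refine tendsto_nhds_unique ?_ lim1
  simpa only [heq] using lim2

end Pool.Agent.TB
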