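import Pool.Agent.TB.Level

/-!
# The inequality `‖w‖₄⁴ ≤ C M² (‖∇ w‖₂² + ‖w‖₂² / ρ)`
-/

set_option autoImplicit false

namespace Pool.Agent.TB

open MeasureTheory Set Filter Topology Pool.Agent.TO
open scoped ENNReal NNReal Real InnerProductSpace

theorem inner_B {M f : ℝ} (hM : 0 < M) (hf : 0 ≤ f) :
    ∫⁻ t in Ioi (0:ℝ), (if t ≤ f ∧ f ≤ 49 * t then ENNReal.ofReal (24 * M ^ 2 / t) else 0) ≤
      ENNReal.ofReal (1176 * M ^ 2) := by
  rcases hf.eq_or_lt with h0 | h0
  · have : ∀ t ∈ Ioi (0:ℝ), (if t ≤ f ∧ f ≤ 49 * t then ENNReal.ofReal (24 * M ^ 2 / t) else 0) =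
        0 := by
      intro t ht
      rw [if_neg]
      rintro ⟨h1, -⟩
      rw [← h0] at h1
      exact absurd h1 (not_le.2 ht)
    rw [setLIntegral_congr_fun measurableSet_Ioi this, lintegral_zero]
    exact zero_le
  calc ∫⁻ t in Ioi (0:ℝ), (if t ≤ f ∧ f ≤ 49 * t then ENNReal.ofReal (24 * M ^ 2 / t) else 0)
      ≤ ∫⁻ t in Ioi (0:ℝ), (Icc 0 f).indicator (fun _ => ENNReal.ofReal (1176 * M ^ 2 / f)) t := by
        apply setLIntegral_mono' measurableSet_Ioi
        intro t ht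
        by_cases h : t ≤ f ∧ f ≤ 49 * t
        · have ht0 : (0:ℝ) < t := ht
          rw [if_pos h, indicator_of_mem (show t ∈ Icc 0 f from ⟨ht0.le, h.1⟩)]
          apply ENNReal.ofReal_le_ofReal
          rw [div_le_div_iff₀ ht0 h0]
          have : M ^ 2 * f ≤ M ^ 2 * (49 * t) := mul_le_mul_of_nonneg_left h.2 (by positivity)
          linarith
        · rw [if_neg h]
          exact zero_le
    _ ≤ ∫⁻ t, (Icc 0 f).indicator (fun _ => ENNReal.ofReal (1176 * M ^ 2 / f)) t :=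
        setLIntegral_le_lintegral _ _
    _ = ENNReal.ofReal (1176 * M ^ 2 / f) * volume (Icc 0 f) := by
        rw [lintegral_indicator_const measurableSet_Icc]
    _ = ENNReal.ofReal (1176 * M ^ 2) := by
        rw [Real.volume_Icc, sub_zero, ← ENNReal.ofReal_mul (by positivity)]
        congr 1
        field_simp

theorem inner_C {f : ℝ} (hf : 0 ≤ f) :
    ∫⁻ t in Ioi (0:ℝ), (if 48 * t ≤ f then ENNReal.ofReal (t ^ 2) else 0) ≤
      ENNReal.ofReal ((f / 48) ^ 3) := by
  calc ∫⁻ t in Ioi (0:ℝ), (if 48 * t ≤ f then ENNReal.ofReal (t ^ 2) else 0)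
      ≤ ∫⁻ t in Ioi (0:ℝ), (Icc 0 (f / 48)).indicator
          (fun _ => ENNReal.ofReal ((f / 48) ^ 2)) t := by
        apply setLIntegral_mono' measurableSet_Ioi
        intro t ht
        have ht0 : (0:ℝ) < t := ht
        by_cases h : 48 * t ≤ f
        · have h1 : t ≤ f / 48 := by
            rw [le_div_iff₀ (by norm_num)]
            linarith
          rw [if_pos h, indicator_of_mem (show t ∈ Icc 0 (f / 48) from ⟨ht0.le, h1⟩)]
          apply ENNReal.ofReal_le_ofReal
          exact pow_le_pow_left₀ ht0.le h1 2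
        · rw [if_neg h]
          exact zero_le
    _ ≤ ∫⁻ t, (Icc 0 (f / 48)).indicator (fun _ => ENNReal.ofReal ((f / 48) ^ 2)) t :=
        setLIntegral_le_lintegral _ _
    _ = ENNReal.ofReal ((f / 48) ^ 2) * volume (Icc 0 (f / 48)) := by
        rw [lintegral_indicator_const measurableSet_Icc]
    _ = ENNReal.ofReal ((f / 48) ^ 3) := by
        rw [Real.volume_Icc, sub_zero, ← ENNReal.ofReal_mul (by positivity)]
        congr 1

theorem inner_A {u₀ : ℝ} (hu : 0 < u₀) :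
    ∫⁻ t in Ioi (0:ℝ), (if t < u₀ then ENNReal.ofReal (t / 64) else 0) ≤
      ENNReal.ofReal (u₀ ^ 2 / 64) := by
  calc ∫⁻ t in Ioi (0:ℝ), (if t < u₀ then ENNReal.ofReal (t / 64) else 0)
      ≤ ∫⁻ t in Ioi (0:ℝ), (Icc 0 u₀).indicator (fun _ => ENNReal.ofReal (u₀ / 64)) t := by
        apply setLIntegral_mono' measurableSet_Ioi
        intro t ht
        have ht0 : (0:ℝ) < t := ht
        by_cases h : t < u₀
        · rw [if_pos h, indicator_of_mem (show t ∈ Icc 0 u₀ from ⟨ht0.le, h.le⟩)]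
          apply ENNReal.ofReal_le_ofReal
          linarith
        · rw [if_neg h]
          exact zero_le
    _ ≤ ∫⁻ t, (Icc 0 u₀).indicator (fun _ => ENNReal.ofReal (u₀ / 64)) t :=
        setLIntegral_le_lintegral _ _
    _ = ENNReal.ofReal (u₀ / 64) * volume (Icc 0 u₀) := by
        rw [lintegral_indicator_const measurableSet_Icc]
    _ = ENNReal.ofReal (u₀ ^ 2 / 64) := by
        rw [Real.volume_Icc, sub_zero, ← ENNReal.ofReal_mul (by positivity)]
        congr 1
        ring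

/-- the estimate of the distribution function, multiplied by `t³` -/
theorem level_t {w : V3} {d : Fin 3 → V3} (h : ∀ k, IsWeakDeriv k w (d k)) (j : Fin 3) {M ρ : ℝ}
    (hM : 0 < M) (hρ : 0 < ρ) (hb : ∀ σ ∈ Ioc 0 ρ, ∀ x, ‖heat σ w x‖ ≤ M / √σ) {t : ℝ}
    (ht : 0 < t) :
    volume {x | 8 * t ≤ |w x j|} * ENNReal.ofReal (t ^ 3) ≤
      (if t < M / √ρ then ENNReal.ofReal (t / 64) else 0) * ‖w‖ₑ ^ 2 +
      (ENNReal.ofReal (24 * M ^ 2 / t) *
        (∫⁻ x in {x | t ≤ |w x j| ∧ |w x j| ≤ 49 * t}, Dsq d x) +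
      ENNReal.ofReal (t ^ 2) * ∫⁻ x, Gu w j t x) := by
  by_cases hc : t < M / √ρ
  · rw [if_pos hc]
    refine le_trans ?_ (le_add_of_nonneg_right zero_le)
    have hm : AEMeasurable (fun x => ‖w x j‖ₑ ^ 2) (volume : Measure E3) :=
      ((meas_comp w j).enorm.pow_const 2).aemeasurable
    have hu2 : ENNReal.ofReal ((8 * t) ^ 2) ≠ 0 := by
      rw [Ne, ENNReal.ofReal_eq_zero]
      push Not
      positivity
    have h1 : volume {x | 8 * t ≤ |w x j|} ≤
        volume {x | ENNReal.ofReal ((8 * t) ^ 2) ≤ ‖w x j‖ₑ ^ 2} := by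
      apply measure_mono
      intro x hx
      change 8 * t ≤ |w x j| at hx
      change ENNReal.ofReal ((8 * t) ^ 2) ≤ ‖w x j‖ₑ ^ 2
      rw [← ofReal_norm, ← ENNReal.ofReal_pow (norm_nonneg _), Real.norm_eq_abs]
      exact ENNReal.ofReal_le_ofReal (pow_le_pow_left₀ (by positivity) hx 2)
    have h2 : ∫⁻ x, ‖w x j‖ₑ ^ 2 ≤ ‖w‖ₑ ^ 2 := by
      rw [← lintegral_sq_V3]
      apply lintegral_mono
      intro x
      have : ‖w x j‖ₑ ≤ ‖w x‖ₑ := by
        rw [← ofReal_norm, ← ofReal_norm]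
        exact ENNReal.ofReal_le_ofReal (PiLp.norm_apply_le _ _)
      exact pow_le_pow_left₀ zero_le this 2
    have h3 := meas_ge_le_lintegral_div hm hu2 ENNReal.ofReal_ne_top
    calc volume {x | 8 * t ≤ |w x j|} * ENNReal.ofReal (t ^ 3)
        ≤ ((∫⁻ x, ‖w x j‖ₑ ^ 2) / ENNReal.ofReal ((8 * t) ^ 2)) * ENNReal.ofReal (t ^ 3) := by
          gcongr
          exact h1.trans h3
      _ ≤ (‖w‖ₑ ^ 2 / ENNReal.ofReal ((8 * t) ^ 2)) * ENNReal.ofReal (t ^ 3) := by gcongr
      _ = ENNReal.ofReal (t / 64) * ‖w‖ₑ ^ 2 := by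
          rw [ENNReal.div_eq_inv_mul, ← ENNReal.ofReal_inv_of_pos (by positivity),
            mul_assoc, mul_comm (‖w‖ₑ ^ 2), ← mul_assoc, ← ENNReal.ofReal_mul (by positivity)]
          congr 2
          field_simp
          ring
  · rw [if_neg hc, zero_mul, zero_add]
    push Not at hc
    set σ : ℝ := M ^ 2 / t ^ 2 with hσ
    have hσ0 : 0 < σ := by positivity
    have hsρ : 0 < √ρ := Real.sqrt_pos.2 hρ
    have hsq : √ρ ^ 2 = ρ := Real.sq_sqrt hρ.le
    have hσρ : σ ≤ ρ := by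
      rw [hσ, div_le_iff₀ (by positivity), ← hsq, ← mul_pow]
      apply pow_le_pow_left₀ hM.le
      rw [div_le_iff₀ hsρ] at hc
      linarith
    have hsσ : √σ = M / t := by
      rw [hσ, ← div_pow, Real.sqrt_sq (by positivity)]
    have hb' : ∀ x, ‖heat σ w x‖ ≤ t := by
      intro x
      have := hb σ ⟨hσ0, hσρ⟩ x
      rw [hsσ] at this
      have e : M / (M / t) = t := by field_simp
      rwa [e] at this
    have h1 := level h j ht hσ0 hb'
    calc volume {x | 8 * t ≤ |w x j|} * ENNReal.ofReal (t ^ 3)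
        ≤ (ENNReal.ofReal (24 * σ / t ^ 2) *
            (∫⁻ x in {x | t ≤ |w x j| ∧ |w x j| ≤ 49 * t}, Dsq d x) +
            ENNReal.ofReal (1 / t) * ∫⁻ x, Gu w j t x) * ENNReal.ofReal (t ^ 3) := by gcongr
      _ = _ := by
          have g1 : 24 * σ / t ^ 2 * t ^ 3 = 24 * M ^ 2 / t := by
            rw [hσ]
            field_simp
          have g2 : 1 / t * t ^ 3 = t ^ 2 := by field_simp
          rw [add_mul, mul_right_comm, mul_right_comm (ENNReal.ofReal (1 / t)),
            ← ENNReal.ofReal_mul (by positivity), ← ENNReal.ofReal_mul (by positivity), g1, g2]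

/-- Tonelli for the gradient term -/
theorem int_B (w : V3) (d : Fin 3 → V3) (j : Fin 3) {M : ℝ} (hM : 0 < M) :
    ∫⁻ t in Ioi (0:ℝ), ENNReal.ofReal (24 * M ^ 2 / t) *
      (∫⁻ x in {x | t ≤ |w x j| ∧ |w x j| ≤ 49 * t}, Dsq d x) ≤
      ENNReal.ofReal (1176 * M ^ 2) * ∫⁻ x, Dsq d x := by
  have hmj := meas_comp w j
  have hS : MeasurableSet {p : ℝ × E3 | p.1 ≤ |w p.2 j| ∧ |w p.2 j| ≤ 49 * p.1} :=
    (measurableSet_le measurable_fst (hmj.comp measurable_snd).abs).inter
      (measurableSet_le (hmj.comp measurable_snd).abs (measurable_const.mul measurable_fst))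
  have hAm : ∀ t : ℝ, MeasurableSet {x | t ≤ |w x j| ∧ |w x j| ≤ 49 * t} := fun t =>
    (measurableSet_le measurable_const hmj.abs).inter (measurableSet_le hmj.abs measurable_const)
  set K : ℝ → E3 → ℝ≥0∞ := fun t x =>
    (if t ≤ |w x j| ∧ |w x j| ≤ 49 * t then ENNReal.ofReal (24 * M ^ 2 / t) else 0) * Dsq d x with hK
  have hKm : Measurable (Function.uncurry K) := by
    apply Measurable.mul
    · apply Measurable.ite hS _ measurable_const
      exact (measurable_const.div measurable_fst).ennreal_ofReal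
    · exact (meas_Dsq d).comp measurable_snd
  have e1 : ∀ t : ℝ, ENNReal.ofReal (24 * M ^ 2 / t) *
      (∫⁻ x in {x | t ≤ |w x j| ∧ |w x j| ≤ 49 * t}, Dsq d x) = ∫⁻ x, K t x := by
    intro t
    rw [← lintegral_indicator (hAm t), ← lintegral_const_mul _ ((meas_Dsq d).indicator (hAm t))]
    apply lintegral_congr
    intro x
    simp only [hK]
    by_cases hx : t ≤ |w x j| ∧ |w x j| ≤ 49 * t
    · rw [if_pos hx, indicator_of_mem (show x ∈ {x | t ≤ |w x j| ∧ |w x j| ≤ 49 * t} from hx)]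
    · rw [if_neg hx, indicator_of_notMem (show x ∉ {x | t ≤ |w x j| ∧ |w x j| ≤ 49 * t} from hx),
        mul_zero, zero_mul]
  simp only [e1]
  rw [lintegral_lintegral_swap hKm.aemeasurable, ← lintegral_const_mul _ (meas_Dsq d)]
  apply lintegral_mono
  intro x
  simp only [hK]
  rw [lintegral_mul_const]
  · gcongr
    exact inner_B hM (abs_nonneg _)
  · apply Measurable.ite
    · exact (measurableSet_le measurable_id measurable_const).inter
        (measurableSet_le measurable_const (measurable_const.mul measurable_id))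
    · exact (measurable_const.div measurable_id).ennreal_ofReal
    · exact measurable_const

/-- Tonelli for the large values -/
theorem int_C (w : V3) (j : Fin 3) :
    ∫⁻ t in Ioi (0:ℝ), ENNReal.ofReal (t ^ 2) * ∫⁻ x, Gu w j t x ≤
      ENNReal.ofReal (1 / 48 ^ 3) * ∫⁻ x, ENNReal.ofReal (|w x j| ^ 4) := by
  have hmj := meas_comp w j
  have hS : MeasurableSet {p : ℝ × E3 | 48 * p.1 ≤ |w p.2 j|} :=
    (measurableSet_le (measurable_const.mul measurable_fst) (hmj.comp measurable_snd).abs)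
  set K : ℝ → E3 → ℝ≥0∞ := fun t x =>
    (if 48 * t ≤ |w x j| then ENNReal.ofReal (t ^ 2) else 0) * ‖w x j‖ₑ with hK
  have hKm : Measurable (Function.uncurry K) := by
    apply Measurable.mul
    · apply Measurable.ite hS _ measurable_const
      exact (measurable_fst.pow_const 2).ennreal_ofReal
    · exact hmj.enorm.comp measurable_snd
  have e1 : ∀ t : ℝ, ENNReal.ofReal (t ^ 2) * ∫⁻ x, Gu w j t x = ∫⁻ x, K t x := by
    intro t
    rw [← lintegral_const_mul _ (meas_Gu w j t)]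
    apply lintegral_congr
    intro x
    simp only [hK, Gu]
    by_cases hx : 48 * t ≤ |w x j|
    · rw [if_pos hx, indicator_of_mem (show x ∈ {x | 48 * t ≤ |w x j|} from hx)]
    · rw [if_neg hx, indicator_of_notMem (show x ∉ {x | 48 * t ≤ |w x j|} from hx),
        mul_zero, zero_mul]
  simp only [e1]
  rw [lintegral_lintegral_swap hKm.aemeasurable, ← lintegral_const_mul]
  · apply lintegral_mono
    intro x
    simp only [hK]
    rw [lintegral_mul_const]
    · calc (∫⁻ t in Ioi (0:ℝ), (if 48 * t ≤ |w x j| then ENNReal.ofReal (t ^ 2) else 0)) * ‖w x j‖ₑ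
          ≤ ENNReal.ofReal ((|w x j| / 48) ^ 3) * ‖w x j‖ₑ := by
            gcongr
            exact inner_C (abs_nonneg _)
        _ = ENNReal.ofReal (1 / 48 ^ 3) * ENNReal.ofReal (|w x j| ^ 4) := by
            rw [← ofReal_norm, Real.norm_eq_abs, ← ENNReal.ofReal_mul (by positivity),
              ← ENNReal.ofReal_mul (by positivity)]
            congr 1
            ring
    · apply Measurable.ite
      · exact measurableSet_le (measurable_const.mul measurable_id) measurable_const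
      · exact (measurable_id.pow_const 2).ennreal_ofReal
      · exact measurable_const
  · exact (hmj.abs.pow_const 4).ennreal_ofReal

/-- the inequality for one component, assuming that the left side is finite -/
theorem gmo_comp {w : V3} {d : Fin 3 → V3} (h : ∀ k, IsWeakDeriv k w (d k)) (j : Fin 3) {M ρ : ℝ}
    (hM : 0 < M) (hρ : 0 < ρ) (hb : ∀ σ ∈ Ioc 0 ρ, ∀ x, ‖heat σ w x‖ ≤ M / √σ)
    (hfin : ∫⁻ x, ENNReal.ofReal (|w x j| ^ 4) ≠ ∞) :
    ∫⁻ x, ENNReal.ofReal (|w x j| ^ 4) ≤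
      ENNReal.ofReal (3e7 * M ^ 2 * (∑ k, ‖d k‖ ^ 2 + ‖w‖ ^ 2 / ρ)) := by
  set I : ℝ≥0∞ := ∫⁻ x, ENNReal.ofReal (|w x j| ^ 4) with hI
  have hmj := meas_comp w j
  have e1 : ∫⁻ x, ENNReal.ofReal ((|w x j| / 8) ^ (4:ℝ)) = ENNReal.ofReal (1 / 4096) * I := by
    rw [hI, ← lintegral_const_mul _ (hmj.abs.pow_const 4).ennreal_ofReal]
    apply lintegral_congr
    intro x
    rw [← ENNReal.ofReal_mul (by norm_num)]
    congr 1
    rw [show (4:ℝ) = ((4:ℕ):ℝ) by norm_num, Real.rpow_natCast]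
    ring
  have e2 := lintegral_rpow_eq_lintegral_meas_le_mul (volume : Measure E3)
    (f := fun x => |w x j| / 8) (Eventually.of_forall fun x => by positivity)
    (hmj.abs.div_const 8).aemeasurable (p := 4) (by norm_num)
  rw [e1] at e2
  have e3 : ∫⁻ t in Ioi (0:ℝ), volume {x | t ≤ |w x j| / 8} * ENNReal.ofReal (t ^ ((4:ℝ) - 1)) ≤
      ∫⁻ t in Ioi (0:ℝ), ((if t < M / √ρ then ENNReal.ofReal (t / 64) else 0) * ‖w‖ₑ ^ 2 +
      (ENNReal.ofReal (24 * M ^ 2 / t) *
        (∫⁻ x in {x | t ≤ |w x j| ∧ |w x j| ≤ 49 * t}, Dsq d x) +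
      ENNReal.ofReal (t ^ 2) * ∫⁻ x, Gu w j t x)) := by
    apply setLIntegral_mono' measurableSet_Ioi
    intro t ht
    have ht0 : (0:ℝ) < t := ht
    have g1 : {x | t ≤ |w x j| / 8} = {x | 8 * t ≤ |w x j|} := by
      ext x
      simp only [mem_setOf_eq]
      rw [le_div_iff₀ (by norm_num), mul_comm]
    have g2 : t ^ ((4:ℝ) - 1) = t ^ 3 := by
      rw [show (4:ℝ) - 1 = ((3:ℕ):ℝ) by norm_num, Real.rpow_natCast]
    rw [g1, g2]
    exact level_t h j hM hρ hb ht0
  have mA : Measurable fun t : ℝ => (if t < M / √ρ then ENNReal.ofReal (t / 64) else 0) *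
      ‖w‖ₑ ^ 2 := by
    apply Measurable.mul_const
    apply Measurable.ite (measurableSet_lt measurable_id measurable_const)
    · exact (measurable_id.div_const 64).ennreal_ofReal
    · exact measurable_const
  have mC : Measurable fun t : ℝ => ENNReal.ofReal (t ^ 2) * ∫⁻ x, Gu w j t x := by
    apply Measurable.mul
    · exact (measurable_id.pow_const 2).ennreal_ofReal
    · have : Measurable (Function.uncurry fun (t : ℝ) (x : E3) => Gu w j t x) := by
        have hS : MeasurableSet {p : ℝ × E3 | 48 * p.1 ≤ |w p.2 j|} :=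
          (measurableSet_le (measurable_const.mul measurable_fst) (hmj.comp measurable_snd).abs)
        have := Measurable.indicator (hmj.enorm.comp (measurable_snd (α := ℝ))) hS
        exact this
      exact this.lintegral_prod_right'
  have e4 : ∫⁻ t in Ioi (0:ℝ), ((if t < M / √ρ then ENNReal.ofReal (t / 64) else 0) * ‖w‖ₑ ^ 2 +
      (ENNReal.ofReal (24 * M ^ 2 / t) *
        (∫⁻ x in {x | t ≤ |w x j| ∧ |w x j| ≤ 49 * t}, Dsq d x) +
      ENNReal.ofReal (t ^ 2) * ∫⁻ x, Gu w j t x)) ≤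
      ENNReal.ofReal ((M / √ρ) ^ 2 / 64) * ‖w‖ₑ ^ 2 +
      (ENNReal.ofReal (1176 * M ^ 2) * (∫⁻ x, Dsq d x) + ENNReal.ofReal (1 / 48 ^ 3) * I) := by
    rw [lintegral_add_left mA, lintegral_add_right _ mC]
    apply add_le_add _ (add_le_add (int_B w d j hM) (int_C w j))
    rw [lintegral_mul_const]
    · gcongr
      exact inner_A (div_pos hM (Real.sqrt_pos.2 hρ))
    · apply Measurable.ite (measurableSet_lt measurable_id measurable_const)
      · exact (measurable_id.div_const 64).ennreal_ofReal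
      · exact measurable_const
  have eD : ∫⁻ x, Dsq d x = ENNReal.ofReal (∑ k, ‖d k‖ ^ 2) := by
    unfold Dsq
    rw [lintegral_finsetSum _ (fun k _ => (Lp.stronglyMeasurable (d k)).enorm.pow_const 2),
      ENNReal.ofReal_sum_of_nonneg (fun k _ => by positivity)]
    exact Finset.sum_congr rfl fun k _ => by rw [lintegral_sq_V3, enorm_sq_ofReal]
  have e5 : ENNReal.ofReal (1 / 4096) * I ≤ ENNReal.ofReal 4 *
      (ENNReal.ofReal ((M / √ρ) ^ 2 / 64) * ‖w‖ₑ ^ 2 +
      (ENNReal.ofReal (1176 * M ^ 2) * ENNReal.ofReal (∑ k, ‖d k‖ ^ 2) +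
        ENNReal.ofReal (1 / 48 ^ 3) * I)) := by
    rw [e2, ← eD]
    gcongr
    exact e3.trans e4
  have hIr : I = ENNReal.ofReal I.toReal := (ENNReal.ofReal_toReal hfin).symm
  set i : ℝ := I.toReal with hi
  have hi0 : 0 ≤ i := ENNReal.toReal_nonneg
  rw [hIr, enorm_sq_ofReal] at e5
  have hS0 : 0 ≤ ∑ k, ‖d k‖ ^ 2 := Finset.sum_nonneg fun k _ => by positivity
  rw [← ENNReal.ofReal_mul (by norm_num), ← ENNReal.ofReal_mul (by positivity),
    ← ENNReal.ofReal_mul (by positivity), ← ENNReal.ofReal_mul (by positivity),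
    ← ENNReal.ofReal_add (by positivity) (by positivity),
    ← ENNReal.ofReal_add (by positivity) (by positivity), ← ENNReal.ofReal_mul (by norm_num),
    ENNReal.ofReal_le_ofReal_iff (by positivity)] at e5
  rw [hIr]
  apply ENNReal.ofReal_le_ofReal
  have e6 : (M / √ρ) ^ 2 = M ^ 2 / ρ := by rw [div_pow, Real.sq_sqrt hρ.le]
  rw [e6] at e5
  have e7 : M ^ 2 / ρ / 64 * ‖w‖ ^ 2 = (M ^ 2 * (‖w‖ ^ 2 / ρ)) / 64 := by ring
  rw [e7] at e5
  set X : ℝ := M ^ 2 * (‖w‖ ^ 2 / ρ) with hX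
  set Y : ℝ := M ^ 2 * ∑ k, ‖d k‖ ^ 2 with hY
  have hX0 : 0 ≤ X := by positivity
  have hY0 : 0 ≤ Y := by positivity
  have e8 : 1176 * M ^ 2 * ∑ k, ‖d k‖ ^ 2 = 1176 * Y := by rw [hY]; ring
  have e9 : 3e7 * M ^ 2 * (∑ k, ‖d k‖ ^ 2 + ‖w‖ ^ 2 / ρ) = 3e7 * (Y + X) := by
    rw [hX, hY]; ring
  rw [e8] at e5
  rw [e9]
  norm_num at e5 ⊢
  linarith

end Pool.Agent.TB
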