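import Pool.Agent.TB.GMO

/-!
# Fields with square integrable gradient and heat extension bounded by `M / √σ` are in `L⁴`
-/

set_option autoImplicit false

namespace Pool.Agent.TB

open MeasureTheory Set Filter Topology Pool.Agent.TO
open scoped ENNReal NNReal Real InnerProductSpace

/-- the heat extension is bounded -/
theorem heat_bdd {δ : ℝ} (hδ : 0 < δ) (w : V3) :
    ∃ B : ℝ, 0 ≤ B ∧ ∀ x, ‖heat δ w x‖ ≤ B := by
  refine ⟨√((CC δ * ‖w‖ₑ ^ 2).toReal), Real.sqrt_nonneg _, fun x => ?_⟩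
  apply Real.le_sqrt_of_sq_le
  have h1 := (sq_heat_le hδ (Lp.stronglyMeasurable w) x).trans (sq_gam_le hδ x)
  rw [lintegral_sq_V3] at h1
  have h2 : CC δ * ‖w‖ₑ ^ 2 ≠ ∞ :=
    (ENNReal.mul_lt_top (CC_lt δ) (ENNReal.pow_lt_top enorm_lt_top)).ne
  rw [← ofReal_norm, ← ENNReal.ofReal_pow (norm_nonneg _)] at h1
  exact (ENNReal.ofReal_le_iff_le_toReal h2).1 h1

theorem heat_const_le {F : Type*} [NormedAddCommGroup F] [NormedSpace ℝ F] {δ : ℝ} (hδ : 0 < δ)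
    {f : E3 → F} {B : ℝ} (hB : 0 ≤ B) (h : ∀ x, ‖f x‖ ≤ B) (x : E3) : ‖heat δ f x‖ ≤ B := by
  have i := isProb_gam hδ
  rw [heat_eq hδ]
  have := norm_integral_le_of_norm_le_const (μ := gam δ) (f := fun y => f (x - y)) (C := B)
    (Eventually.of_forall fun y => h _)
  simpa using this

/-- the inequality for one component, after smoothing -/
theorem gmo_heat {w : V3} {d : Fin 3 → V3} (h : ∀ k, IsWeakDeriv k w (d k)) (j : Fin 3) {M ρ : ℝ}
    (hM : 0 < M) (hρ : 0 < ρ) (hb : ∀ σ ∈ Ioc 0 ρ, ∀ x, ‖heat σ w x‖ ≤ M / √σ) {δ : ℝ}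
    (hδ : 0 < δ) :
    ∫⁻ x, ENNReal.ofReal (|heat δ w x j| ^ 4) ≤
      ENNReal.ofReal (3e7 * M ^ 2 * (∑ k, ‖d k‖ ^ 2 + ‖w‖ ^ 2 / ρ)) := by
  have h1 : ∀ k, IsWeakDeriv k (heatV hδ w) (heatV hδ (d k)) := fun k => weak_heatV hδ (h k)
  have hb1 : ∀ σ ∈ Ioc 0 ρ, ∀ x, ‖heat σ (heatV hδ w) x‖ ≤ M / √σ := by
    intro σ hσ x
    rw [heat_congr (coe_heatV hδ w),
      heat_comm hσ.1 hδ (Lp.stronglyMeasurable w) (lintegral_sq_lt w)]
    exact heat_const_le hδ (by positivity) (hb σ hσ) x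
  have e1 : ∫⁻ x, ENNReal.ofReal (|heatV hδ w x j| ^ 4) =
      ∫⁻ x, ENNReal.ofReal (|heat δ w x j| ^ 4) := by
    apply lintegral_congr_ae
    filter_upwards [coe_heatV hδ w] with x hx
    rw [hx]
  obtain ⟨B, hB0, hB⟩ := heat_bdd hδ w
  have hfin : ∫⁻ x, ENNReal.ofReal (|heatV hδ w x j| ^ 4) ≠ ∞ := by
    have h2 : ∫⁻ x, ENNReal.ofReal (|heatV hδ w x j| ^ 4) ≤
        ∫⁻ x, ENNReal.ofReal (B ^ 2) * ‖heatV hδ w x‖ₑ ^ 2 := by
      apply lintegral_mono_ae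
      filter_upwards [coe_heatV hδ w] with x hx
      rw [← ofReal_norm, ← ENNReal.ofReal_pow (norm_nonneg _), ← ENNReal.ofReal_mul (by positivity)]
      apply ENNReal.ofReal_le_ofReal
      have g1 : |heatV hδ w x j| ≤ ‖heatV hδ w x‖ := abs_coord_le _ _
      have g2 : |heatV hδ w x j| ≤ B := by
        refine g1.trans ?_
        rw [hx]
        exact hB x
      calc |heatV hδ w x j| ^ 4 = |heatV hδ w x j| ^ 2 * |heatV hδ w x j| ^ 2 := by ring
        _ ≤ B ^ 2 * ‖heatV hδ w x‖ ^ 2 := by gcongr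
    refine (h2.trans_lt ?_).ne
    rw [lintegral_const_mul _ ((Lp.stronglyMeasurable _).enorm.pow_const 2)]
    exact ENNReal.mul_lt_top ENNReal.ofReal_lt_top (lintegral_sq_lt _)
  rw [← e1]
  refine (gmo_comp h1 j hM hρ hb1 hfin).trans ?_
  apply ENNReal.ofReal_le_ofReal
  gcongr with k _
  · exact norm_heatV_le hδ _
  · exact norm_heatV_le hδ _

/-- the inequality for one component -/
theorem gmo_one {w : V3} {d : Fin 3 → V3} (h : ∀ k, IsWeakDeriv k w (d k)) (j : Fin 3) {M ρ : ℝ}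
    (hM : 0 < M) (hρ : 0 < ρ) (hb : ∀ σ ∈ Ioc 0 ρ, ∀ x, ‖heat σ w x‖ ≤ M / √σ) :
    ∫⁻ x, ENNReal.ofReal (|w x j| ^ 4) ≤
      ENNReal.ofReal (3e7 * M ^ 2 * (∑ k, ‖d k‖ ^ 2 + ‖w‖ ^ 2 / ρ)) := by
  have hδ : ∀ n : ℕ, 0 < 1 / ((n:ℝ) + 1) := fun n => by positivity
  have hlim : Tendsto (fun n : ℕ => 1 / ((n:ℝ) + 1)) atTop (𝓝 0) :=
    tendsto_one_div_add_atTop_nhds_zero_nat
  have h1 : Tendsto (fun n => heatV (hδ n) w) atTop (𝓝 w) := by
    rw [tendsto_iff_norm_sub_tendsto_zero]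
    have h2 : Tendsto (fun n : ℕ => √(24 * (1 / ((n:ℝ) + 1)) * ∑ k, ‖d k‖ ^ 2)) atTop (𝓝 0) := by
      have h3 := ((hlim.const_mul 24).mul_const (∑ k, ‖d k‖ ^ 2)).sqrt
      simpa using h3
    refine squeeze_zero (fun n => norm_nonneg _) (fun n => ?_) h2
    apply Real.le_sqrt_of_sq_le
    rw [norm_sub_rev]
    exact poincare (hδ n) h
  have h4 : TendstoInMeasure (volume : Measure E3) (fun n => (heatV (hδ n) w : E3 → E3)) atTop
      (w : E3 → E3) := tendstoInMeasure_of_tendsto_Lp h1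
  obtain ⟨ns, -, hns⟩ := h4.exists_seq_tendsto_ae
  have h5 : ∀ᵐ x ∂(volume : Measure E3), ∀ n, heatV (hδ n) w x = heat (1 / ((n:ℝ) + 1)) w x :=
    ae_all_iff.2 fun n => coe_heatV (hδ n) w
  have h6 : ∫⁻ x, ENNReal.ofReal (|w x j| ^ 4) ≤
      ∫⁻ x, liminf (fun i => ENNReal.ofReal (|heat (1 / ((ns i:ℝ) + 1)) w x j| ^ 4)) atTop := by
    apply lintegral_mono_ae
    filter_upwards [hns, h5] with x g1 g2
    have g3 : Tendsto (fun i => ENNReal.ofReal (|heat (1 / ((ns i:ℝ) + 1)) w x j| ^ 4)) atTop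
        (𝓝 (ENNReal.ofReal (|w x j| ^ 4))) := by
      apply (ENNReal.continuous_ofReal.tendsto _).comp
      apply Tendsto.pow
      apply Tendsto.abs
      have g4 : Tendsto (fun i => (heatV (hδ (ns i)) w x) j) atTop (𝓝 (w x j)) :=
        ((EuclideanSpace.proj (𝕜 := ℝ) j).continuous.tendsto (w x)).comp g1
      simpa only [g2] using g4
    rw [g3.liminf_eq]
  refine h6.trans ((lintegral_liminf_le' fun i => ?_).trans ?_)
  · have := (stronglyMeasurable_heat (hδ (ns i)) (Lp.stronglyMeasurable w)).measurable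
    have h7 : Measurable fun x => heat (1 / ((ns i:ℝ) + 1)) w x j :=
      ((EuclideanSpace.proj (𝕜 := ℝ) j).continuous.measurable).comp this
    exact (h7.abs.pow_const 4).ennreal_ofReal.aemeasurable
  · refine liminf_le_of_frequently_le' (Frequently.of_forall fun i => ?_)
    exact gmo_heat h j hM hρ hb (hδ (ns i))

/-- the inequality for the field -/
theorem gmo {w : V3} {d : Fin 3 → V3} (h : ∀ k, IsWeakDeriv k w (d k)) {M ρ : ℝ}
    (hM : 0 < M) (hρ : 0 < ρ) (hb : ∀ σ ∈ Ioc 0 ρ, ∀ x, ‖heat σ w x‖ ≤ M / √σ) :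
    ∫⁻ x, ENNReal.ofReal (‖w x‖ ^ 4) ≤
      ENNReal.ofReal (3e8 * M ^ 2 * (∑ k, ‖d k‖ ^ 2 + ‖w‖ ^ 2 / ρ)) := by
  have h1 : ∀ x, ‖w x‖ ^ 4 ≤ 3 * ∑ j, |w x j| ^ 4 := by
    intro x
    have e1 : ‖w x‖ ^ 2 = ∑ j, |w x j| ^ 2 := by
      rw [← sum_sq_eq (w x)]
      exact Finset.sum_congr rfl fun k _ => (sq_abs _).symm
    have e2 : ‖w x‖ ^ 4 = (∑ j, |w x j| ^ 2) ^ 2 := by
      rw [← e1]; ring
    rw [e2]
    have := sq_sum_le_card_mul_sum_sq (s := (Finset.univ : Finset (Fin 3)))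
      (f := fun j => |w x j| ^ 2)
    simp only [Finset.card_univ, Fintype.card_fin, Nat.cast_ofNat] at this
    refine this.trans (le_of_eq ?_)
    congr 1
    exact Finset.sum_congr rfl fun k _ => by ring
  have h0 : 0 ≤ M ^ 2 * (∑ k, ‖d k‖ ^ 2 + ‖w‖ ^ 2 / ρ) := by positivity
  calc ∫⁻ x, ENNReal.ofReal (‖w x‖ ^ 4) ≤ ∫⁻ x, ENNReal.ofReal (3 * ∑ j, |w x j| ^ 4) :=
        lintegral_mono fun x => ENNReal.ofReal_le_ofReal (h1 x)
    _ = ∫⁻ x, ENNReal.ofReal 3 * ∑ j, ENNReal.ofReal (|w x j| ^ 4) := by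
        apply lintegral_congr
        intro x
        rw [ENNReal.ofReal_mul (by norm_num), ENNReal.ofReal_sum_of_nonneg (fun k _ => by positivity)]
    _ = ENNReal.ofReal 3 * ∑ j, ∫⁻ x, ENNReal.ofReal (|w x j| ^ 4) := by
        rw [lintegral_const_mul, lintegral_finsetSum]
        · intro j _
          exact ((meas_comp w j).abs.pow_const 4).ennreal_ofReal
        · refine Finset.measurable_fun_sum _ fun j _ => ?_
          exact ((meas_comp w j).abs.pow_const 4).ennreal_ofReal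
    _ ≤ ENNReal.ofReal 3 * ∑ _j : Fin 3,
          ENNReal.ofReal (3e7 * M ^ 2 * (∑ k, ‖d k‖ ^ 2 + ‖w‖ ^ 2 / ρ)) := by
        gcongr with j _
        exact gmo_one h j hM hρ hb
    _ ≤ _ := by
        simp only [Finset.sum_const, Finset.card_univ, Fintype.card_fin, nsmul_eq_mul,
          Nat.cast_ofNat]
        have : (3:ℝ≥0∞) = ENNReal.ofReal 3 := by simp
        rw [this, ← ENNReal.ofReal_mul (by norm_num), ← ENNReal.ofReal_mul (by norm_num)]
        apply ENNReal.ofReal_le_ofReal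
        nlinarith

end Pool.Agent.TB
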