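import Pool.Agent.TO.Op

/-!
# The heat kernel on `ℝ³`
-/

set_option autoImplicit false

namespace Pool.Agent.TB

open MeasureTheory Set Filter Topology Pool.Agent.TO
open scoped ENNReal NNReal Real InnerProductSpace

/-- the heat kernel -/
noncomputable def hk (σ : ℝ) (y : E3) : ℝ :=
  (4 * π * σ) ^ (-(3 / 2) : ℝ) * Real.exp (-‖y‖ ^ 2 / (4 * σ))

/-- the heat extension `e^{σ Δ} f` -/
noncomputable def heat {F : Type*} [NormedAddCommGroup F] [NormedSpace ℝ F] (σ : ℝ) (f : E3 → F)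
    (x : E3) : F := ∫ y, hk σ y • f (x - y)

theorem hk_pos {σ : ℝ} (hσ : 0 < σ) (y : E3) : 0 < hk σ y := by
  have hp := Real.pi_pos
  unfold hk
  positivity

theorem continuous_hk (σ : ℝ) : Continuous (hk σ) := by
  unfold hk
  fun_prop

theorem hk_neg (σ : ℝ) (y : E3) : hk σ (-y) = hk σ y := by
  unfold hk
  rw [norm_neg]

theorem integral_hk {σ : ℝ} (hσ : 0 < σ) : ∫ y, hk σ y = 1 := by
  have hp := Real.pi_pos
  have h1 := GaussianFourier.integral_rexp_neg_mul_sq_norm (V := E3) (b := 1 / (4 * σ))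
    (by positivity)
  have h2 : ∀ y : E3, hk σ y = (4 * π * σ) ^ (-(3 / 2) : ℝ) *
      Real.exp (-(1 / (4 * σ)) * ‖y‖ ^ 2) := by
    intro y
    unfold hk
    congr 2
    ring
  simp only [h2]
  rw [integral_const_mul, h1]
  have h3 : π / (1 / (4 * σ)) = 4 * π * σ := by field_simp
  rw [h3]
  simp only [finrank_euclideanSpace, Fintype.card_fin]
  rw [Real.rpow_neg (by positivity)]
  norm_num
  exact inv_mul_cancel₀ (by positivity)

theorem integrable_hk {σ : ℝ} (hσ : 0 < σ) : Integrable (hk σ) (volume : Measure E3) := by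
  by_contra h
  have := integral_hk hσ
  rw [integral_undef h] at this
  norm_num at this

/-- the Gaussian probability measure -/
noncomputable def gam (σ : ℝ) : Measure E3 :=
  (volume : Measure E3).withDensity fun y => ENNReal.ofReal (hk σ y)

theorem meas_hk (σ : ℝ) : Measurable fun y => ENNReal.ofReal (hk σ y) :=
  (continuous_hk σ).measurable.ennreal_ofReal

theorem lintegral_hk {σ : ℝ} (hσ : 0 < σ) : ∫⁻ y, ENNReal.ofReal (hk σ y) = 1 := by
  rw [← ofReal_integral_eq_lintegral_ofReal (integrable_hk hσ)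
    (Eventually.of_forall fun y => (hk_pos hσ y).le), integral_hk hσ, ENNReal.ofReal_one]

theorem isProb_gam {σ : ℝ} (hσ : 0 < σ) : IsProbabilityMeasure (gam σ) := by
  constructor
  rw [gam, withDensity_apply _ MeasurableSet.univ, Measure.restrict_univ, lintegral_hk hσ]

theorem lintegral_gam (σ : ℝ) {f : E3 → ℝ≥0∞} (hf : Measurable f) :
    ∫⁻ y, f y ∂(gam σ) = ∫⁻ y, ENNReal.ofReal (hk σ y) * f y := by
  rw [gam, lintegral_withDensity_eq_lintegral_mul _ (meas_hk σ) hf]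
  rfl

theorem heat_eq {F : Type*} [NormedAddCommGroup F] [NormedSpace ℝ F] {σ : ℝ} (hσ : 0 < σ)
    (f : E3 → F) (x : E3) : heat σ f x = ∫ y, f (x - y) ∂(gam σ) := by
  rw [gam, integral_withDensity_eq_integral_toReal_smul (meas_hk σ)
    (Eventually.of_forall fun y => ENNReal.ofReal_lt_top)]
  unfold heat
  congr 1
  ext y
  rw [ENNReal.toReal_ofReal (hk_pos hσ y).le]

/-- Jensen's inequality for the square -/
theorem sq_lintegral_le {α : Type*} [MeasurableSpace α] {μ : Measure α} [IsProbabilityMeasure μ]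
    {g : α → ℝ≥0∞} (hg : AEMeasurable g μ) : (∫⁻ a, g a ∂μ) ^ 2 ≤ ∫⁻ a, g a ^ 2 ∂μ := by
  have h := ENNReal.lintegral_mul_le_Lp_mul_Lq μ (p := 2) (q := 2) Real.HolderConjugate.two_two
    hg (aemeasurable_const (b := (1:ℝ≥0∞)))
  simp only [Pi.mul_apply, mul_one, ENNReal.one_rpow, lintegral_const, measure_univ] at h
  calc (∫⁻ a, g a ∂μ) ^ 2 ≤ ((∫⁻ a, g a ^ (2:ℝ) ∂μ) ^ (1 / 2 : ℝ)) ^ 2 := by gcongr
    _ = ∫⁻ a, g a ^ 2 ∂μ := by
        rw [← ENNReal.rpow_natCast, ← ENNReal.rpow_mul]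
        norm_num

/-- the second moment of the heat kernel -/
theorem second_moment {σ : ℝ} (hσ : 0 < σ) :
    ∫⁻ y, ‖y‖ₑ ^ 2 ∂(gam σ) ≤ ENNReal.ofReal (24 * σ) := by
  have hp := Real.pi_pos
  rw [lintegral_gam σ (by fun_prop)]
  have key : ∀ y : E3, hk σ y * ‖y‖ ^ 2 ≤ 24 * σ * hk (2 * σ) y := by
    intro y
    have e1 : (4 * π * σ) ^ (-(3 / 2) : ℝ) ≤ 3 * (4 * π * (2 * σ)) ^ (-(3 / 2) : ℝ) := by
      have : 4 * π * (2 * σ) = 2 * (4 * π * σ) := by ring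
      rw [this, Real.mul_rpow (x := 2) (y := 4 * π * σ) (by norm_num) (by positivity), ← mul_assoc]
      have h2 : (1:ℝ) ≤ 3 * 2 ^ (-(3 / 2) : ℝ) := by
        rw [Real.rpow_neg (by norm_num)]
        have h3 : (2:ℝ) ^ (3 / 2 : ℝ) ≤ 3 := by
          have h4 : ((2:ℝ) ^ (3 / 2 : ℝ)) ^ 2 = 8 := by
            rw [← Real.rpow_natCast, ← Real.rpow_mul (by norm_num)]
            norm_num
          nlinarith [Real.rpow_nonneg (by norm_num : (0:ℝ) ≤ 2) (3 / 2 : ℝ)]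
        rw [← div_eq_mul_inv, le_div_iff₀ (by positivity)]
        linarith
      calc (4 * π * σ) ^ (-(3 / 2) : ℝ) = 1 * (4 * π * σ) ^ (-(3 / 2) : ℝ) := (one_mul _).symm
        _ ≤ _ := by gcongr
    have e2 : Real.exp (-‖y‖ ^ 2 / (4 * σ)) * ‖y‖ ^ 2 ≤
        8 * σ * Real.exp (-‖y‖ ^ 2 / (4 * (2 * σ))) := by
      have h1 : -‖y‖ ^ 2 / (4 * σ) = -‖y‖ ^ 2 / (4 * (2 * σ)) + -(‖y‖ ^ 2 / (8 * σ)) := by
        field_simp
        ring
      rw [h1, Real.exp_add]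
      have h2 : ‖y‖ ^ 2 / (8 * σ) ≤ Real.exp (‖y‖ ^ 2 / (8 * σ)) := by
        have := Real.add_one_le_exp (‖y‖ ^ 2 / (8 * σ))
        linarith
      have h3 : Real.exp (-(‖y‖ ^ 2 / (8 * σ))) * ‖y‖ ^ 2 ≤ 8 * σ := by
        rw [Real.exp_neg, inv_mul_le_iff₀ (Real.exp_pos _)]
        rw [div_le_iff₀ (by positivity)] at h2
        linarith
      calc Real.exp (-‖y‖ ^ 2 / (4 * (2 * σ))) * Real.exp (-(‖y‖ ^ 2 / (8 * σ))) * ‖y‖ ^ 2
          = Real.exp (-‖y‖ ^ 2 / (4 * (2 * σ))) * (Real.exp (-(‖y‖ ^ 2 / (8 * σ))) * ‖y‖ ^ 2) := by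
            ring
        _ ≤ Real.exp (-‖y‖ ^ 2 / (4 * (2 * σ))) * (8 * σ) := by gcongr
        _ = 8 * σ * Real.exp (-‖y‖ ^ 2 / (4 * (2 * σ))) := by ring
    unfold hk
    calc (4 * π * σ) ^ (-(3 / 2) : ℝ) * Real.exp (-‖y‖ ^ 2 / (4 * σ)) * ‖y‖ ^ 2
        = (4 * π * σ) ^ (-(3 / 2) : ℝ) * (Real.exp (-‖y‖ ^ 2 / (4 * σ)) * ‖y‖ ^ 2) := by ring
      _ ≤ (3 * (4 * π * (2 * σ)) ^ (-(3 / 2) : ℝ)) *
          (8 * σ * Real.exp (-‖y‖ ^ 2 / (4 * (2 * σ)))) := by
          apply mul_le_mul e1 e2 (by positivity) (by positivity)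
      _ = _ := by ring
  calc ∫⁻ y, ENNReal.ofReal (hk σ y) * ‖y‖ₑ ^ 2
      ≤ ∫⁻ y, ENNReal.ofReal (24 * σ) * ENNReal.ofReal (hk (2 * σ) y) := by
        apply lintegral_mono
        intro y
        simp only
        rw [← ofReal_norm, ← ENNReal.ofReal_pow (norm_nonneg _),
          ← ENNReal.ofReal_mul (hk_pos hσ y).le, ← ENNReal.ofReal_mul (by positivity)]
        exact ENNReal.ofReal_le_ofReal (key y)
    _ = ENNReal.ofReal (24 * σ) := by
        rw [lintegral_const_mul _ (meas_hk _), lintegral_hk (by positivity), mul_one]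

section

variable {F : Type*} [NormedAddCommGroup F] [NormedSpace ℝ F]

theorem enorm_heat_le {σ : ℝ} (hσ : 0 < σ) (f : E3 → F) (x : E3) :
    ‖heat σ f x‖ₑ ≤ ∫⁻ y, ‖f (x - y)‖ₑ ∂(gam σ) := by
  rw [heat_eq hσ]
  exact enorm_integral_le_lintegral_enorm _

theorem sq_heat_le {σ : ℝ} (hσ : 0 < σ) {f : E3 → F} (hf : StronglyMeasurable f) (x : E3) :
    ‖heat σ f x‖ₑ ^ 2 ≤ ∫⁻ y, ‖f (x - y)‖ₑ ^ 2 ∂(gam σ) := by
  have := isProb_gam hσ
  refine le_trans (pow_le_pow_left₀ zero_le (enorm_heat_le hσ f x) 2) ?_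
  apply sq_lintegral_le
  exact ((hf.comp_measurable (measurable_const.sub measurable_id)).enorm).aemeasurable

theorem stronglyMeasurable_heat {σ : ℝ} (hσ : 0 < σ) {f : E3 → F} (hf : StronglyMeasurable f) :
    StronglyMeasurable (heat σ f) := by
  have := isProb_gam hσ
  have h1 : heat σ f = fun x => ∫ y, f (x - y) ∂(gam σ) := by
    ext x
    exact heat_eq hσ f x
  rw [h1]
  have h2 : StronglyMeasurable (Function.uncurry fun x y : E3 => f (x - y)) :=
    hf.comp_measurable (measurable_fst.sub measurable_snd)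
  exact h2.integral_prod_right

/-- translation invariance and Tonelli -/
theorem lintegral_heat {σ : ℝ} (hσ : 0 < σ) {g : E3 → ℝ≥0∞} (hg : Measurable g) :
    ∫⁻ x, ∫⁻ y, g (x - y) ∂(gam σ) = ∫⁻ x, g x := by
  have := isProb_gam hσ
  rw [lintegral_lintegral_swap]
  · have : ∀ y : E3, ∫⁻ x, g (x - y) = ∫⁻ x, g x := fun y => lintegral_sub_right_eq_self g y
    simp only [this, lintegral_const, measure_univ, mul_one]
  · exact (hg.comp (measurable_fst.sub measurable_snd)).aemeasurable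

theorem lintegral_sq_heat_le {σ : ℝ} (hσ : 0 < σ) {f : E3 → F} (hf : StronglyMeasurable f) :
    ∫⁻ x, ‖heat σ f x‖ₑ ^ 2 ≤ ∫⁻ x, ‖f x‖ₑ ^ 2 := by
  rw [← lintegral_heat hσ (g := fun x => ‖f x‖ₑ ^ 2) (hf.enorm.pow_const 2)]
  exact lintegral_mono fun x => sq_heat_le hσ hf x

end

end Pool.Agent.TB
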