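import Pool.Agent.TB.Heat
import Pool.Agent.TO.Cancel

/-!
# The heat extension of square integrable fields
-/

set_option autoImplicit false

namespace Pool.Agent.TB

open MeasureTheory Set Filter Topology Pool.Agent.TO
open scoped ENNReal NNReal Real InnerProductSpace SchwartzMap LineDeriv

theorem hk_le {σ : ℝ} (hσ : 0 < σ) (y : E3) : hk σ y ≤ (4 * π * σ) ^ (-(3 / 2) : ℝ) := by
  have hp := Real.pi_pos
  unfold hk
  have : Real.exp (-‖y‖ ^ 2 / (4 * σ)) ≤ 1 := by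
    rw [Real.exp_le_one_iff]
    apply div_nonpos_of_nonpos_of_nonneg
    · linarith [sq_nonneg ‖y‖]
    · positivity
  calc (4 * π * σ) ^ (-(3 / 2) : ℝ) * Real.exp (-‖y‖ ^ 2 / (4 * σ)) ≤
      (4 * π * σ) ^ (-(3 / 2) : ℝ) * 1 := by gcongr
    _ = _ := mul_one _

/-- the constant in the bound `|e^{σ Δ} f| ≤ C ‖f‖₂` -/
noncomputable def CC (σ : ℝ) : ℝ≥0∞ := ENNReal.ofReal ((4 * π * σ) ^ (-(3 / 2) : ℝ))

theorem gam_le {σ : ℝ} (hσ : 0 < σ) : gam σ ≤ CC σ • (volume : Measure E3) := by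
  rw [gam, CC, ← withDensity_const]
  apply withDensity_mono
  exact Eventually.of_forall fun y => ENNReal.ofReal_le_ofReal (hk_le hσ y)

theorem sq_gam_le {σ : ℝ} (hσ : 0 < σ) {F : Type*} [NormedAddCommGroup F] {f : E3 → F}
    (x : E3) : ∫⁻ y, ‖f (x - y)‖ₑ ^ 2 ∂(gam σ) ≤ CC σ * ∫⁻ y, ‖f y‖ₑ ^ 2 := by
  calc ∫⁻ y, ‖f (x - y)‖ₑ ^ 2 ∂(gam σ) ≤ ∫⁻ y, ‖f (x - y)‖ₑ ^ 2 ∂(CC σ • (volume : Measure E3)) :=
        lintegral_mono' (gam_le hσ) le_rfl
    _ = CC σ * ∫⁻ y, ‖f (x - y)‖ₑ ^ 2 := by rw [lintegral_smul_measure, smul_eq_mul]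
    _ = CC σ * ∫⁻ y, ‖f y‖ₑ ^ 2 := by
        rw [lintegral_sub_left_eq_self (fun y => ‖f y‖ₑ ^ 2) x]

theorem lintegral_sq_V3 (f : V3) : ∫⁻ y, ‖f y‖ₑ ^ 2 = ‖f‖ₑ ^ 2 := by
  have h1 : ‖f‖ₑ = eLpNorm f 2 (volume : Measure E3) := Lp.enorm_def f
  rw [h1, eLpNorm_eq_lintegral_rpow_enorm_toReal (by norm_num) (by norm_num)]
  simp only [ENNReal.toReal_ofNat]
  rw [← ENNReal.rpow_natCast, ← ENNReal.rpow_mul]
  norm_num

theorem lintegral_sq_lt (f : V3) : ∫⁻ y, ‖f y‖ₑ ^ 2 < ∞ := by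
  rw [lintegral_sq_V3]
  exact ENNReal.pow_lt_top enorm_lt_top

theorem CC_lt (σ : ℝ) : CC σ < ∞ := ENNReal.ofReal_lt_top

section

variable {F : Type*} [NormedAddCommGroup F] [NormedSpace ℝ F]

/-- pointwise integrability -/
theorem integrable_gam {σ : ℝ} (hσ : 0 < σ) {f : E3 → F} (hf : StronglyMeasurable f)
    (h2 : ∫⁻ y, ‖f y‖ₑ ^ 2 < ∞) (x : E3) : Integrable (fun y => f (x - y)) (gam σ) := by
  have := isProb_gam hσ
  refine ⟨(hf.comp_measurable (measurable_const.sub measurable_id)).aestronglyMeasurable, ?_⟩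
  rw [hasFiniteIntegral_iff_enorm]
  have h3 : (∫⁻ y, ‖f (x - y)‖ₑ ∂(gam σ)) ^ 2 < ∞ := by
    refine (sq_lintegral_le ?_).trans_lt ?_
    · exact ((hf.comp_measurable (measurable_const.sub measurable_id)).enorm).aemeasurable
    · exact (sq_gam_le hσ x).trans_lt (ENNReal.mul_lt_top (CC_lt σ) h2)
  by_contra hcon
  push Not at hcon
  rw [top_le_iff.1 hcon] at h3
  simp at h3

theorem heat_congr {σ : ℝ} {f g : E3 → F} (h : f =ᵐ[volume] g) (x : E3) :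
    heat σ f x = heat σ g x := by
  unfold heat
  apply integral_congr_ae
  have h1 : ∀ᵐ y ∂(volume : Measure E3), f (x - y) = g (x - y) := by
    have := (Measure.measurePreserving_sub_left (volume : Measure E3) x).quasiMeasurePreserving.ae h
    exact this
  filter_upwards [h1] with y hy
  rw [hy]

theorem heat_sub {σ : ℝ} (hσ : 0 < σ) {f g : E3 → F} (hf : StronglyMeasurable f)
    (hf2 : ∫⁻ y, ‖f y‖ₑ ^ 2 < ∞) (hg : StronglyMeasurable g) (hg2 : ∫⁻ y, ‖g y‖ₑ ^ 2 < ∞) (x : E3) :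
    heat σ (fun y => f y - g y) x = heat σ f x - heat σ g x := by
  rw [heat_eq hσ, heat_eq hσ, heat_eq hσ]
  exact integral_sub (integrable_gam hσ hf hf2 x) (integrable_gam hσ hg hg2 x)

/-- commutation -/
theorem heat_comm [CompleteSpace F] {σ δ : ℝ} (hσ : 0 < σ) (hδ : 0 < δ) {f : E3 → F}
    (hf : StronglyMeasurable f) (h2 : ∫⁻ y, ‖f y‖ₑ ^ 2 < ∞) (x : E3) :
    heat σ (heat δ f) x = heat δ (heat σ f) x := by
  have i1 := isProb_gam hσ
  have i2 := isProb_gam hδ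
  rw [heat_eq hσ, heat_eq hδ (heat σ f)]
  have e1 : ∀ y : E3, heat δ f (x - y) = ∫ z, f (x - y - z) ∂(gam δ) := fun y => heat_eq hδ f _
  have e2 : ∀ z : E3, heat σ f (x - z) = ∫ y, f (x - y - z) ∂(gam σ) := by
    intro z
    rw [heat_eq hσ]
    congr 1
    ext y
    congr 1
    abel
  simp only [e1, e2]
  apply integral_integral_swap
  have hm : StronglyMeasurable (Function.uncurry fun y z : E3 => f (x - y - z)) :=
    hf.comp_measurable ((measurable_const.sub measurable_fst).sub measurable_snd)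
  refine ⟨hm.aestronglyMeasurable, ?_⟩
  rw [hasFiniteIntegral_iff_enorm, lintegral_prod _ hm.enorm.aemeasurable]
  have h3 : ∀ y : E3, ∫⁻ z, ‖f (x - y - z)‖ₑ ∂(gam δ) ≤ 1 + CC δ * ∫⁻ y, ‖f y‖ₑ ^ 2 := by
    intro y
    have h4 : (∫⁻ z, ‖f (x - y - z)‖ₑ ∂(gam δ)) ^ 2 ≤ CC δ * ∫⁻ y, ‖f y‖ₑ ^ 2 := by
      refine (sq_lintegral_le ?_).trans (sq_gam_le hδ (x - y))
      exact ((hf.comp_measurable (measurable_const.sub measurable_id)).enorm).aemeasurable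
    refine le_trans ?_ (add_le_add_right h4 1)
    set a := ∫⁻ z, ‖f (x - y - z)‖ₑ ∂(gam δ)
    rcases le_total a 1 with h | h
    · exact h.trans (le_add_of_nonneg_right zero_le)
    · calc a = a * 1 := (mul_one a).symm
        _ ≤ a * a := by gcongr
        _ = a ^ 2 := (pow_two a).symm
        _ ≤ 1 + a ^ 2 := le_add_of_nonneg_left zero_le
  refine (lintegral_mono h3).trans_lt ?_
  rw [lintegral_const, measure_univ, mul_one]
  exact ENNReal.add_lt_top.2 ⟨ENNReal.one_lt_top, ENNReal.mul_lt_top (CC_lt δ) h2⟩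

end

/-- the heat extension of a square integrable field -/
theorem memLp_heat {σ : ℝ} (hσ : 0 < σ) (f : V3) : MemLp (heat σ f) 2 (volume : Measure E3) := by
  refine ⟨(stronglyMeasurable_heat hσ (Lp.stronglyMeasurable f)).aestronglyMeasurable, ?_⟩
  rw [eLpNorm_eq_lintegral_rpow_enorm_toReal (by norm_num) (by norm_num)]
  apply ENNReal.rpow_lt_top_of_nonneg (by simp)
  simp only [ENNReal.toReal_ofNat, ENNReal.rpow_ofNat]
  exact ((lintegral_sq_heat_le hσ (Lp.stronglyMeasurable f)).trans_lt (lintegral_sq_lt f)).ne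

/-- `e^{σ Δ} f` as an element of `L²` -/
noncomputable def heatV {σ : ℝ} (hσ : 0 < σ) (f : V3) : V3 := (memLp_heat hσ f).toLp

theorem coe_heatV {σ : ℝ} (hσ : 0 < σ) (f : V3) : (heatV hσ f : E3 → E3) =ᵐ[volume] heat σ f :=
  (memLp_heat hσ f).coeFn_toLp

theorem enorm_le_of_sq {f g : V3} (h : ∫⁻ x, ‖f x‖ₑ ^ 2 ≤ ∫⁻ x, ‖g x‖ₑ ^ 2) : ‖f‖ ≤ ‖g‖ := by
  rw [lintegral_sq_V3, lintegral_sq_V3] at h
  have h4 : ‖f‖ₑ ≤ ‖g‖ₑ := (ENNReal.pow_le_pow_left_iff (two_ne_zero)).1 h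
  rwa [← ofReal_norm, ← ofReal_norm, ENNReal.ofReal_le_ofReal_iff (norm_nonneg _)] at h4

theorem norm_heatV_le {σ : ℝ} (hσ : 0 < σ) (f : V3) : ‖heatV hσ f‖ ≤ ‖f‖ := by
  apply enorm_le_of_sq
  have : ∫⁻ x, ‖(heatV hσ f : E3 → E3) x‖ₑ ^ 2 = ∫⁻ x, ‖heat σ f x‖ₑ ^ 2 := by
    apply lintegral_congr_ae
    filter_upwards [coe_heatV hσ f] with x hx
    rw [hx]
  rw [this]
  exact lintegral_sq_heat_le hσ (Lp.stronglyMeasurable f)

theorem heatV_sub {σ : ℝ} (hσ : 0 < σ) (f g : V3) : heatV hσ (f - g) = heatV hσ f - heatV hσ g := by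
  apply Lp.ext
  filter_upwards [coe_heatV hσ (f - g), coe_heatV hσ f, coe_heatV hσ g,
    Lp.coeFn_sub (heatV hσ f) (heatV hσ g)] with x h1 h2 h3 h4
  rw [h1, h4, Pi.sub_apply, h2, h3, ← heat_sub hσ (Lp.stronglyMeasurable f) (lintegral_sq_lt f)
    (Lp.stronglyMeasurable g) (lintegral_sq_lt g)]
  apply heat_congr
  exact Lp.coeFn_sub f g

theorem norm_heatV_sub_le {σ : ℝ} (hσ : 0 < σ) (f g : V3) :
    ‖heatV hσ f - heatV hσ g‖ ≤ ‖f - g‖ := by
  rw [← heatV_sub]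
  exact norm_heatV_le hσ _

theorem continuous_heatV {σ : ℝ} (hσ : 0 < σ) : Continuous (heatV hσ) := by
  apply LipschitzWith.continuous (K := 1)
  apply LipschitzWith.of_dist_le_mul
  intro f g
  rw [dist_eq_norm, dist_eq_norm, NNReal.coe_one, one_mul]
  exact norm_heatV_sub_le hσ f g

/-- translation of weak derivatives -/
theorem weak_translate {k : Fin 3} {f g : V3} (h : IsWeakDeriv k f g) (φ : 𝓢(E3, E3)) (y : E3) :
    ∫ x, ⟪(∂_{ee k} φ) x, f (x - y)⟫_ℝ = -∫ x, ⟪φ x, g (x - y)⟫_ℝ := by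
  have h1 := h (φ.compSubConstCLM ℝ (-y))
  have e0 : ∀ x : E3, (φ.compSubConstCLM ℝ (-y)) x = φ (x + y) := by
    intro x
    rw [SchwartzMap.compSubConstCLM_apply, sub_neg_eq_add]
  have e1 : ∀ x : E3, (∂_{ee k} (φ.compSubConstCLM ℝ (-y))) x = (∂_{ee k} φ) (x + y) := by
    intro x
    rw [SchwartzMap.lineDerivOp_apply_eq_fderiv, SchwartzMap.lineDerivOp_apply_eq_fderiv]
    have : (φ.compSubConstCLM ℝ (-y) : E3 → E3) = fun x => φ (x + y) := funext e0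
    rw [this, fderiv_comp_add_right]
  simp only [e0, e1] at h1
  have e2 : ∫ x, ⟪(∂_{ee k} φ) x, f (x - y)⟫_ℝ = ∫ x, ⟪(∂_{ee k} φ) (x + y), f x⟫_ℝ := by
    refine (integral_add_right_eq_self (μ := (volume : Measure E3))
      (fun x => ⟪(∂_{ee k} φ) x, f (x - y)⟫_ℝ) y).symm.trans ?_
    simp only [add_sub_cancel_right]
  have e3 : ∫ x, ⟪φ x, g (x - y)⟫_ℝ = ∫ x, ⟪φ (x + y), g x⟫_ℝ := by
    refine (integral_add_right_eq_self (μ := (volume : Measure E3))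
      (fun x => ⟪φ x, g (x - y)⟫_ℝ) y).symm.trans ?_
    simp only [add_sub_cancel_right]
  rw [e2, e3, h1]

theorem integral_inner_heat {σ : ℝ} (hσ : 0 < σ) (φ : 𝓢(E3, E3)) (f : V3) :
    ∫ x, ⟪φ x, heatV hσ f x⟫_ℝ = ∫ y, (∫ x, ⟪φ x, f (x - y)⟫_ℝ) ∂(gam σ) := by
  have i1 := isProb_gam hσ
  have e1 : ∫ x, ⟪φ x, heatV hσ f x⟫_ℝ = ∫ x, ∫ y, ⟪φ x, f (x - y)⟫_ℝ ∂(gam σ) := by
    apply integral_congr_ae
    filter_upwards [coe_heatV hσ f] with x hx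
    rw [hx, heat_eq hσ]
    exact (integral_inner (integrable_gam hσ (Lp.stronglyMeasurable f) (lintegral_sq_lt f) x)
      (φ x)).symm
  rw [e1]
  apply integral_integral_swap
  have hm : StronglyMeasurable (Function.uncurry fun x y : E3 => ⟪φ x, f (x - y)⟫_ℝ) := by
    have m1 : StronglyMeasurable (fun p : E3 × E3 => φ p.1) :=
      φ.continuous.stronglyMeasurable.comp_measurable measurable_fst
    have m2 : StronglyMeasurable (fun p : E3 × E3 => f (p.1 - p.2)) :=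
      (Lp.stronglyMeasurable f).comp_measurable (measurable_fst.sub measurable_snd)
    exact m1.inner m2
  refine ⟨hm.aestronglyMeasurable, ?_⟩
  rw [hasFiniteIntegral_iff_enorm, lintegral_prod _ hm.enorm.aemeasurable]
  have hb : ∀ a b : E3, ‖⟪a, b⟫_ℝ‖ₑ ≤ ‖a‖ₑ ^ 2 + ‖b‖ₑ ^ 2 := by
    intro a b
    have h1 : ‖⟪a, b⟫_ℝ‖ ≤ ‖a‖ ^ 2 + ‖b‖ ^ 2 := by
      refine (norm_inner_le_norm a b).trans ?_
      nlinarith [sq_nonneg (‖a‖ - ‖b‖), norm_nonneg a, norm_nonneg b]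
    rw [← ofReal_norm, ← ofReal_norm, ← ofReal_norm, ← ENNReal.ofReal_pow (norm_nonneg _),
      ← ENNReal.ofReal_pow (norm_nonneg _), ← ENNReal.ofReal_add (by positivity) (by positivity)]
    exact ENNReal.ofReal_le_ofReal h1
  calc ∫⁻ x, ∫⁻ y, ‖Function.uncurry (fun x y : E3 => ⟪φ x, f (x - y)⟫_ℝ) (x, y)‖ₑ ∂(gam σ)
      ≤ ∫⁻ x, ∫⁻ y, (‖φ x‖ₑ ^ 2 + ‖f (x - y)‖ₑ ^ 2) ∂(gam σ) :=
        lintegral_mono fun x => lintegral_mono fun y => hb _ _
    _ = ∫⁻ x, (‖φ x‖ₑ ^ 2 + ∫⁻ y, ‖f (x - y)‖ₑ ^ 2 ∂(gam σ)) := by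
        apply lintegral_congr
        intro x
        rw [lintegral_add_left measurable_const, lintegral_const, measure_univ, mul_one]
    _ = (∫⁻ x, ‖φ x‖ₑ ^ 2) + ∫⁻ x, ∫⁻ y, ‖f (x - y)‖ₑ ^ 2 ∂(gam σ) :=
        lintegral_add_left (φ.continuous.measurable.enorm.pow_const 2) _
    _ < ∞ := by
        rw [lintegral_heat hσ (g := fun x => ‖f x‖ₑ ^ 2)
          ((Lp.stronglyMeasurable f).enorm.pow_const 2)]
        refine ENNReal.add_lt_top.2 ⟨?_, lintegral_sq_lt f⟩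
        have h2 := lintegral_sq_lt (φ.toLp 2 (volume : Measure E3))
        refine lt_of_eq_of_lt ?_ h2
        apply lintegral_congr_ae
        filter_upwards [φ.coeFn_toLp 2 (volume : Measure E3)] with x hx
        rw [hx]

/-- the heat extension commutes with weak derivatives -/
theorem weak_heatV {σ : ℝ} (hσ : 0 < σ) {k : Fin 3} {f g : V3} (h : IsWeakDeriv k f g) :
    IsWeakDeriv k (heatV hσ f) (heatV hσ g) := by
  intro φ
  rw [integral_inner_heat hσ, integral_inner_heat hσ]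
  simp only [weak_translate h]
  rw [integral_neg]

end Pool.Agent.TB
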