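import Pool.Agent.TB.Trunc

/-!
# The measure of a level set
-/

set_option autoImplicit false

namespace Pool.Agent.TB

open MeasureTheory Set Filter Topology Pool.Agent.TO
open scoped ENNReal NNReal Real InnerProductSpace

/-- the squared size of the gradient -/
noncomputable def Dsq (d : Fin 3 → V3) (x : E3) : ℝ≥0∞ := ∑ k, ‖d k x‖ₑ ^ 2

theorem meas_Dsq (d : Fin 3 → V3) : Measurable (Dsq d) := by
  unfold Dsq
  refine Finset.measurable_fun_sum _ fun k _ => ?_
  exact ((Lp.stronglyMeasurable (d k)).enorm.pow_const 2)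

/-- the part of the component above `48 u` -/
noncomputable def Gu (w : V3) (j : Fin 3) (u : ℝ) (z : E3) : ℝ≥0∞ :=
  {z : E3 | 48 * u ≤ |w z j|}.indicator (fun z => ‖w z j‖ₑ) z

theorem meas_comp (w : V3) (j : Fin 3) : Measurable fun z => w z j := by
  have h1 : Measurable (w : E3 → E3) := (Lp.stronglyMeasurable w).measurable
  exact ((EuclideanSpace.proj (𝕜 := ℝ) j).continuous.measurable).comp h1

theorem meas_Gu (w : V3) (j : Fin 3) (u : ℝ) : Measurable (Gu w j u) := by
  unfold Gu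
  exact Measurable.indicator (meas_comp w j).enorm
    (measurableSet_le measurable_const (meas_comp w j).abs)

theorem diff_le {u : ℝ} (hu : 0 < u) (w : V3) (j : Fin 3) (z : E3) :
    ‖Fu j u (w z) - w z j‖ₑ ≤ ENNReal.ofReal (2 * u) + Gu w j u z := by
  have e1 : Fu j u (w z) - w z j = -(u * (w z j / u - Tr (w z j / u))) := by
    simp only [Fu]
    field_simp
    ring
  have e2 : ‖Fu j u (w z) - w z j‖ = u * |w z j / u - Tr (w z j / u)| := by
    rw [e1, norm_neg, norm_mul, Real.norm_of_nonneg hu.le, Real.norm_eq_abs]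
  rw [← ofReal_norm, e2]
  rcases abs_sub_Tr_le (w z j / u) with h | ⟨h1, h2⟩
  · refine le_trans (ENNReal.ofReal_le_ofReal ?_) (le_add_of_nonneg_right zero_le)
    calc u * |w z j / u - Tr (w z j / u)| ≤ u * 2 := by gcongr
      _ = 2 * u := by ring
  · refine le_trans ?_ (le_add_of_nonneg_left zero_le)
    rw [abs_div, abs_of_pos hu, le_div_iff₀ hu] at h1
    rw [Gu, indicator_of_mem (show z ∈ {z : E3 | 48 * u ≤ |w z j|} from h1), ← ofReal_norm]
    apply ENNReal.ofReal_le_ofReal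
    rw [Real.norm_eq_abs]
    calc u * |w z j / u - Tr (w z j / u)| ≤ u * |w z j / u| := by gcongr
      _ = |w z j| := by
          rw [abs_div, abs_of_pos hu]
          field_simp

theorem abs_Fu_le (j : Fin 3) {u : ℝ} (hu : 0 < u) (z : E3) : |Fu j u z| ≤ ‖z‖ := by
  have := (lip_Fu j hu).dist_le_mul z 0
  rw [Fu_zero, Real.dist_eq, dist_eq_norm, NNReal.coe_one, one_mul, sub_zero, sub_zero] at this
  exact this

theorem level_pointwise {w : V3} (j : Fin 3) {u σ : ℝ} (hu : 0 < u) (hσ : 0 < σ)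
    (hb : ∀ x, ‖heat σ w x‖ ≤ u) (x : E3) (hx : 8 * u ≤ |w x j|)
    (h1 : ‖Fu j u (w x) • ee 0 - heat σ (fun y => Fu j u (w y) • ee 0) x‖ < u) :
    ENNReal.ofReal u ≤ ∫⁻ y, Gu w j u (x - y) ∂(gam σ) := by
  have i0 := isProb_gam hσ
  by_contra hcon
  push Not at hcon
  have iw : Integrable (fun y => w (x - y)) (gam σ) :=
    integrable_gam hσ (Lp.stronglyMeasurable w) (lintegral_sq_lt w) x
  have iwj : Integrable (fun y => w (x - y) j) (gam σ) :=
    (EuclideanSpace.proj (𝕜 := ℝ) j : E3 →L[ℝ] ℝ).integrable_comp iw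
  have iF : Integrable (fun y => Fu j u (w (x - y))) (gam σ) := by
    refine iw.norm.mono' ?_ (Eventually.of_forall fun y => abs_Fu_le j hu _)
    exact (lip_Fu j hu).continuous.comp_aestronglyMeasurable iw.1
  set H : ℝ := ∫ y, Fu j u (w (x - y)) ∂(gam σ) with hH
  have e1 : heat σ (fun y => Fu j u (w y) • ee 0) x = H • ee 0 := by
    rw [heat_eq hσ, integral_smul_const]
  have e2 : ∫ y, w (x - y) j ∂(gam σ) = (heat σ w x) j := by
    rw [heat_eq hσ]
    exact (EuclideanSpace.proj (𝕜 := ℝ) j : E3 →L[ℝ] ℝ).integral_comp_comm iw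
  rw [e1, ← sub_smul, norm_smul, norm_ee, mul_one, Real.norm_eq_abs] at h1
  have h2 : |(heat σ w x) j| ≤ u := (abs_coord_le _ _).trans (hb x)
  have h3 : |H - (heat σ w x) j| ≤ 3 * u := by
    rw [← e2, hH, ← integral_sub iF iwj]
    have h4 : ‖∫ y, (Fu j u (w (x - y)) - w (x - y) j) ∂(gam σ)‖ₑ ≤ ENNReal.ofReal (3 * u) := by
      refine (enorm_integral_le_lintegral_enorm _).trans ?_
      calc ∫⁻ y, ‖Fu j u (w (x - y)) - w (x - y) j‖ₑ ∂(gam σ)
          ≤ ∫⁻ y, (ENNReal.ofReal (2 * u) + Gu w j u (x - y)) ∂(gam σ) :=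
            lintegral_mono fun y => diff_le hu w j (x - y)
        _ = ENNReal.ofReal (2 * u) + ∫⁻ y, Gu w j u (x - y) ∂(gam σ) := by
            rw [lintegral_add_left measurable_const, lintegral_const, measure_univ, mul_one]
        _ ≤ ENNReal.ofReal (2 * u) + ENNReal.ofReal u := by gcongr
        _ = ENNReal.ofReal (3 * u) := by
            rw [← ENNReal.ofReal_add (by positivity) hu.le]
            congr 1
            ring
    rw [← ofReal_norm, ENNReal.ofReal_le_ofReal_iff (by positivity)] at h4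
    exact h4
  have h5 : 6 * u ≤ |Fu j u (w x)| := by
    have : 8 ≤ |w x j / u| := by
      rw [abs_div, abs_of_pos hu, le_div_iff₀ hu]
      exact hx
    have h6 := six_le_abs_Tr this
    rw [Fu, abs_mul, abs_of_pos hu]
    nlinarith
  have h6 : |Fu j u (w x)| ≤ |Fu j u (w x) - H| + |H - (heat σ w x) j| + |(heat σ w x) j| := by
    have e : Fu j u (w x) = (Fu j u (w x) - H) + (H - (heat σ w x) j) + (heat σ w x) j := by ring
    calc |Fu j u (w x)| = |(Fu j u (w x) - H) + (H - (heat σ w x) j) + (heat σ w x) j| := by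
          rw [← e]
      _ ≤ _ := (abs_add_le _ _).trans (by gcongr; exact abs_add_le _ _)
  linarith

/-- the level estimate -/
theorem level {w : V3} {d : Fin 3 → V3} (h : ∀ k, IsWeakDeriv k w (d k)) (j : Fin 3) {u σ : ℝ}
    (hu : 0 < u) (hσ : 0 < σ) (hb : ∀ x, ‖heat σ w x‖ ≤ u) :
    volume {x | 8 * u ≤ |w x j|} ≤ ENNReal.ofReal (24 * σ / u ^ 2) *
        (∫⁻ x in {x | u ≤ |w x j| ∧ |w x j| ≤ 49 * u}, Dsq d x) +
      ENNReal.ofReal (1 / u) * ∫⁻ x, Gu w j u x := by
  set Q : V3 := (lip_e0 (lip_Fu j hu)).compLp (by simp [Fu_zero]) w with hQ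
  set DQ : Fin 3 → V3 := fun k =>
    (memLp_DQ (lip_Phu j hu).continuous (norm_Phu_le j u) w (d k)).toLp with hDQ
  set A : Set E3 := {x | u ≤ |w x j| ∧ |w x j| ≤ 49 * u} with hA
  have hAm : MeasurableSet A := (measurableSet_le measurable_const (meas_comp w j).abs).inter
    (measurableSet_le (meas_comp w j).abs measurable_const)
  have hQD : ∀ k, IsWeakDeriv k Q (DQ k) := fun k =>
    chain (hasFDerivAt_Fu j hu) (lip_Fu j hu) (Fu_zero j u) (lip_Phu j hu) (Phu_zero j u)
      (norm_Phu_le j u) d h rfl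
  have hP := poincare hσ hQD
  -- the gradient of the truncation
  have hD1 : ∀ k, ∫⁻ x, ‖DQ k x‖ₑ ^ 2 ≤ ∫⁻ x in A, ‖d k x‖ₑ ^ 2 := by
    intro k
    rw [← lintegral_indicator hAm]
    apply lintegral_mono_ae
    filter_upwards [(memLp_DQ (lip_Phu j hu).continuous (norm_Phu_le j u) w (d k)).coeFn_toLp]
      with x hx
    rw [hDQ]
    simp only
    rw [hx]
    by_cases hxA : x ∈ A
    · rw [indicator_of_mem hxA]
      have h1 : ‖⟪Phu j u (w x), d k x⟫_ℝ • ee 0‖ ≤ ‖d k x‖ := by
        rw [norm_smul, norm_ee, mul_one]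
        refine (norm_inner_le_norm _ _).trans ?_
        calc ‖Phu j u (w x)‖ * ‖d k x‖ ≤ 1 * ‖d k x‖ := by
              gcongr
              exact norm_Phu_le j u _
          _ = ‖d k x‖ := one_mul _
      have h2 : ‖⟪Phu j u (w x), d k x⟫_ℝ • ee 0‖ₑ ≤ ‖d k x‖ₑ := by
        rw [← ofReal_norm, ← ofReal_norm]
        exact ENNReal.ofReal_le_ofReal h1
      gcongr
    · rw [indicator_of_notMem hxA]
      have h1 : chi (w x j / u) = 0 := by
        apply chi_zero_of
        rw [abs_div, abs_of_pos hu]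
        by_contra hcon
        push Not at hcon
        apply hxA
        refine ⟨?_, ?_⟩
        · have := hcon.1
          rwa [le_div_iff₀ hu, one_mul] at this
        · have := hcon.2
          rwa [div_le_iff₀ hu] at this
      simp [Phu, h1]
  have hD2 : ENNReal.ofReal (∑ k, ‖DQ k‖ ^ 2) ≤ ∫⁻ x in A, Dsq d x := by
    rw [ENNReal.ofReal_sum_of_nonneg (fun k _ => by positivity)]
    unfold Dsq
    rw [lintegral_finsetSum _ (fun k _ => (Lp.stronglyMeasurable (d k)).enorm.pow_const 2)]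
    refine Finset.sum_le_sum fun k _ => ?_
    rw [← enorm_sq_ofReal, ← lintegral_sq_V3]
    exact hD1 k
  have hP2 : ∫⁻ x, ‖(Q - heatV hσ Q : V3) x‖ₑ ^ 2 ≤
      ENNReal.ofReal (24 * σ) * ∫⁻ x in A, Dsq d x := by
    rw [lintegral_sq_V3, enorm_sq_ofReal]
    refine (ENNReal.ofReal_le_ofReal hP).trans ?_
    rw [ENNReal.ofReal_mul (by positivity)]
    gcongr
  -- the inclusion of the level set
  have hincl : volume {x | 8 * u ≤ |w x j|} ≤
      volume {x | ENNReal.ofReal (u ^ 2) ≤ ‖(Q - heatV hσ Q : V3) x‖ₑ ^ 2} +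
      volume {x | ENNReal.ofReal u ≤ ∫⁻ y, Gu w j u (x - y) ∂(gam σ)} := by
    refine le_trans (measure_mono_ae ?_) (measure_union_le _ _)
    have hQc := (lip_e0 (lip_Fu j hu)).coeFn_compLp (by simp [Fu_zero]) w
    filter_upwards [Lp.coeFn_sub Q (heatV hσ Q), coe_heatV hσ Q, hQc] with x g1 g2 g3
    intro hx
    change 8 * u ≤ |w x j| at hx
    by_cases hc : ‖Fu j u (w x) • ee 0 - heat σ (fun y => Fu j u (w y) • ee 0) x‖ < u
    · right
      exact level_pointwise j hu hσ hb x hx hc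
    · left
      push Not at hc
      change ENNReal.ofReal (u ^ 2) ≤ ‖(Q - heatV hσ Q : V3) x‖ₑ ^ 2
      have e1 : (Q - heatV hσ Q : V3) x = Fu j u (w x) • ee 0 -
          heat σ (fun y => Fu j u (w y) • ee 0) x := by
        rw [g1, Pi.sub_apply, g2, g3]
        rw [heat_congr hQc]
        rfl
      rw [e1, ← ofReal_norm, ← ENNReal.ofReal_pow (norm_nonneg _)]
      exact ENNReal.ofReal_le_ofReal (pow_le_pow_left₀ hu.le hc 2)
  refine hincl.trans (add_le_add ?_ ?_)
  · have hm : AEMeasurable (fun x => ‖(Q - heatV hσ Q : V3) x‖ₑ ^ 2) (volume : Measure E3) :=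
      ((Lp.stronglyMeasurable (Q - heatV hσ Q)).enorm.pow_const 2).aemeasurable
    have hu2 : ENNReal.ofReal (u ^ 2) ≠ 0 := by
      rw [Ne, ENNReal.ofReal_eq_zero]
      push Not
      positivity
    refine (meas_ge_le_lintegral_div hm hu2 ENNReal.ofReal_ne_top).trans ?_
    rw [ENNReal.div_eq_inv_mul, ← ENNReal.ofReal_inv_of_pos (by positivity)]
    calc ENNReal.ofReal (u ^ 2)⁻¹ * ∫⁻ x, ‖(Q - heatV hσ Q : V3) x‖ₑ ^ 2
        ≤ ENNReal.ofReal (u ^ 2)⁻¹ * (ENNReal.ofReal (24 * σ) * ∫⁻ x in A, Dsq d x) := by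
          gcongr
      _ = ENNReal.ofReal (24 * σ / u ^ 2) * ∫⁻ x in A, Dsq d x := by
          rw [← mul_assoc, ← ENNReal.ofReal_mul (by positivity)]
          congr 2
          rw [div_eq_inv_mul]
  · have hm : AEMeasurable (fun x => ∫⁻ y, Gu w j u (x - y) ∂(gam σ)) (volume : Measure E3) := by
      have i0 := isProb_gam hσ
      have : Measurable (Function.uncurry fun x y : E3 => Gu w j u (x - y)) :=
        (meas_Gu w j u).comp (measurable_fst.sub measurable_snd)
      exact this.lintegral_prod_right'.aemeasurable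
    have hu1 : ENNReal.ofReal u ≠ 0 := by
      rw [Ne, ENNReal.ofReal_eq_zero]
      push Not
      exact hu
    refine (meas_ge_le_lintegral_div hm hu1 ENNReal.ofReal_ne_top).trans ?_
    rw [lintegral_heat hσ (meas_Gu w j u), ENNReal.div_eq_inv_mul,
      ← ENNReal.ofReal_inv_of_pos hu, one_div]

end Pool.Agent.TB
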