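import Pool.Agent.TO.Main
import Pool.Agent.TB.En

/-!
# The energy equality for the difference, square integrable nonlinear term
-/

set_option autoImplicit false

namespace Pool.Agent.TB

open MeasureTheory Set Filter Topology Pool.Agent.TO
open scoped SchwartzMap InnerProductSpace LineDeriv Laplacian ENNReal FourierTransform ComplexConjugate
open scoped Real

variable {T : ℝ} {u₀ : V3} {u v : ℝ → V3} {ν : ℝ → ℝ}

/-- the gradient of the difference -/
theorem exists_grad_sub (hu : IsLeray T u₀ u) (hv : IsLeray T u₀ v) : ∃ D : ℝ → Fin 3 → V3,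
    (∀ᵐ t ∂(volume.restrict (Ioo 0 T)), ∀ k, IsWeakDeriv k (v t - u t) (D t k)) ∧
    ∀ t ∈ Ico 0 T, IntegrableOn (fun τ => ∑ k, ‖D τ k‖ ^ 2) (Ioo 0 t) volume := by
  obtain ⟨D, h1, h2⟩ := hu.exists_grad
  obtain ⟨D', h1', h2'⟩ := hv.exists_grad
  have h3 : ∀ᵐ t ∂(volume.restrict (Ioo 0 T)), ∀ k,
      IsWeakDeriv k (v t - u t) (D' t k - D t k) := by
    filter_upwards [h1, h1'] with τ g g' k
    exact (g' k).sub (g k)
  refine ⟨fun t k => D' t k - D t k, h3, fun t ht => ?_⟩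
  have hsub : Ioo 0 t ⊆ Ioo 0 T := Ioo_subset_Ioo le_rfl ht.2.le
  refine Integrable.mono' (((h2' t ht).const_mul 2).add ((h2 t ht).const_mul 2)) ?_ ?_
  · refine Finset.aestronglyMeasurable_fun_sum _ fun k _ => ?_
    have h4 : AEStronglyMeasurable (fun τ => ‖D' τ k - D τ k‖) (volume.restrict (Ioo 0 t)) := by
      apply meas_weak (k := k) (f := fun τ => v τ - u τ)
        ((hv.meas.sub hu.meas).mono_measure (Measure.restrict_mono hsub le_rfl))
      filter_upwards [ae_restrict_of_ae_restrict_of_subset hsub h3] with τ hτ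
      exact hτ k
    exact h4.pow 2
  · refine Eventually.of_forall fun τ => ?_
    rw [Real.norm_of_nonneg (Finset.sum_nonneg fun k _ => by positivity)]
    exact sum_sq_sub_le _ _

/-- the energy equality for the difference -/
theorem PairN.energy_eq (P : PairN T u₀ u v ν) {D : ℝ → Fin 3 → V3}
    (hD : ∀ᵐ t ∂(volume.restrict (Ioo 0 T)), ∀ k, IsWeakDeriv k (v t - u t) (D t k))
    (hDi : ∀ t ∈ Ico 0 T, IntegrableOn (fun τ => ∑ k, ‖D τ k‖ ^ 2) (Ioo 0 t) volume)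
    {s t : ℝ} (hs : 0 < s) (hst : s ≤ t) (ht : t < T) :
    IntegrableOn (fun τ => -(∑ k, ‖D τ k‖ ^ 2) + ∑ k, ⟪D τ k, NN k (u τ) (v τ)⟫_ℝ) (Ioo s t)
      volume ∧
    ‖v t - u t‖ ^ 2 - ‖v s - u s‖ ^ 2 =
      2 * ∫ τ in Ioo s t, (-(∑ k, ‖D τ k‖ ^ 2) + ∑ k, ⟪D τ k, NN k (u τ) (v τ)⟫_ℝ) := by
  set g : ℝ → ℝ := fun τ => -(∑ k, ‖D τ k‖ ^ 2) + ∑ k, ⟪D τ k, NN k (u τ) (v τ)⟫_ℝ with hg
  set F : ℕ → ℝ → ℝ := fun n τ => dia n (u τ) (v τ) with hF
  set M : ℝ → ℝ := fun τ => 2 * ∑ k, ‖D τ k‖ ^ 2 + ν τ ^ 2 with hM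
  have hsubT : Ioo s t ⊆ Ioo 0 T := Ioo_subset_Ioo hs.le ht.le
  have hsub0 : Ioo s t ⊆ Ioo 0 t := Ioo_subset_Ioo hs.le le_rfl
  have hD' := ae_restrict_of_ae_restrict_of_subset hsubT hD
  have hMi : IntegrableOn M (Ioo s t) volume := by
    have i1 := (hDi t ⟨hs.le.trans hst, ht⟩).mono_set hsub0
    have i2 := P.hν2 s t hs hst ht
    rw [intervalIntegrable_iff_integrableOn_Ioo_of_le hst] at i2
    exact (i1.const_mul 2).add i2
  have hFi : ∀ n, IntegrableOn (F n) (Ioo s t) volume := by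
    intro n
    have := (P.energy_PP n hs.le hst ht).2.1
    rwa [intervalIntegrable_iff_integrableOn_Ioo_of_le hst] at this
  have hlim : ∀ᵐ τ ∂(volume.restrict (Ioo s t)), Tendsto (fun n => F n τ) atTop (𝓝 (g τ)) := by
    filter_upwards [hD'] with τ h1
    have h2 : ∀ k, Tendsto (fun n : ℕ => DD k n (cplx (v τ - u τ))) atTop (𝓝 (cplx (D τ k))) := by
      intro k
      refine (tendsto_PP (cplx (D τ k))).congr fun n => ?_
      rw [(h1 k).DD_eq]
    have h3 : Tendsto (fun n : ℕ => F n τ) atTop (𝓝 (-(∑ k, ‖cplx (D τ k)‖ ^ 2) +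
        ∑ k, RCLike.re ⟪cplx (D τ k), cplx (NN k (u τ) (v τ))⟫_ℂ)) := by
      simp only [hF]
      unfold dia
      refine Tendsto.add ?_ ?_
      · exact (tendsto_finsetSum _ fun k _ => ((h2 k).norm.pow 2)).neg
      · refine tendsto_finsetSum _ fun k _ => ?_
        exact (RCLike.continuous_re.tendsto _).comp ((h2 k).inner tendsto_const_nhds)
    convert h3 using 2
    simp only [hg, norm_cplx, inner_cplx]
    congr 1
  have hbound : ∀ n, ∀ᵐ τ ∂(volume.restrict (Ioo s t)), ‖F n τ‖ ≤ M τ := by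
    intro n
    filter_upwards [hD', P.ae_bd hs.le ht.le] with τ h1 h2
    have e0 : ∀ k, ‖DD k n (cplx (v τ - u τ))‖ ≤ ‖D τ k‖ := by
      intro k
      rw [(h1 k).DD_eq, ← norm_cplx (D τ k)]
      exact norm_PP_le _ _
    have e1 : ∑ k, ‖DD k n (cplx (v τ - u τ))‖ ^ 2 ≤ ∑ k, ‖D τ k‖ ^ 2 :=
      Finset.sum_le_sum fun k _ => pow_le_pow_left₀ (norm_nonneg _) (e0 k) 2
    have e2 : |∑ k, RCLike.re ⟪DD k n (cplx (v τ - u τ)), cplx (NN k (u τ) (v τ))⟫_ℂ| ≤
        √(∑ k, ‖D τ k‖ ^ 2) * √(∑ k, ‖NN k (u τ) (v τ)‖ ^ 2) := by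
      refine (Finset.abs_sum_le_sum_abs _ _).trans ?_
      calc ∑ k, |RCLike.re ⟪DD k n (cplx (v τ - u τ)), cplx (NN k (u τ) (v τ))⟫_ℂ|
          ≤ ∑ k, ‖D τ k‖ * ‖NN k (u τ) (v τ)‖ := by
            refine Finset.sum_le_sum fun k _ => ?_
            refine (RCLike.abs_re_le_norm _).trans ?_
            refine (norm_inner_le_norm _ _).trans ?_
            rw [norm_cplx]
            exact mul_le_mul_of_nonneg_right (e0 k) (norm_nonneg _)
        _ ≤ _ := Real.sum_mul_le_sqrt_mul_sqrt _ _ _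
    have e3 := h2.2
    have e4 : √(∑ k, ‖D τ k‖ ^ 2) * √(∑ k, ‖NN k (u τ) (v τ)‖ ^ 2) ≤
        ∑ k, ‖D τ k‖ ^ 2 + ∑ k, ‖NN k (u τ) (v τ)‖ ^ 2 := by
      have g1 := Real.sq_sqrt (Finset.sum_nonneg fun k (_ : k ∈ (Finset.univ : Finset (Fin 3))) =>
        sq_nonneg ‖D τ k‖)
      have g2 := Real.sq_sqrt (Finset.sum_nonneg fun k (_ : k ∈ (Finset.univ : Finset (Fin 3))) =>
        sq_nonneg ‖NN k (u τ) (v τ)‖)
      nlinarith [sq_nonneg (√(∑ k, ‖D τ k‖ ^ 2) - √(∑ k, ‖NN k (u τ) (v τ)‖ ^ 2)),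
        Real.sqrt_nonneg (∑ k, ‖D τ k‖ ^ 2), Real.sqrt_nonneg (∑ k, ‖NN k (u τ) (v τ)‖ ^ 2)]
    have e5 : 0 ≤ ∑ k, ‖DD k n (cplx (v τ - u τ))‖ ^ 2 :=
      Finset.sum_nonneg fun k _ => by positivity
    simp only [hF, hM]
    unfold dia
    rw [Real.norm_eq_abs]
    refine (abs_add_le _ _).trans ?_
    rw [abs_neg, abs_of_nonneg e5]
    linarith
  have hgi : IntegrableOn g (Ioo s t) volume := by
    refine Integrable.mono' hMi (aestronglyMeasurable_of_tendsto_ae atTop (fun n => (hFi n).1)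
      hlim) ?_
    filter_upwards [hlim, ae_all_iff.2 hbound] with τ h1 h2
    exact le_of_tendsto h1.norm (Eventually.of_forall h2)
  refine ⟨hgi, ?_⟩
  have lim1 : Tendsto (fun n => 2 * ∫ τ in Ioo s t, F n τ) atTop
      (𝓝 (2 * ∫ τ in Ioo s t, g τ)) :=
    (tendsto_integral_of_dominated_convergence M (fun n => (hFi n).1) hMi hbound hlim).const_mul 2
  have lim2 : Tendsto (fun n : ℕ => ‖PP n (cplx (v t - u t))‖ ^ 2 -
      ‖PP n (cplx (v s - u s))‖ ^ 2) atTop (𝓝 (‖v t - u t‖ ^ 2 - ‖v s - u s‖ ^ 2)) := by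
    have := ((tendsto_PP (cplx (v t - u t))).norm.pow 2).sub
      ((tendsto_PP (cplx (v s - u s))).norm.pow 2)
    rwa [norm_cplx, norm_cplx] at this
  have heq : ∀ n : ℕ, ‖PP n (cplx (v t - u t))‖ ^ 2 - ‖PP n (cplx (v s - u s))‖ ^ 2 =
      2 * ∫ τ in Ioo s t, F n τ := by
    intro n
    rw [(P.energy_PP n hs.le hst ht).2.2, intervalIntegral.integral_of_le hst,
      integral_Ioc_eq_integral_Ioo]
  simp only [heq] at lim2
  exact tendsto_nhds_unique lim2 lim1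

/-- continuity of the energy of the difference -/
theorem PairN.cont (P : PairN T u₀ u v ν) : ContinuousOn (fun t => ‖v t - u t‖ ^ 2) (Ico 0 T) := by
  intro t ht
  rcases ht.1.eq_or_lt with h | h
  · subst h
    have hT : 0 < T := ht.2
    have h1 := (((P.hu.tendsto_zero hT).add (P.hv.tendsto_zero hT)).const_mul 2)
    rw [add_zero, mul_zero] at h1
    have h2 : ‖v 0 - u 0‖ ^ 2 = 0 := by rw [P.hu.init, P.hv.init]; simp
    rw [ContinuousWithinAt, h2]
    exact squeeze_zero (fun t => by positivity) (fun t => sq_norm_sub_le (v t) (u t) u₀) h1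
  · obtain ⟨D, hD, hDi⟩ := exists_grad_sub P.hu P.hv
    set g : ℝ → ℝ := fun τ => -(∑ k, ‖D τ k‖ ^ 2) + ∑ k, ⟪D τ k, NN k (u τ) (v τ)⟫_ℝ with hg
    set s : ℝ := t / 2 with hs
    set t₁ : ℝ := (t + T) / 2 with ht₁
    have htT := ht.2
    have hs0 : 0 < s := by positivity
    have hst : s < t := by rw [hs]; linarith
    have htt : t < t₁ := by rw [ht₁]; linarith
    have htT' : t₁ < T := by rw [ht₁]; linarith
    have hgi := (P.energy_eq hD hDi hs0 (hst.le.trans htt.le) htT').1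
    have hi : IntervalIntegrable g volume s t₁ := by
      rwa [intervalIntegrable_iff_integrableOn_Ioo_of_le (hst.le.trans htt.le)]
    have hc := intervalIntegral.continuousOn_primitive_interval (a := s) (b := t₁) (μ := volume)
      (f := g) (by
        rw [uIcc_of_le (hst.le.trans htt.le)]
        rwa [intervalIntegrable_iff_integrableOn_Icc_of_le (hst.le.trans htt.le)] at hi)
    rw [uIcc_of_le (hst.le.trans htt.le)] at hc
    have hE : ∀ x ∈ Icc s t₁, ‖v x - u x‖ ^ 2 = ‖v s - u s‖ ^ 2 + 2 * ∫ τ in s..x, g τ := by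
      intro x hx
      have h1 := (P.energy_eq hD hDi hs0 hx.1 (hx.2.trans_lt htT')).2
      rw [intervalIntegral.integral_of_le hx.1, integral_Ioc_eq_integral_Ioo]
      linarith
    have hc2 : ContinuousOn (fun x => ‖v x - u x‖ ^ 2) (Icc s t₁) :=
      ((hc.const_mul 2).const_add (‖v s - u s‖ ^ 2)).congr hE
    exact (hc2.continuousAt (Icc_mem_nhds hst htt)).continuousWithinAt

end Pool.Agent.TB
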