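import Mathlib

/-!
# A weighted estimate: `∫₀ᵗ √G ≤ 2 η √t` if `∫_{s/4}^s G ≤ η²` for all `s ≤ t`
-/

set_option autoImplicit false

namespace Pool.Agent.TB

open MeasureTheory Set Filter Topology
open scoped Real

theorem sqrt_int_step {G : ℝ → ℝ} {s s' η : ℝ} (hs : 0 < s) (hs' : s' ≤ s) (h0 : 0 ≤ s')
    (hη : 0 < η) (hG : ∀ τ, 0 ≤ G τ) (hGi : IntervalIntegrable G volume s' s)
    (hsq : IntervalIntegrable (fun τ => √(G τ)) volume s' s)
    (h : ∫ τ in s'..s, G τ ≤ η ^ 2) : ∫ τ in s'..s, √(G τ) ≤ η * √s := by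
  have hs0 := Real.sqrt_pos.2 hs
  have hss := Real.sq_sqrt hs.le
  have hpt : ∀ τ, √(G τ) ≤ √s / (2 * η) * G τ + η / (2 * √s) := by
    intro τ
    have h1 := Real.sq_sqrt (hG τ)
    have h2 : √s / (2 * η) * G τ + η / (2 * √s) - √(G τ) =
        (√s * √(G τ) - η) ^ 2 / (2 * η * √s) := by
      field_simp
      rw [← h1]
      ring_nf
      rw [Real.sqrt_sq (Real.sqrt_nonneg _)]
    have h3 : 0 ≤ (√s * √(G τ) - η) ^ 2 / (2 * η * √s) := by positivity
    linarith
  calc ∫ τ in s'..s, √(G τ) ≤ ∫ τ in s'..s, (√s / (2 * η) * G τ + η / (2 * √s)) :=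
        intervalIntegral.integral_mono_on hs' hsq ((hGi.const_mul _).add (by simp))
          fun τ _ => hpt τ
    _ = √s / (2 * η) * (∫ τ in s'..s, G τ) + η / (2 * √s) * (s - s') := by
        rw [intervalIntegral.integral_add (hGi.const_mul _) (by simp),
          intervalIntegral.integral_const_mul, intervalIntegral.integral_const, smul_eq_mul]
        ring
    _ ≤ √s / (2 * η) * η ^ 2 + η / (2 * √s) * s := by
        gcongr
        linarith
    _ = η * √s := by
        field_simp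
        nlinarith

theorem weighted_pos {G : ℝ → ℝ} {t η : ℝ} (ht : 0 < t) (hη : 0 < η) (hG : ∀ τ, 0 ≤ G τ)
    (hGi : IntervalIntegrable G volume 0 t)
    (h : ∀ s, 0 < s → s ≤ t → ∫ τ in (s / 4)..s, G τ ≤ η ^ 2) :
    IntervalIntegrable (fun τ => √(G τ)) volume 0 t ∧ ∫ τ in (0:ℝ)..t, √(G τ) ≤ 2 * η * √t := by
  have hsq : IntervalIntegrable (fun τ => √(G τ)) volume 0 t := by
    rw [intervalIntegrable_iff_integrableOn_Ioo_of_le ht.le] at hGi ⊢
    have hb : IntegrableOn (fun τ => 1 + G τ) (Ioo 0 t) volume :=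
      (integrableOn_const (by simp)).add hGi
    refine Integrable.mono' hb ?_ ?_
    · exact hGi.1.aemeasurable.sqrt.aestronglyMeasurable
    · refine Eventually.of_forall fun τ => ?_
      rw [Real.norm_of_nonneg (Real.sqrt_nonneg _), Real.sqrt_le_left (by linarith [hG τ])]
      nlinarith [hG τ]
  refine ⟨hsq, ?_⟩
  have hsub : ∀ {f : ℝ → ℝ}, IntervalIntegrable f volume 0 t → ∀ {x z : ℝ}, x ∈ Icc 0 t →
      z ∈ Icc 0 t → IntervalIntegrable f volume x z := by
    intro f hf x z hx hz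
    apply hf.mono_set
    rw [uIcc_of_le ht.le]
    exact ordConnected_Icc.uIcc_subset hx hz
  have hmem : ∀ n : ℕ, t / 4 ^ n ∈ Icc 0 t := by
    intro n
    refine ⟨by positivity, ?_⟩
    apply div_le_self ht.le
    exact one_le_pow₀ (by norm_num)
  have htt : t ∈ Icc 0 t := ⟨ht.le, le_rfl⟩
  have hstep : ∀ n : ℕ, ∫ τ in (t / 4 ^ n)..t, √(G τ) ≤ 2 * η * √t * (1 - 1 / 2 ^ n) := by
    intro n
    induction n with
    | zero => simp
    | succ n ih =>
      rw [← intervalIntegral.integral_add_adjacent_intervals (b := t / 4 ^ n)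
        (hsub hsq (hmem (n + 1)) (hmem n)) (hsub hsq (hmem n) htt)]
      have e1 : t / 4 ^ (n + 1) = t / 4 ^ n / 4 := by
        rw [pow_succ]
        field_simp
      have hp : 0 < t / 4 ^ n := by positivity
      have h1 : ∫ τ in (t / 4 ^ (n + 1))..(t / 4 ^ n), √(G τ) ≤ η * √(t / 4 ^ n) := by
        apply sqrt_int_step hp _ (hmem (n + 1)).1 hη hG (hsub hGi (hmem (n + 1)) (hmem n))
          (hsub hsq (hmem (n + 1)) (hmem n))
        · rw [e1]
          exact h _ hp (hmem n).2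
        · rw [e1]
          linarith
      have e2 : √(t / 4 ^ n) = √t / 2 ^ n := by
        rw [Real.sqrt_div ht.le]
        congr 1
        rw [show (4:ℝ) = 2 ^ 2 by norm_num, ← pow_mul, mul_comm, pow_mul,
          Real.sqrt_sq (by positivity)]
      rw [e2] at h1
      have e3 : η * (√t / 2 ^ n) + 2 * η * √t * (1 - 1 / 2 ^ n) =
          2 * η * √t * (1 - 1 / 2 ^ (n + 1)) := by
        rw [pow_succ]
        field_simp
        ring
      linarith
  have hPc : ContinuousOn (fun x => ∫ τ in (0:ℝ)..x, √(G τ)) (Icc 0 t) := by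
    have := intervalIntegral.continuousOn_primitive_interval (a := 0) (b := t) (μ := volume)
      (f := fun τ => √(G τ)) (by
        rw [uIcc_of_le ht.le]
        rwa [intervalIntegrable_iff_integrableOn_Icc_of_le ht.le] at hsq)
    rwa [uIcc_of_le ht.le] at this
  have hx : Tendsto (fun n : ℕ => t / 4 ^ n) atTop (𝓝[Icc 0 t] 0) := by
    rw [tendsto_nhdsWithin_iff]
    refine ⟨?_, Eventually.of_forall hmem⟩
    have h1 : Tendsto (fun n : ℕ => t * (1 / 4 : ℝ) ^ n) atTop (𝓝 (t * 0)) :=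
      (tendsto_pow_atTop_nhds_zero_of_lt_one (by norm_num) (by norm_num)).const_mul t
    rw [mul_zero] at h1
    refine h1.congr fun n => ?_
    rw [one_div, inv_pow, div_eq_mul_inv]
  have hlim : Tendsto (fun n : ℕ => (∫ τ in (0:ℝ)..(t / 4 ^ n), √(G τ)) + 2 * η * √t) atTop
      (𝓝 (0 + 2 * η * √t)) := by
    apply Tendsto.add_const
    have := ((hPc 0 ⟨le_rfl, ht.le⟩).tendsto).comp hx
    rw [intervalIntegral.integral_same] at this
    exact this
  rw [zero_add] at hlim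
  refine ge_of_tendsto' hlim fun n => ?_
  rw [← intervalIntegral.integral_add_adjacent_intervals (b := t / 4 ^ n)
    (hsub hsq ⟨le_rfl, ht.le⟩ (hmem n)) (hsub hsq (hmem n) htt)]
  have h1 := hstep n
  have h2 : 2 * η * √t * (1 - 1 / 2 ^ n) ≤ 2 * η * √t := by
    have : 0 ≤ 2 * η * √t * (1 / 2 ^ n) := by positivity
    linarith
  linarith

theorem weighted {G : ℝ → ℝ} {t η : ℝ} (ht : 0 < t) (hη : 0 ≤ η) (hG : ∀ τ, 0 ≤ G τ)
    (hGi : IntervalIntegrable G volume 0 t)
    (h : ∀ s, 0 < s → s ≤ t → ∫ τ in (s / 4)..s, G τ ≤ η ^ 2) :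
    ∫ τ in (0:ℝ)..t, √(G τ) ≤ 2 * η * √t := by
  have h1 : ∀ n : ℕ, ∫ τ in (0:ℝ)..t, √(G τ) ≤ 2 * (η + 1 / ((n:ℝ) + 1)) * √t := by
    intro n
    refine (weighted_pos ht (by positivity) hG hGi fun s hs hst => ?_).2
    refine (h s hs hst).trans ?_
    apply pow_le_pow_left₀ hη
    have : 0 < 1 / ((n:ℝ) + 1) := by positivity
    linarith
  have h2 : Tendsto (fun n : ℕ => 2 * (η + 1 / ((n:ℝ) + 1)) * √t) atTop
      (𝓝 (2 * (η + 0) * √t)) :=
    (((tendsto_one_div_add_atTop_nhds_zero_nat (𝕜 := ℝ)).const_add η).const_mul 2).mul_const _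
  rw [add_zero] at h2
  exact ge_of_tendsto' h2 h1

end Pool.Agent.TB
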