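import Pool.Agent.TO.Cor
import Pool.Agent.TB.DivSub
import Pool.Agent.TB.Lim
import Pool.Agent.TB.Wt

/-!
# Uniqueness for Leray solutions with `√σ |e^{σ Δ} v(t)| ≤ N` for `σ ≤ t`
-/

set_option autoImplicit false

namespace Pool.Agent.TB

open MeasureTheory Set Filter Topology Pool.Agent.TO
open scoped ENNReal NNReal Real InnerProductSpace

variable {T : ℝ} {u₀ : V3} {u v : ℝ → V3}

/-- the heat extension of `v t` is bounded by `N / √σ` for `σ ≤ t` -/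
def HeatBdd (T : ℝ) (v : ℝ → V3) (N : ℝ) : Prop :=
  ∀ᵐ t ∂(volume.restrict (Ioo 0 T)), ∀ σ ∈ Ioc 0 t, ∀ x, ‖heat σ (v t) x‖ ≤ N / √σ

/-- the constant -/
noncomputable def BB (ε N : ℝ) : ℝ := 8 * ε ^ 2 + 6e8 * (N + 1) ^ 2

/-- facts at a fixed time -/
theorem fixed_time {u v : V3} {d : Fin 3 → V3} {ε N t : ℝ} (hε0 : 0 ≤ ε) (hε1 : ε ≤ 1)
    (hN : 0 ≤ N) (ht : 0 < t) (hu : Bd u (ε / √t))
    (hv : ∀ σ ∈ Ioc 0 t, ∀ x, ‖heat σ v x‖ ≤ N / √σ) (hd : ∀ k, IsWeakDeriv k (v - u) (d k))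
    (hdu : IsDivFree u) (hdv : IsDivFree (v - u)) :
    TM u v ∧ ∑ k, ‖NN k u v‖ ^ 2 ≤ BB ε N * (∑ k, ‖d k‖ ^ 2 + ‖v - u‖ ^ 2 / t) ∧
    ∑ k, ⟪d k, NN k u v⟫_ℝ ≤ ε / √t * ‖v - u‖ * √(∑ k, ‖d k‖ ^ 2) := by
  have hb : ∀ σ ∈ Ioc 0 t, ∀ x, ‖heat σ (v - u : V3) x‖ ≤ (N + 1) / √σ := by
    intro σ hσ x
    refine (heat_sub_le hσ.1 hu (hv σ hσ) x).trans ?_
    have h1 : ε / √t ≤ 1 / √σ := by
      apply div_le_div₀ zero_le_one hε1 (Real.sqrt_pos.2 hσ.1)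
      exact Real.sqrt_le_sqrt hσ.2
    rw [add_div]
    linarith
  have hG := gmo hd (M := N + 1) (by linarith) ht hb
  set L : ℝ := 3e8 * (N + 1) ^ 2 * (∑ k, ‖d k‖ ^ 2 + ‖v - u‖ ^ 2 / t) with hL
  have hL0 : 0 ≤ L := by positivity
  have h4 : ∀ k, SqI k (v - u) (v - u) := fun k =>
    sqI_self (hG.trans_lt ENNReal.ofReal_lt_top) k
  refine ⟨tm_of hu h4, ?_, sum_inner_NN_le' (by positivity) hu h4 hdu hdv hd⟩
  refine (sum_sq_NN_le' hu h4 hL0 hG).trans ?_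
  have hS : 0 ≤ ∑ k, ‖d k‖ ^ 2 := by positivity
  have e1 : (ε / √t) ^ 2 = ε ^ 2 / t := by rw [div_pow, Real.sq_sqrt ht.le]
  rw [e1]
  have e2 : 8 * (ε ^ 2 / t) * ‖v - u‖ ^ 2 = 8 * ε ^ 2 * (‖v - u‖ ^ 2 / t) := by ring
  rw [e2, hL, BB]
  have h5 : 0 ≤ ‖v - u‖ ^ 2 / t := by positivity
  nlinarith [mul_nonneg (sq_nonneg ε) hS]

theorem sqrt_BB_le {ε N : ℝ} (hε0 : 0 ≤ ε) (hε1 : ε ≤ 1) (hN : 0 ≤ N) :
    √(BB ε N) ≤ 25000 * (N + 1) := by
  apply Real.sqrt_le_iff.2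
  refine ⟨by positivity, ?_⟩
  unfold BB
  nlinarith [mul_nonneg hN hN, mul_nonneg hε0 (sub_nonneg.2 hε1)]

section

variable {ε N : ℝ} {D : ℝ → Fin 3 → V3} {ν : ℝ → ℝ}

/-- the pair of solutions, with the bound of the nonlinear term -/
theorem pairN (hu : IsLeray T u₀ u) (hv : IsLeray T u₀ v) {Bc : ℝ} (hBc : 0 ≤ Bc)
    (hD : ∀ᵐ t ∂(volume.restrict (Ioo 0 T)), ∀ k, IsWeakDeriv k (v t - u t) (D t k))
    (hDi : ∀ t ∈ Ico 0 T, IntegrableOn (fun τ => ∑ k, ‖D τ k‖ ^ 2) (Ioo 0 t) volume)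
    (h : ∀ᵐ τ ∂(volume.restrict (Ioo 0 T)), TM (u τ) (v τ) ∧
      ∑ k, ‖NN k (u τ) (v τ)‖ ^ 2 ≤ Bc * (∑ k, ‖D τ k‖ ^ 2 + ‖v τ - u τ‖ ^ 2 / τ)) :
    PairN T u₀ u v (fun τ => √(Bc * (∑ k, ‖D τ k‖ ^ 2 + ‖v τ - u τ‖ ^ 2 / τ))) := by
  have hnorm : ∀ t ∈ Ico 0 T, ‖v t - u t‖ ≤ 2 * ‖u₀‖ := by
    intro t ht
    have h1 := hu.norm_le ht
    have h2 := hv.norm_le ht
    have h3 := norm_sub_le (v t) (u t)
    linarith
  have hEm : ∀ s t : ℝ, 0 ≤ s → t ≤ T →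
      AEStronglyMeasurable (fun τ => ‖v τ - u τ‖ ^ 2) (volume.restrict (Ioo s t)) := by
    intro s t hs ht
    exact ((hv.meas.sub hu.meas).mono_measure (Measure.restrict_mono
      (Ioo_subset_Ioo hs ht) le_rfl)).norm.pow 2
  have hdm : ∀ s t : ℝ, AEStronglyMeasurable (fun τ : ℝ => τ) (volume.restrict (Ioo s t)) :=
    fun s t => measurable_id.aestronglyMeasurable
  have hEdm : ∀ s t : ℝ, 0 ≤ s → t ≤ T →
      AEStronglyMeasurable (fun τ => ‖v τ - u τ‖ ^ 2 / τ) (volume.restrict (Ioo s t)) :=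
    fun s t hs ht => ((hEm s t hs ht).aemeasurable.div (hdm s t).aemeasurable).aestronglyMeasurable
  refine ⟨hu, hv, ?_, fun t => Real.sqrt_nonneg _, ?_, ?_⟩
  · filter_upwards [h, ae_restrict_mem measurableSet_Ioo] with τ h1 h2
    refine ⟨h1.1, h1.2.trans (le_of_eq ?_)⟩
    rw [Real.sq_sqrt]
    have := h2.1
    positivity
  · intro t ht
    rw [intervalIntegrable_iff_integrableOn_Ioo_of_le ht.1.le]
    have hG := hDi t ⟨ht.1.le, ht.2⟩
    have h1 := (integral_inv_sqrt ht.1.le (2 * ‖u₀‖)).1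
    rw [intervalIntegrable_iff_integrableOn_Ioo_of_le ht.1.le] at h1
    have hb : IntegrableOn (fun τ => √Bc * ((1 + ∑ k, ‖D τ k‖ ^ 2) + 2 * ‖u₀‖ / √τ))
        (Ioo 0 t) volume :=
      (((integrableOn_const (by simp)).add hG).add h1).const_mul _
    refine Integrable.mono' hb ?_ ?_
    · exact (((hG.1.aemeasurable.add (hEdm 0 t le_rfl ht.2.le).aemeasurable).const_mul
        Bc).sqrt).aestronglyMeasurable
    · filter_upwards [ae_restrict_mem measurableSet_Ioo] with τ hτ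
      have hτ0 := hτ.1
      have hs0 := Real.sqrt_pos.2 hτ0
      have g0 : 0 ≤ ∑ k, ‖D τ k‖ ^ 2 := by positivity
      rw [Real.norm_of_nonneg (Real.sqrt_nonneg _), Real.sqrt_mul hBc]
      gcongr
      apply Real.sqrt_le_iff.2
      refine ⟨by positivity, ?_⟩
      have g1 : ‖v τ - u τ‖ ^ 2 / τ ≤ (2 * ‖u₀‖ / √τ) ^ 2 := by
        rw [div_pow, Real.sq_sqrt hτ0.le]
        gcongr
        exact hnorm τ ⟨hτ0.le, hτ.2.trans ht.2⟩
      have g2 : 0 ≤ 2 * ‖u₀‖ / √τ := by positivity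
      nlinarith [mul_nonneg g0 g2, mul_nonneg g0 g0]
  · intro s t hs hst ht
    rw [intervalIntegrable_iff_integrableOn_Ioo_of_le hst]
    have hG := (hDi t ⟨hs.le.trans hst, ht⟩).mono_set (Ioo_subset_Ioo_left hs.le)
    have hE2 : IntegrableOn (fun τ => ‖v τ - u τ‖ ^ 2 / τ) (Ioo s t) volume := by
      refine Integrable.of_bound (hEdm s t hs.le ht.le) ((2 * ‖u₀‖) ^ 2 / s) ?_
      filter_upwards [ae_restrict_mem measurableSet_Ioo] with τ hτ
      have hτ0 := hs.trans hτ.1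
      rw [Real.norm_of_nonneg (by positivity)]
      have h1 := hnorm τ ⟨hτ0.le, hτ.2.trans ht⟩
      have h2 := hτ.1.le
      gcongr
    refine ((hG.add hE2).const_mul Bc).congr ?_
    filter_upwards [ae_restrict_mem measurableSet_Ioo] with τ hτ
    have hτ0 := hs.trans hτ.1
    simp only [Pi.add_apply]
    rw [Real.sq_sqrt (by positivity)]

/-- the weighted dissipation estimate -/
theorem PairN.diss (P : PairN T u₀ u v ν) (hε0 : 0 ≤ ε)
    (hD : ∀ᵐ t ∂(volume.restrict (Ioo 0 T)), ∀ k, IsWeakDeriv k (v t - u t) (D t k))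
    (hDi : ∀ t ∈ Ico 0 T, IntegrableOn (fun τ => ∑ k, ‖D τ k‖ ^ 2) (Ioo 0 t) volume)
    (h : ∀ᵐ τ ∂(volume.restrict (Ioo 0 T)),
      ∑ k, ⟪D τ k, NN k (u τ) (v τ)⟫_ℝ ≤ ε / √τ * ‖v τ - u τ‖ * √(∑ k, ‖D τ k‖ ^ 2))
    {s m : ℝ} (hs : 0 < s) (hsT : s < T) (hm : ∀ r ∈ Icc 0 s, ‖v r - u r‖ ^ 2 ≤ m) :
    ∫ τ in (s / 4)..s, ∑ k, ‖D τ k‖ ^ 2 ≤ m * (1 + 3 * ε ^ 2) := by
  have hs4 : 0 < s / 4 := by positivity
  have hs4' : s / 4 ≤ s := by linarith
  obtain ⟨hgi, he⟩ := P.energy_eq hD hDi hs4 hs4' hsT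
  have hsub : Ioo (s / 4) s ⊆ Ioo 0 T := Ioo_subset_Ioo hs4.le hsT.le
  have hGi : IntegrableOn (fun τ => ∑ k, ‖D τ k‖ ^ 2) (Ioo (s / 4) s) volume :=
    (hDi s ⟨hs.le, hsT⟩).mono_set (Ioo_subset_Ioo_left hs4.le)
  have hm0 : 0 ≤ m := le_trans (by positivity) (hm 0 ⟨le_rfl, hs.le⟩)
  have hci : IntegrableOn (fun _ : ℝ => ε ^ 2 * (4 / s) * m) (Ioo (s / 4) s) volume :=
    integrableOn_const (by simp)
  have key : 2 * ∫ τ in Ioo (s / 4) s, (-(∑ k, ‖D τ k‖ ^ 2) +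
      ∑ k, ⟪D τ k, NN k (u τ) (v τ)⟫_ℝ) ≤
      ∫ τ in Ioo (s / 4) s, (ε ^ 2 * (4 / s) * m - ∑ k, ‖D τ k‖ ^ 2) := by
    rw [← integral_const_mul]
    apply integral_mono_ae (hgi.const_mul 2) (hci.sub hGi)
    filter_upwards [ae_restrict_of_ae_restrict_of_subset hsub h,
      ae_restrict_mem measurableSet_Ioo] with τ h1 h2
    have hτ0 : 0 < τ := hs4.trans h2.1
    have g0 : 0 ≤ ∑ k, ‖D τ k‖ ^ 2 := by positivity
    have g1 := Real.sq_sqrt g0
    have g2 : (ε / √τ * ‖v τ - u τ‖) ^ 2 ≤ ε ^ 2 * (4 / s) * m := by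
      rw [mul_pow, div_pow, Real.sq_sqrt hτ0.le]
      have g3 : ε ^ 2 / τ ≤ ε ^ 2 * (4 / s) := by
        rw [div_eq_mul_inv]
        apply mul_le_mul_of_nonneg_left _ (by positivity)
        rw [← one_div, div_le_div_iff₀ hτ0 hs]
        linarith [h2.1]
      exact mul_le_mul g3 (hm τ ⟨hτ0.le, h2.2.le⟩) (by positivity) (by positivity)
    change 2 * (-∑ k, ‖D τ k‖ ^ 2 + ∑ k, ⟪D τ k, NN k (u τ) (v τ)⟫_ℝ) ≤
      ε ^ 2 * (4 / s) * m - ∑ k, ‖D τ k‖ ^ 2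
    nlinarith [sq_nonneg (ε / √τ * ‖v τ - u τ‖ - √(∑ k, ‖D τ k‖ ^ 2))]
  have e1 : ∫ τ in Ioo (s / 4) s, (ε ^ 2 * (4 / s) * m - ∑ k, ‖D τ k‖ ^ 2) =
      3 * ε ^ 2 * m - ∫ τ in Ioo (s / 4) s, ∑ k, ‖D τ k‖ ^ 2 := by
    rw [integral_sub hci hGi, setIntegral_const]
    congr 1
    simp only [Measure.real, Real.volume_Ioo, smul_eq_mul]
    rw [ENNReal.toReal_ofReal (by linarith)]
    field_simp
    ring
  rw [e1] at key
  rw [intervalIntegral.integral_of_le hs4', integral_Ioc_eq_integral_Ioo]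
  have h1 := hm (s / 4) ⟨hs4.le, hs4'⟩
  have h2 : 0 ≤ ‖v s - u s‖ ^ 2 := by positivity
  nlinarith

end

theorem besov (hu : IsLeray T u₀ u) (hv : IsLeray T u₀ v) {ε N : ℝ} (hε0 : 0 ≤ ε) (hN : 0 ≤ N)
    (hε : ε * (N + 1) ≤ 1e-6) (hub : BddBy T u (fun t => ε / √t)) (hvb : HeatBdd T v N) :
    ∀ t ∈ Ico 0 T, u t = v t := by
  have hε1 : ε ≤ 1e-6 := by nlinarith
  have hε1' : ε ≤ 1 := hε1.trans (by norm_num)
  obtain ⟨D, hD, hDi⟩ := exists_grad_sub hu hv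
  set G : ℝ → ℝ := fun τ => ∑ k, ‖D τ k‖ ^ 2 with hG
  have hG0 : ∀ τ, 0 ≤ G τ := fun τ => Finset.sum_nonneg fun k _ => by positivity
  set E : ℝ → ℝ := fun τ => ‖v τ - u τ‖ ^ 2 with hE
  have hE0 : ∀ τ, 0 ≤ E τ := fun τ => by positivity
  set Bc : ℝ := BB ε N with hBc
  have hBc0 : 0 < Bc := by
    rw [hBc, BB]
    positivity
  have hBs := sqrt_BB_le hε0 hε1' hN
  rw [← hBc] at hBs
  have hBs0 : 0 < √Bc := Real.sqrt_pos.2 hBc0
  set ν : ℝ → ℝ := fun τ => √(Bc * (G τ + E τ / τ)) with hν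
  have hfix : ∀ᵐ τ ∂(volume.restrict (Ioo 0 T)), TM (u τ) (v τ) ∧
      ∑ k, ‖NN k (u τ) (v τ)‖ ^ 2 ≤ Bc * (G τ + E τ / τ) ∧
      ∑ k, ⟪D τ k, NN k (u τ) (v τ)⟫_ℝ ≤ ε / √τ * ‖v τ - u τ‖ * √(G τ) := by
    filter_upwards [hD, hub, hvb, ae_restrict_mem measurableSet_Ioo] with τ h1 h2 h3 h4
    have hdu := hu.div τ ⟨h4.1.le, h4.2⟩
    have hdv := hv.div τ ⟨h4.1.le, h4.2⟩
    exact fixed_time hε0 hε1' hN h4.1 h2 h3 h1 hdu (isDivFree_sub hdv hdu)
  have P : PairN T u₀ u v ν := pairN hu hv hBc0.le hD hDi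
    (hfix.mono fun τ h => ⟨h.1, h.2.1⟩)
  have hint : ∀ τ ∈ Ioo 0 T, ∀ m, (∀ r ∈ Icc 0 τ, E r ≤ m) →
      ∫ r in (0:ℝ)..τ, ν r ≤ 6 * √Bc * √m * √τ := by
    intro t ht m hm
    have hm0 : 0 ≤ m := (hE0 0).trans (hm 0 ⟨le_rfl, ht.1.le⟩)
    have hGi : IntervalIntegrable G volume 0 t := by
      rw [intervalIntegrable_iff_integrableOn_Ioo_of_le ht.1.le]
      exact hDi t ⟨ht.1.le, ht.2⟩
    have h2m : (√m * 2) ^ 2 = m * 4 := by
      rw [mul_pow, Real.sq_sqrt hm0]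
      norm_num
    have hw := weighted (G := G) (t := t) (η := √m * 2) ht.1 (by positivity) hG0 hGi
      (fun s hs hst => by
        refine (P.diss hε0 hD hDi (hfix.mono fun τ h => h.2.2) hs (hst.trans_lt ht.2)
          (fun r hr => hm r ⟨hr.1, hr.2.trans hst⟩)).trans ?_
        rw [h2m]
        apply mul_le_mul_of_nonneg_left _ hm0
        nlinarith)
    obtain ⟨i1, e1⟩ := integral_inv_sqrt ht.1.le (√m)
    have hsG : IntervalIntegrable (fun τ => √(G τ)) volume 0 t := by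
      rw [intervalIntegrable_iff_integrableOn_Ioo_of_le ht.1.le] at hGi ⊢
      have hb : IntegrableOn (fun τ => 1 + G τ) (Ioo 0 t) volume :=
        (integrableOn_const (by simp)).add hGi
      refine Integrable.mono' hb hGi.1.aemeasurable.sqrt.aestronglyMeasurable ?_
      refine Eventually.of_forall fun τ => ?_
      rw [Real.norm_of_nonneg (Real.sqrt_nonneg _), Real.sqrt_le_left (by linarith [hG0 τ])]
      nlinarith [hG0 τ]
    calc ∫ r in (0:ℝ)..t, ν r ≤ ∫ r in (0:ℝ)..t, √Bc * (√(G r) + √m / √r) := by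
          rw [intervalIntegral.integral_of_le ht.1.le, intervalIntegral.integral_of_le ht.1.le,
            integral_Ioc_eq_integral_Ioo, integral_Ioc_eq_integral_Ioo]
          have j1 := P.integrable_nu le_rfl ht.1.le ht.2
          have j2 := (hsG.add i1).const_mul (√Bc)
          rw [intervalIntegrable_iff_integrableOn_Ioo_of_le ht.1.le] at j2
          apply integral_mono_ae j1 j2
          filter_upwards [ae_restrict_mem measurableSet_Ioo] with r hr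
          have hr0 := hr.1
          simp only [hν]
          rw [Real.sqrt_mul hBc0.le]
          gcongr
          apply Real.sqrt_le_iff.2
          refine ⟨by positivity, ?_⟩
          have g1 : E r / r ≤ (√m / √r) ^ 2 := by
            rw [div_pow, Real.sq_sqrt hm0, Real.sq_sqrt hr0.le]
            gcongr
            exact hm r ⟨hr0.le, hr.2.le⟩
          have g2 := Real.sq_sqrt (hG0 r)
          have g3 : 0 ≤ √(G r) * (√m / √r) := by positivity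
          nlinarith
      _ = √Bc * ((∫ r in (0:ℝ)..t, √(G r)) + 2 * √m * √t) := by
          rw [intervalIntegral.integral_const_mul, intervalIntegral.integral_add hsG i1, e1]
      _ ≤ √Bc * (2 * (√m * 2) * √t + 2 * √m * √t) := by gcongr
      _ = 6 * √Bc * √m * √t := by ring
  have key := barrier (T := T) (θ := ε * (6 * √Bc)) (E := E) (G := G) (a := fun τ => ε / √τ)
    (S := fun τ => 6 * √Bc * √τ + if τ ≤ 0 then 1 else 0)
    (g := fun τ => -(∑ k, ‖D τ k‖ ^ 2) + ∑ k, ⟪D τ k, NN k (u τ) (v τ)⟫_ℝ)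
    (κ := fun _ => 0)
    (by
      have : ε * (6 * √Bc) ≤ ε * (6 * (25000 * (N + 1))) := by gcongr
      norm_num at hε
      linarith)
    P.cont
    (by simp [hE, hu.init, hv.init]) hE0 hG0 (fun t => by positivity)
    (fun t ht => by
      have h1 := Real.sqrt_pos.2 ht.1
      rw [if_neg (not_le.2 ht.1)]
      positivity)
    (fun s t hs hst ht => by
      obtain ⟨h1, h2⟩ := P.energy_eq hD hDi hs hst ht
      exact ⟨h1, h2.le⟩)
    (by
      filter_upwards [hfix] with τ h1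
      simp only [hE, Real.sqrt_sq (norm_nonneg _)]
      have := h1.2.2
      simp only [hG] at this ⊢
      linarith)
    (by
      filter_upwards [hD, ae_restrict_mem measurableSet_Ioo] with τ h1 h3 m hm x hx
      have hp := Real.pi_pos
      have hτ0 := h3.1
      set K : ℝ := √x / (2 * π) with hK
      have hK0 : 0 ≤ K := by positivity
      have hKx : (2 * π * K) ^ 2 = x := by
        rw [hK]
        have : 2 * π * (√x / (2 * π)) = √x := by field_simp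
        rw [this, Real.sq_sqrt hx]
      have h4 := high_le_weak hK0 (v τ - u τ) (D τ) h1
      have h5 := P.low hK0 h3
      have h5' := hint τ h3 m hm
      have hm0 : 0 ≤ m := (hE0 0).trans (hm 0 ⟨le_rfl, h3.1.le⟩)
      rw [if_neg (not_le.2 hτ0), add_zero]
      have h6 : ‖PP K (cplx (v τ - u τ))‖ ^ 2 ≤ x * (6 * √Bc * √τ) ^ 2 * m := by
        have h7 : ‖PP K (cplx (v τ - u τ))‖ ≤ 2 * π * K * (6 * √Bc * √m * √τ) :=
          h5.trans (by gcongr)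
        have h8 : ‖PP K (cplx (v τ - u τ))‖ ^ 2 ≤ (2 * π * K * (6 * √Bc * √m * √τ)) ^ 2 :=
          pow_le_pow_left₀ (norm_nonneg _) h7 2
        refine h8.trans (le_of_eq ?_)
        rw [mul_pow, hKx]
        have h9 := Real.sq_sqrt hm0
        calc x * (6 * √Bc * √m * √τ) ^ 2 = x * (6 * √Bc * √τ) ^ 2 * (√m) ^ 2 := by ring
          _ = _ := by rw [h9]
      rw [hKx] at h4
      refine le_trans ?_ h4
      gcongr)
    (fun _ => le_rfl)
    (by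
      filter_upwards [ae_restrict_mem measurableSet_Ioo] with τ hτ h1
      exfalso
      have hs0 := (Real.sqrt_pos.2 hτ.1).ne'
      rw [if_neg (not_le.2 hτ.1), add_zero] at h1
      have : ε / √τ * (6 * √Bc * √τ) = ε * (6 * √Bc) := by field_simp
      rw [this] at h1
      exact lt_irrefl _ h1)
    (fun t _ => integrableOn_zero)
  intro t ht
  have h1 : ‖v t - u t‖ ^ 2 = 0 := key t ht
  have h2 : v t - u t = 0 := by
    rw [← norm_eq_zero]
    exact pow_eq_zero_iff (two_ne_zero) |>.1 h1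
  exact (sub_eq_zero.1 h2).symm

end Pool.Agent.TB
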