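import Pool.Agent.TB.GMO2
import Pool.Agent.TB.Cancel4

/-!
# The nonlinear term of the difference: bounds
-/

set_option autoImplicit false

namespace Pool.Agent.TB

open MeasureTheory Set Filter Topology Pool.Agent.TO
open scoped ENNReal NNReal Real InnerProductSpace SchwartzMap LineDeriv

/-- a field in `L⁴` has square integrable products -/
theorem sqI_self {w : V3} (h : ∫⁻ x, ENNReal.ofReal (‖w x‖ ^ 4) < ∞) (k : Fin 3) : SqI k w w := by
  refine ⟨meas_tens k w w, ?_⟩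
  rw [eLpNorm_eq_lintegral_rpow_enorm_toReal (by norm_num) (by norm_num)]
  apply ENNReal.rpow_lt_top_of_nonneg (by simp)
  simp only [ENNReal.toReal_ofNat, ENNReal.rpow_ofNat]
  refine (lt_of_le_of_lt (lintegral_mono fun x => ?_) h).ne
  rw [← ofReal_norm, ← ENNReal.ofReal_pow (norm_nonneg _)]
  apply ENNReal.ofReal_le_ofReal
  rw [norm_smul, mul_pow]
  have h1 : ‖(w x) k‖ ^ 2 ≤ ‖w x‖ ^ 2 :=
    pow_le_pow_left₀ (norm_nonneg _) (PiLp.norm_apply_le _ _) 2
  calc ‖(w x) k‖ ^ 2 * ‖w x‖ ^ 2 ≤ ‖w x‖ ^ 2 * ‖w x‖ ^ 2 := by gcongr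
    _ = ‖w x‖ ^ 4 := by ring

theorem sqI_left {k : Fin 3} {f : V3} {A : ℝ} (hf : Bd f A) (g : V3) : SqI k f g := by
  refine (Lp.memLp g).of_le_mul (c := A) (meas_tens k f g) ?_
  filter_upwards [hf] with x hx
  rw [norm_smul]
  exact mul_le_mul_of_nonneg_right ((PiLp.norm_apply_le (f x) k).trans hx) (norm_nonneg _)

theorem sqI_right {k : Fin 3} (f : V3) {g : V3} {A : ℝ} (hg : Bd g A) : SqI k f g := by
  refine (Lp.memLp f).of_le_mul (c := A) (meas_tens k f g) ?_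
  filter_upwards [hg] with x hx
  rw [norm_smul, mul_comm]
  exact mul_le_mul hx (PiLp.norm_apply_le (f x) k) (norm_nonneg _) ((norm_nonneg _).trans hx)

theorem sqI_add {k : Fin 3} {f f' g : V3} (h : SqI k f g) (h' : SqI k f' g) :
    SqI k (f + f') g := by
  refine (MemLp.add h h').ae_eq ?_
  filter_upwards [Lp.coeFn_add f f'] with x hx
  rw [hx, Pi.add_apply, Pi.add_apply, PiLp.add_apply, add_smul]

/-- the products in the nonlinear term -/
theorem tm_of {u v : V3} {A : ℝ} (hu : Bd u A) (h : ∀ k, SqI k (v - u) (v - u)) : TM u v := by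
  intro k
  refine ⟨?_, sqI_right _ hu⟩
  have h1 := sqI_add (h k) (sqI_left (k := k) hu (v - u))
  rwa [sub_add_cancel] at h1

/-- the decomposition of the nonlinear term -/
theorem NN_eq {u v : V3} {A : ℝ} (hu : Bd u A) (h : ∀ k, SqI k (v - u) (v - u)) (k : Fin 3) :
    NN k u v = tens k u (v - u) + tens k (v - u) (v - u) + tens k (v - u) u := by
  apply Lp.ext
  filter_upwards [coe_NN' k (tm_of hu h), Lp.coeFn_add (tens k u (v - u) +
    tens k (v - u) (v - u)) (tens k (v - u) u), Lp.coeFn_add (tens k u (v - u))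
    (tens k (v - u) (v - u)), coe_tens (sqI_left (k := k) hu (v - u)), coe_tens (h k),
    coe_tens (sqI_right (k := k) (v - u) hu), Lp.coeFn_sub v u] with x h1 h2 h3 h4 h5 h6 h7
  rw [h1, h2, Pi.add_apply, h3, Pi.add_apply, h4, h5, h6, h7, Pi.sub_apply]
  rw [← add_smul]
  congr 2
  rw [PiLp.sub_apply]
  ring

/-- the nonlinear term tested with `∇ w` -/
theorem sum_inner_NN_le' {u v : V3} {A : ℝ} (hA : 0 ≤ A) (hu : Bd u A)
    (h4 : ∀ k, SqI k (v - u) (v - u)) (hdu : IsDivFree u) (hdv : IsDivFree (v - u))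
    {d : Fin 3 → V3} (h : ∀ k, IsWeakDeriv k (v - u) (d k)) :
    ∑ k, ⟪d k, NN k u v⟫_ℝ ≤ A * ‖v - u‖ * √(∑ k, ‖d k‖ ^ 2) := by
  simp only [NN_eq hu h4, inner_add_right, Finset.sum_add_distrib]
  rw [cancel hu hdu h, cancel4 hdv h4 h, zero_add, zero_add]
  refine (sum_inner_le _ _).trans ?_
  have h1 := sum_sq_tens_le hu (v - u)
  have h2 : √(∑ k, ‖tens k (v - u) u‖ ^ 2) ≤ A * ‖v - u‖ := by
    rw [← Real.sqrt_sq (by positivity : 0 ≤ A * ‖v - u‖)]
    exact Real.sqrt_le_sqrt h1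
  rw [mul_comm]
  exact mul_le_mul_of_nonneg_right h2 (Real.sqrt_nonneg _)

/-- the size of the nonlinear term -/
theorem sum_sq_NN_le' {u v : V3} {A L : ℝ} (hu : Bd u A)
    (h4 : ∀ k, SqI k (v - u) (v - u)) (hL0 : 0 ≤ L)
    (hL : ∫⁻ x, ENNReal.ofReal (‖(v - u : V3) x‖ ^ 4) ≤ ENNReal.ofReal L) :
    ∑ k, ‖NN k u v‖ ^ 2 ≤ 8 * A ^ 2 * ‖v - u‖ ^ 2 + 2 * L := by
  have hi : Integrable (fun x => ‖(v - u : V3) x‖ ^ 4) (volume : Measure E3) := by
    refine ⟨((Lp.stronglyMeasurable (v - u)).norm.pow 4).aestronglyMeasurable, ?_⟩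
    rw [hasFiniteIntegral_iff_enorm]
    refine lt_of_le_of_lt (lintegral_mono fun x => ?_) (hL.trans_lt ENNReal.ofReal_lt_top)
    rw [← ofReal_norm, norm_pow, norm_norm]
  have hi2 : ∫ x, ‖(v - u : V3) x‖ ^ 4 ≤ L := by
    have := ofReal_integral_eq_lintegral_ofReal hi (Eventually.of_forall fun x => by positivity)
    rw [← this] at hL
    exact (ENNReal.ofReal_le_ofReal_iff hL0).1 hL
  simp only [norm_sq_eq_real]
  rw [← integral_finsetSum _ (fun k _ => integrable_norm_sq_real (NN k u v))]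
  calc ∫ x, ∑ k, ‖(NN k u v : E3 → E3) x‖ ^ 2
      ≤ ∫ x, (8 * A ^ 2 * ‖(v - u : V3) x‖ ^ 2 + 2 * ‖(v - u : V3) x‖ ^ 4) := by
        apply integral_mono_ae
        · exact integrable_finsetSum _ (fun k _ => integrable_norm_sq_real (NN k u v))
        · exact ((integrable_norm_sq_real (v - u)).const_mul _).add (hi.const_mul 2)
        have hTM := tm_of hu h4
        filter_upwards [coe_NN' 0 hTM, coe_NN' 1 hTM, coe_NN' 2 hTM, Lp.coeFn_sub v u, hu]
          with x h0 h1 h2 h3 h5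
        have h6 : ∑ k, ‖(NN k u v : E3 → E3) x‖ ^ 2 =
            ∑ k, ‖(v x) k • (v x - u x) + (v x - u x) k • u x‖ ^ 2 := by
          rw [Fin.sum_univ_three, Fin.sum_univ_three, h0, h1, h2]
        rw [h6, h3, Pi.sub_apply]
        refine (sum_sq_smul_add _ _ _ _).trans ?_
        set p := ‖v x - u x‖ with hp
        have hp0 : 0 ≤ p := norm_nonneg _
        have g1 : ‖v x‖ ≤ p + A := by
          have : v x = (v x - u x) + u x := by abel
          calc ‖v x‖ = ‖(v x - u x) + u x‖ := by rw [← this]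
            _ ≤ ‖v x - u x‖ + ‖u x‖ := norm_add_le _ _
            _ ≤ p + A := by linarith
        have hA0 : 0 ≤ A := (norm_nonneg _).trans h5
        have g2 : ‖v x‖ * p + p * ‖u x‖ ≤ p ^ 2 + 2 * A * p := by
          nlinarith [mul_le_mul_of_nonneg_right g1 hp0, mul_le_mul_of_nonneg_left h5 hp0]
        have g3 : 0 ≤ ‖v x‖ * p + p * ‖u x‖ := by positivity
        calc (‖v x‖ * p + p * ‖u x‖) ^ 2 ≤ (p ^ 2 + 2 * A * p) ^ 2 := by gcongr
          _ ≤ 8 * A ^ 2 * p ^ 2 + 2 * p ^ 4 := by nlinarith [sq_nonneg (p ^ 2 - 2 * A * p)]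
    _ = 8 * A ^ 2 * (∫ x, ‖(v - u : V3) x‖ ^ 2) + 2 * ∫ x, ‖(v - u : V3) x‖ ^ 4 := by
        rw [integral_add ((integrable_norm_sq_real (v - u)).const_mul _) (hi.const_mul 2),
          integral_const_mul, integral_const_mul]
    _ ≤ 8 * A ^ 2 * (∫ x, ‖(v - u : V3) x‖ ^ 2) + 2 * L := by gcongr

/-- the heat extension of a bounded field -/
theorem heat_ae_le {u : V3} {A σ : ℝ} (hσ : 0 < σ) (hu : Bd u A) (x : E3) :
    ‖heat σ u x‖ ≤ A := by
  have i := isProb_gam hσ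
  rw [heat_eq hσ]
  have h1 : ∀ᵐ y ∂(gam σ), ‖u (x - y)‖ ≤ A := by
    have h2 : ∀ᵐ y ∂(volume : Measure E3), ‖u (x - y)‖ ≤ A :=
      (Measure.measurePreserving_sub_left (volume : Measure E3) x).quasiMeasurePreserving.ae hu
    exact (withDensity_absolutelyContinuous _ _).ae_le h2
  have := norm_integral_le_of_norm_le_const (μ := gam σ) (f := fun y => u (x - y)) (C := A) h1
  simpa using this

theorem heat_sub_le {u v : V3} {A B σ : ℝ} (hσ : 0 < σ) (hu : Bd u A)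
    (hv : ∀ x, ‖heat σ v x‖ ≤ B) (x : E3) : ‖heat σ (v - u : V3) x‖ ≤ B + A := by
  rw [heat_congr (Lp.coeFn_sub v u)]
  have := heat_sub hσ (Lp.stronglyMeasurable v) (lintegral_sq_lt v) (Lp.stronglyMeasurable u)
    (lintegral_sq_lt u) x
  have e : heat σ (⇑v - ⇑u) x = heat σ v x - heat σ u x := this
  rw [e]
  refine (norm_sub_le _ _).trans (add_le_add (hv x) (heat_ae_le hσ hu x))

end Pool.Agent.TB
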