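import Pool.Agent.TB.Heat2

/-!
# The pseudo-Poincare inequality `‖f - e^{σ Δ} f‖₂² ≤ 24 σ ‖∇ f‖₂²`
-/

set_option autoImplicit false

namespace Pool.Agent.TB

open MeasureTheory Set Filter Topology Pool.Agent.TO
open scoped ENNReal NNReal Real InnerProductSpace SchwartzMap LineDeriv

theorem sq_enorm_fderiv_le (ψ : 𝓢(E3, E3)) (z y : E3) :
    ‖fderiv ℝ ψ z y‖ₑ ^ 2 ≤ ‖y‖ₑ ^ 2 * ∑ k, ‖(∂_{ee k} ψ) z‖ₑ ^ 2 := by
  have h1 : ‖fderiv ℝ ψ z y‖ ^ 2 ≤ ‖y‖ ^ 2 * ∑ k, ‖(∂_{ee k} ψ) z‖ ^ 2 := by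
    have h2 : ‖fderiv ℝ ψ z y‖ ≤ ∑ k, |y k| * ‖(∂_{ee k} ψ) z‖ := by
      rw [fderiv_field_eq_sum]
      refine (norm_sum_le _ _).trans (le_of_eq ?_)
      exact Finset.sum_congr rfl fun k _ => by rw [norm_smul, Real.norm_eq_abs]
    calc ‖fderiv ℝ ψ z y‖ ^ 2 ≤ (∑ k, |y k| * ‖(∂_{ee k} ψ) z‖) ^ 2 := by gcongr
      _ ≤ (∑ k, |y k| ^ 2) * ∑ k, ‖(∂_{ee k} ψ) z‖ ^ 2 := Finset.sum_mul_sq_le_sq_mul_sq _ _ _
      _ = _ := by
          congr 1
          rw [← sum_sq_eq y]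
          exact Finset.sum_congr rfl fun k _ => sq_abs _
  have e1 : ∀ w : E3, ‖w‖ₑ ^ 2 = ENNReal.ofReal (‖w‖ ^ 2) := fun w => by
    rw [← ofReal_norm, ← ENNReal.ofReal_pow (norm_nonneg _)]
  simp only [e1]
  rw [← ENNReal.ofReal_sum_of_nonneg (fun k _ => by positivity),
    ← ENNReal.ofReal_mul (by positivity)]
  exact ENNReal.ofReal_le_ofReal h1

/-- the squared gradient -/
noncomputable def gsq (ψ : 𝓢(E3, E3)) (z : E3) : ℝ≥0∞ := ∑ k, ‖(∂_{ee k} ψ) z‖ₑ ^ 2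

theorem meas_gsq (ψ : 𝓢(E3, E3)) : Measurable (gsq ψ) := by
  unfold gsq
  refine Finset.measurable_fun_sum _ fun k _ => ?_
  exact ((∂_{ee k} ψ).continuous.measurable.enorm.pow_const 2)

theorem sq_diff_le (ψ : 𝓢(E3, E3)) (x y : E3) :
    ‖ψ x - ψ (x - y)‖ₑ ^ 2 ≤ ‖y‖ₑ ^ 2 * ∫⁻ s in Ioc (0:ℝ) 1, gsq ψ (x - s • y) := by
  have hd : ∀ s : ℝ, HasDerivAt (fun s : ℝ => ψ (x - s • y)) (-(fderiv ℝ ψ (x - s • y) y)) s := by
    intro s
    have h1 : HasDerivAt (fun s : ℝ => x - s • y) (-y) s := by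
      have := ((hasDerivAt_id s).smul_const y).const_sub x
      simpa using this
    have h2 := (ψ.differentiableAt (x := x - s • y)).hasFDerivAt.comp_hasDerivAt s h1
    rw [map_neg] at h2
    exact h2
  have hc : Continuous fun s : ℝ => -(fderiv ℝ ψ (x - s • y) y) := by
    have h1 : Continuous (fderiv ℝ ψ) := ψ.smooth'.continuous_fderiv (by norm_num)
    fun_prop
  have h1 := intervalIntegral.integral_eq_sub_of_hasDerivAt (a := 0) (b := 1)
    (fun s _ => hd s) (hc.intervalIntegrable 0 1)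
  simp only [one_smul, zero_smul, sub_zero] at h1
  have h2 : ‖ψ x - ψ (x - y)‖ₑ ≤ ∫⁻ s in Ioc (0:ℝ) 1, ‖fderiv ℝ ψ (x - s • y) y‖ₑ := by
    have h3 : ψ x - ψ (x - y) = -∫ s in (0:ℝ)..1, -(fderiv ℝ ψ (x - s • y) y) := by
      rw [h1]
      abel
    rw [h3, enorm_neg, intervalIntegral.integral_of_le zero_le_one]
    refine (enorm_integral_le_lintegral_enorm _).trans (le_of_eq ?_)
    simp only [enorm_neg]
  have hprob : IsProbabilityMeasure (volume.restrict (Ioc (0:ℝ) 1)) := by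
    constructor
    rw [Measure.restrict_apply_univ, Real.volume_Ioc]
    simp
  calc ‖ψ x - ψ (x - y)‖ₑ ^ 2 ≤ (∫⁻ s in Ioc (0:ℝ) 1, ‖fderiv ℝ ψ (x - s • y) y‖ₑ) ^ 2 := by
        gcongr
    _ ≤ ∫⁻ s in Ioc (0:ℝ) 1, ‖fderiv ℝ ψ (x - s • y) y‖ₑ ^ 2 := by
        apply sq_lintegral_le
        have := hc.neg.enorm.measurable.aemeasurable (μ := volume.restrict (Ioc (0:ℝ) 1))
        simpa using this
    _ ≤ ∫⁻ s in Ioc (0:ℝ) 1, ‖y‖ₑ ^ 2 * gsq ψ (x - s • y) :=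
        lintegral_mono fun s => sq_enorm_fderiv_le ψ _ _
    _ = ‖y‖ₑ ^ 2 * ∫⁻ s in Ioc (0:ℝ) 1, gsq ψ (x - s • y) := by
        rw [lintegral_const_mul]
        exact (meas_gsq ψ).comp (by fun_prop)

/-- the inequality for Schwartz fields -/
theorem poincare_schwartz {σ : ℝ} (hσ : 0 < σ) (ψ : 𝓢(E3, E3)) :
    ∫⁻ x, ‖ψ x - heat σ ψ x‖ₑ ^ 2 ≤ ENNReal.ofReal (24 * σ) * ∫⁻ x, gsq ψ x := by
  have i1 := isProb_gam hσ
  have hψ2 : ∫⁻ y, ‖ψ y‖ₑ ^ 2 < ∞ := by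
    have h2 := lintegral_sq_lt (ψ.toLp 2 (volume : Measure E3))
    refine lt_of_eq_of_lt ?_ h2
    apply lintegral_congr_ae
    filter_upwards [ψ.coeFn_toLp 2 (volume : Measure E3)] with x hx
    rw [hx]
  have h1 : ∀ x, ‖ψ x - heat σ ψ x‖ₑ ^ 2 ≤ ∫⁻ y, ‖ψ x - ψ (x - y)‖ₑ ^ 2 ∂(gam σ) := by
    intro x
    have e1 : ψ x - heat σ ψ x = ∫ y, (ψ x - ψ (x - y)) ∂(gam σ) := by
      rw [heat_eq hσ, integral_sub (integrable_const _)
        (integrable_gam hσ ψ.continuous.stronglyMeasurable hψ2 x), integral_const]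
      simp
    rw [e1]
    refine le_trans (pow_le_pow_left₀ zero_le (enorm_integral_le_lintegral_enorm _) 2) ?_
    apply sq_lintegral_le
    have : Continuous fun y => ψ x - ψ (x - y) := by
      have := ψ.continuous
      fun_prop
    exact this.enorm.measurable.aemeasurable
  have hm : Measurable (Function.uncurry fun (x y : E3) =>
      ‖y‖ₑ ^ 2 * ∫⁻ s in Ioc (0:ℝ) 1, gsq ψ (x - s • y)) := by
    apply Measurable.mul
    · exact (measurable_snd.enorm.pow_const 2)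
    · have : Measurable (Function.uncurry fun (p : E3 × E3) (s : ℝ) => gsq ψ (p.1 - s • p.2)) :=
        (meas_gsq ψ).comp (by fun_prop)
      exact this.lintegral_prod_right'
  set A : E3 → E3 → ℝ≥0∞ := fun x y => ‖y‖ₑ ^ 2 * ∫⁻ s in Ioc (0:ℝ) 1, gsq ψ (x - s • y) with hA
  calc ∫⁻ x, ‖ψ x - heat σ ψ x‖ₑ ^ 2
      ≤ ∫⁻ x, ∫⁻ y, A x y ∂(gam σ) :=
        lintegral_mono fun x => (h1 x).trans (lintegral_mono fun y => sq_diff_le ψ x y)
    _ = ∫⁻ y, ∫⁻ x, A x y ∂volume ∂(gam σ) := lintegral_lintegral_swap hm.aemeasurable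
    _ = ∫⁻ y, (‖y‖ₑ ^ 2 * ∫⁻ x, gsq ψ x) ∂(gam σ) := by
        apply lintegral_congr
        intro y
        have m2 : Measurable fun x => ∫⁻ s in Ioc (0:ℝ) 1, gsq ψ (x - s • y) := by
          have : Measurable (Function.uncurry fun (x : E3) (s : ℝ) => gsq ψ (x - s • y)) :=
            (meas_gsq ψ).comp (by fun_prop)
          exact this.lintegral_prod_right'
        simp only [hA]
        rw [lintegral_const_mul _ m2]
        congr 1
        rw [lintegral_lintegral_swap]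
        · have e2 : ∀ s : ℝ, ∫⁻ x, gsq ψ (x - s • y) = ∫⁻ x, gsq ψ x := fun s =>
            lintegral_sub_right_eq_self (gsq ψ) (s • y)
          simp only [e2, lintegral_const, Measure.restrict_apply_univ, Real.volume_Ioc]
          simp
        · have : Measurable (Function.uncurry fun (x : E3) (s : ℝ) => gsq ψ (x - s • y)) :=
            (meas_gsq ψ).comp (by fun_prop)
          exact this.aemeasurable
    _ = (∫⁻ y, ‖y‖ₑ ^ 2 ∂(gam σ)) * ∫⁻ x, gsq ψ x :=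
        lintegral_mul_const _ (measurable_enorm.pow_const 2)
    _ ≤ ENNReal.ofReal (24 * σ) * ∫⁻ x, gsq ψ x := by
        gcongr
        exact second_moment hσ

theorem enorm_sq_ofReal (f : V3) : ‖f‖ₑ ^ 2 = ENNReal.ofReal (‖f‖ ^ 2) := by
  rw [← ofReal_norm, ENNReal.ofReal_pow (norm_nonneg _)]

/-- the inequality for fields with a square integrable weak gradient -/
theorem poincare {σ : ℝ} (hσ : 0 < σ) {Q : V3} {DQ : Fin 3 → V3}
    (h : ∀ k, IsWeakDeriv k Q (DQ k)) : ‖Q - heatV hσ Q‖ ^ 2 ≤ 24 * σ * ∑ k, ‖DQ k‖ ^ 2 := by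
  choose ψ h1 h2 using fun n : ℕ => exists_approx_real Q DQ h (ε := 1 / ((n:ℝ) + 1))
    (by positivity)
  have hlim : Tendsto (fun n : ℕ => 1 / ((n:ℝ) + 1)) atTop (𝓝 0) :=
    tendsto_one_div_add_atTop_nhds_zero_nat
  have h3 : Tendsto (fun n => (ψ n).toLp 2 (volume : Measure E3)) atTop (𝓝 Q) := by
    rw [tendsto_iff_norm_sub_tendsto_zero]
    exact squeeze_zero (fun n => norm_nonneg _) (fun n => (h1 n).le) hlim
  have h4 : ∀ k, Tendsto (fun n => (∂_{ee k} (ψ n)).toLp 2 (volume : Measure E3)) atTop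
      (𝓝 (DQ k)) := by
    intro k
    rw [tendsto_iff_norm_sub_tendsto_zero]
    exact squeeze_zero (fun n => norm_nonneg _) (fun n => (h2 n k).le) hlim
  have l1 : Tendsto (fun n => ‖(ψ n).toLp 2 (volume : Measure E3) -
      heatV hσ ((ψ n).toLp 2 (volume : Measure E3))‖ ^ 2) atTop (𝓝 (‖Q - heatV hσ Q‖ ^ 2)) :=
    ((h3.sub (((continuous_heatV hσ).tendsto Q).comp h3)).norm).pow 2
  have l2 : Tendsto (fun n => 24 * σ * ∑ k, ‖(∂_{ee k} (ψ n)).toLp 2 (volume : Measure E3)‖ ^ 2)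
      atTop (𝓝 (24 * σ * ∑ k, ‖DQ k‖ ^ 2)) :=
    (tendsto_finsetSum _ fun k _ => ((h4 k).norm.pow 2)).const_mul _
  refine le_of_tendsto_of_tendsto' l1 l2 fun n => ?_
  have h5 := poincare_schwartz hσ (ψ n)
  have e1 : ∫⁻ x, ‖ψ n x - heat σ (ψ n) x‖ₑ ^ 2 = ENNReal.ofReal
      (‖(ψ n).toLp 2 (volume : Measure E3) -
      heatV hσ ((ψ n).toLp 2 (volume : Measure E3))‖ ^ 2) := by
    rw [← enorm_sq_ofReal, ← lintegral_sq_V3]
    apply lintegral_congr_ae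
    filter_upwards [coe_heatV hσ ((ψ n).toLp 2 (volume : Measure E3)),
      (ψ n).coeFn_toLp 2 (volume : Measure E3),
      Lp.coeFn_sub ((ψ n).toLp 2 (volume : Measure E3))
        (heatV hσ ((ψ n).toLp 2 (volume : Measure E3)))] with x g1 g2 g3
    rw [g3, Pi.sub_apply, g1, g2, heat_congr ((ψ n).coeFn_toLp 2 (volume : Measure E3))]
  have e2 : ∫⁻ x, gsq (ψ n) x = ENNReal.ofReal
      (∑ k, ‖(∂_{ee k} (ψ n)).toLp 2 (volume : Measure E3)‖ ^ 2) := by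
    unfold gsq
    rw [lintegral_finsetSum, ENNReal.ofReal_sum_of_nonneg (fun k _ => by positivity)]
    · refine Finset.sum_congr rfl fun k _ => ?_
      rw [← enorm_sq_ofReal, ← lintegral_sq_V3]
      apply lintegral_congr_ae
      filter_upwards [(∂_{ee k} (ψ n)).coeFn_toLp 2 (volume : Measure E3)] with x g1
      rw [g1]
    · intro k _
      exact ((∂_{ee k} (ψ n)).continuous.measurable.enorm.pow_const 2)
  rw [e1, e2, ← ENNReal.ofReal_mul (by positivity)] at h5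
  exact (ENNReal.ofReal_le_ofReal_iff (by positivity)).1 h5

end Pool.Agent.TB
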