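import Pool.Agent.TB.Poinc
import Pool.Agent.TB.Chain

/-!
# The truncation
-/

set_option autoImplicit false

namespace Pool.Agent.TB

open MeasureTheory Set Filter Topology Pool.Agent.TO
open scoped ENNReal NNReal Real InnerProductSpace

/-- the derivative of the truncation -/
noncomputable def chi (r : ℝ) : ℝ := max 0 (min 1 (min (|r| - 1) (49 - |r|)))

/-- the truncation -/
noncomputable def Tr (r : ℝ) : ℝ := ∫ s in (0:ℝ)..r, chi s

theorem continuous_chi : Continuous chi := by
  unfold chi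
  fun_prop

theorem chi_nonneg (r : ℝ) : 0 ≤ chi r := le_max_left _ _

theorem chi_le_one (r : ℝ) : chi r ≤ 1 := max_le zero_le_one (min_le_left _ _)

theorem chi_neg (r : ℝ) : chi (-r) = chi r := by
  unfold chi
  rw [abs_neg]

theorem chi_zero_of {r : ℝ} (h : |r| < 1 ∨ 49 < |r|) : chi r = 0 := by
  unfold chi
  apply max_eq_left
  rcases h with h | h
  · exact (min_le_right _ _).trans ((min_le_left _ _).trans (by linarith))
  · exact (min_le_right _ _).trans ((min_le_right _ _).trans (by linarith))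

theorem chi_one_of {r : ℝ} (h1 : 2 ≤ r) (h2 : r ≤ 48) : chi r = 1 := by
  unfold chi
  rw [abs_of_nonneg (by linarith), min_eq_left, max_eq_right zero_le_one]
  exact le_min (by linarith) (by linarith)

theorem chi_lip : LipschitzWith 1 chi := by
  have h1 : LipschitzWith 1 (fun r : ℝ => |r|) := by
    apply LipschitzWith.of_dist_le_mul
    intro x y
    rw [Real.dist_eq, Real.dist_eq, NNReal.coe_one, one_mul]
    exact abs_abs_sub_abs_le_abs_sub x y
  have h2 : LipschitzWith 1 (fun r : ℝ => |r| - 1) := by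
    apply LipschitzWith.of_dist_le_mul
    intro x y
    have := h1.dist_le_mul x y
    rw [Real.dist_eq] at this ⊢
    have e : |x| - 1 - (|y| - 1) = |x| - |y| := by ring
    rw [e]
    exact this
  have h3 : LipschitzWith 1 (fun r : ℝ => 49 - |r|) := by
    apply LipschitzWith.of_dist_le_mul
    intro x y
    have := h1.dist_le_mul x y
    rw [Real.dist_eq] at this ⊢
    have e : 49 - |x| - (49 - |y|) = -(|x| - |y|) := by ring
    rw [e, abs_neg]
    exact this
  have h4 := (LipschitzWith.const (1:ℝ) (α := ℝ)).min (h2.min h3)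
  have h5 := (LipschitzWith.const (0:ℝ) (α := ℝ)).max h4
  simp only [max_self, zero_le, sup_of_le_right] at h5
  exact h5

theorem chi_int (a b : ℝ) : IntervalIntegrable chi volume a b :=
  continuous_chi.intervalIntegrable a b

theorem hasDerivAt_Tr (r : ℝ) : HasDerivAt Tr (chi r) r :=
  intervalIntegral.integral_hasDerivAt_right (chi_int 0 r)
    (continuous_chi.stronglyMeasurableAtFilter _ _) continuous_chi.continuousAt

theorem Tr_zero : Tr 0 = 0 := by simp [Tr]

theorem Tr_neg (r : ℝ) : Tr (-r) = -Tr r := by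
  unfold Tr
  have h := intervalIntegral.integral_comp_neg (a := 0) (b := r) chi
  simp only [chi_neg, neg_zero] at h
  rw [intervalIntegral.integral_symm, h]

theorem Tr_lip : LipschitzWith 1 Tr := by
  apply lipschitzWith_of_nnnorm_deriv_le (fun r => (hasDerivAt_Tr r).differentiableAt)
  intro r
  rw [(hasDerivAt_Tr r).deriv]
  have h1 : ‖chi r‖ ≤ 1 := by
    rw [Real.norm_of_nonneg (chi_nonneg r)]
    exact chi_le_one r
  exact_mod_cast h1

theorem sub_Tr (r : ℝ) : r - Tr r = ∫ s in (0:ℝ)..r, (1 - chi s) := by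
  rw [intervalIntegral.integral_sub (by simp) (chi_int 0 r)]
  simp [Tr]

theorem sub_Tr_nonneg {r : ℝ} (hr : 0 ≤ r) : 0 ≤ r - Tr r ∧ r - Tr r ≤ r := by
  have h0 : 0 ≤ Tr r := intervalIntegral.integral_nonneg hr fun s _ => chi_nonneg s
  rw [sub_Tr]
  refine ⟨intervalIntegral.integral_nonneg hr fun s _ => by linarith [chi_le_one s], ?_⟩
  rw [← sub_Tr]
  linarith

theorem sub_Tr_le {r : ℝ} (hr : 0 ≤ r) (h48 : r ≤ 48) : r - Tr r ≤ 2 := by
  rcases le_total r 2 with h | h
  · exact (sub_Tr_nonneg hr).2.trans h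
  · have i : ∀ a b : ℝ, IntervalIntegrable (fun s => 1 - chi s) volume a b := fun a b =>
      (continuous_const.sub continuous_chi).intervalIntegrable a b
    rw [sub_Tr, ← intervalIntegral.integral_add_adjacent_intervals (i 0 2) (i 2 r)]
    have h1 : ∫ s in (2:ℝ)..r, (1 - chi s) = 0 := by
      have : ∫ s in (2:ℝ)..r, (1 - chi s) = ∫ s in (2:ℝ)..r, (0:ℝ) := by
        apply intervalIntegral.integral_congr
        intro s hs
        rw [uIcc_of_le h] at hs
        simp only
        rw [chi_one_of hs.1 (hs.2.trans h48), sub_self]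
      rw [this, intervalIntegral.integral_zero]
    have h2 : ∫ s in (0:ℝ)..2, (1 - chi s) = 2 - Tr 2 := (sub_Tr 2).symm
    rw [h1, add_zero, h2]
    exact (sub_Tr_nonneg (by norm_num)).2

theorem six_le_Tr {r : ℝ} (hr : 8 ≤ r) : 6 ≤ Tr r := by
  have e1 : Tr r = (∫ s in (0:ℝ)..2, chi s) + (∫ s in (2:ℝ)..8, chi s) +
      ∫ s in (8:ℝ)..r, chi s := by
    rw [intervalIntegral.integral_add_adjacent_intervals (chi_int 0 2) (chi_int 2 8),
      intervalIntegral.integral_add_adjacent_intervals (chi_int 0 8) (chi_int 8 r)]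
    rfl
  have h1 : 0 ≤ ∫ s in (0:ℝ)..2, chi s :=
    intervalIntegral.integral_nonneg (by norm_num) fun s _ => chi_nonneg s
  have h2 : 0 ≤ ∫ s in (8:ℝ)..r, chi s :=
    intervalIntegral.integral_nonneg hr fun s _ => chi_nonneg s
  have h3 : ∫ s in (2:ℝ)..8, chi s = 6 := by
    have : ∫ s in (2:ℝ)..8, chi s = ∫ s in (2:ℝ)..8, (1:ℝ) := by
      apply intervalIntegral.integral_congr
      intro s hs
      rw [uIcc_of_le (by norm_num)] at hs
      exact chi_one_of hs.1 (hs.2.trans (by norm_num))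
    rw [this]
    simp
    norm_num
  linarith

theorem abs_sub_Tr_le (r : ℝ) : |r - Tr r| ≤ 2 ∨ (48 ≤ |r| ∧ |r - Tr r| ≤ |r|) := by
  have key : ∀ r : ℝ, 0 ≤ r → |r - Tr r| ≤ 2 ∨ (48 ≤ |r| ∧ |r - Tr r| ≤ |r|) := by
    intro r hr
    have h1 := sub_Tr_nonneg hr
    rw [abs_of_nonneg h1.1, abs_of_nonneg hr]
    rcases le_total r 48 with h | h
    · exact Or.inl (sub_Tr_le hr h)
    · exact Or.inr ⟨h, h1.2⟩
  rcases le_total 0 r with h | h
  · exact key r h
  · have := key (-r) (by linarith)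
    rw [Tr_neg, abs_neg] at this
    have e : -r - -Tr r = -(r - Tr r) := by ring
    rwa [e, abs_neg] at this

theorem six_le_abs_Tr {r : ℝ} (hr : 8 ≤ |r|) : 6 ≤ |Tr r| := by
  rcases le_total 0 r with h | h
  · rw [abs_of_nonneg h] at hr
    exact (six_le_Tr hr).trans (le_abs_self _)
  · rw [abs_of_nonpos h] at hr
    have := (six_le_Tr hr).trans (le_abs_self _)
    rwa [Tr_neg, abs_neg] at this

/-- the truncation of the component at level `u` -/
noncomputable def Fu (j : Fin 3) (u : ℝ) (z : E3) : ℝ := u * Tr (z j / u)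

/-- its gradient -/
noncomputable def Phu (j : Fin 3) (u : ℝ) (z : E3) : E3 := chi (z j / u) • ee j

theorem Fu_zero (j : Fin 3) (u : ℝ) : Fu j u 0 = 0 := by simp [Fu, Tr_zero]

theorem chi_zero : chi 0 = 0 := chi_zero_of (by left; simp)

theorem Phu_zero (j : Fin 3) (u : ℝ) : Phu j u 0 = 0 := by simp [Phu, chi_zero]

theorem norm_ee (j : Fin 3) : ‖ee j‖ = 1 := by simp [ee]

theorem norm_Phu_le (j : Fin 3) (u : ℝ) (z : E3) : ‖Phu j u z‖ ≤ 1 := by
  rw [Phu, norm_smul, norm_ee, mul_one, Real.norm_of_nonneg (chi_nonneg _)]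
  exact chi_le_one _

theorem hasFDerivAt_Fu (j : Fin 3) {u : ℝ} (hu : 0 < u) (z : E3) :
    HasFDerivAt (Fu j u) (innerSL ℝ (Phu j u z)) z := by
  have h1 : HasFDerivAt (fun z : E3 => z j / u)
      (u⁻¹ • (EuclideanSpace.proj j : E3 →L[ℝ] ℝ)) z := by
    have := ((EuclideanSpace.proj j : E3 →L[ℝ] ℝ).hasFDerivAt (x := z)).const_mul u⁻¹
    refine this.congr_of_eventuallyEq (Eventually.of_forall fun z => ?_)
    exact div_eq_inv_mul (z j) u
  have h2 := ((hasDerivAt_Tr (z j / u)).comp_hasFDerivAt z h1).const_mul u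
  have e : u • chi (z j / u) • u⁻¹ • (EuclideanSpace.proj j : E3 →L[ℝ] ℝ) =
      innerSL ℝ (Phu j u z) := by
    apply ContinuousLinearMap.ext
    intro v
    change u * (chi (z j / u) * (u⁻¹ * v j)) = ⟪Phu j u z, v⟫_ℝ
    rw [Phu, inner_smul_left, conj_trivial, real_inner_comm, inner_ee]
    field_simp
  rw [e] at h2
  exact h2

theorem lip_Fu (j : Fin 3) {u : ℝ} (hu : 0 < u) : LipschitzWith 1 (Fu j u) := by
  apply LipschitzWith.of_dist_le_mul
  intro z z'
  rw [NNReal.coe_one, one_mul, Real.dist_eq, dist_eq_norm]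
  have h1 := Tr_lip.dist_le_mul (z j / u) (z' j / u)
  rw [NNReal.coe_one, one_mul, Real.dist_eq, Real.dist_eq] at h1
  have e1 : Fu j u z - Fu j u z' = u * (Tr (z j / u) - Tr (z' j / u)) := by
    simp only [Fu]
    ring
  have e2 : z j / u - z' j / u = (z - z') j / u := by
    rw [PiLp.sub_apply]
    ring
  rw [e1, abs_mul, abs_of_pos hu]
  rw [e2, abs_div, abs_of_pos hu] at h1
  calc u * |Tr (z j / u) - Tr (z' j / u)| ≤ u * (|(z - z') j| / u) := by gcongr
    _ = |(z - z') j| := by field_simp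
    _ ≤ ‖z - z'‖ := abs_coord_le _ _

theorem lip_Phu (j : Fin 3) {u : ℝ} (hu : 0 < u) :
    LipschitzWith (u⁻¹).toNNReal (Phu j u) := by
  apply LipschitzWith.of_dist_le_mul
  intro z z'
  rw [Real.coe_toNNReal _ (by positivity), dist_eq_norm, dist_eq_norm]
  have h1 := chi_lip.dist_le_mul (z j / u) (z' j / u)
  rw [NNReal.coe_one, one_mul, Real.dist_eq, Real.dist_eq] at h1
  have e2 : z j / u - z' j / u = (z - z') j / u := by
    rw [PiLp.sub_apply]
    ring
  rw [e2, abs_div, abs_of_pos hu] at h1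
  rw [Phu, Phu, ← sub_smul, norm_smul, norm_ee, mul_one, Real.norm_eq_abs]
  refine h1.trans ?_
  rw [div_eq_inv_mul]
  gcongr
  exact abs_coord_le _ _

end Pool.Agent.TB
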